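import Mathlib
import Pool.Agent.LGO.S.Defs

/-!
# LGO/C: points at infinity of type A with CM coordinates

`V` is an irreducible curve over `ℚbar`, `x_a = ∞`, `x_b = β`, `x_c = γ` a point at infinity of type A
(`TypeA` in `LGO/S/Defs.lean`).

* A1 (`cm_core`): `β = j(z₀)` and `γ = j(z₁)` are both CM values.
* A2 (`mix_core`): exactly one of them is a CM value.

Plan of A1.  `T = ‖s F(x)‖` large (`F` the function of `geo` with its pole at the point at infinity), `Y = s x_b`,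
`Z = s x_c` close to `s β = j(z₀)`, `s γ = j(z₁)`; `Y = j(τ)`, `Z = j(τ')`, `g τ = τ'` with `g` primitive of
determinant `N = mdeg Y Z`, `τ` close to `z₀`, `τ'` close to `z₁` (`cm_pts`).  The number
`z₁ (g10 z₀ + g11) - (g00 z₀ + g01)` is algebraic, in a fixed number field, and small: if it is not zero then
`T ≤ (C N) ^ C` (`cm_liou_lin`).  Otherwise `g z₀ = z₁` exactly.  On the curve `(x_b - β)^k / (x_c - γ)^l → α`
with `α ≠ 0` algebraic (`cm_cusp`).  With `j(τ) - β ∼ c (τ - z₀)^r`, `j(τ') - γ ∼ c' (τ' - z₁)^r'`,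
`τ' - z₁ ∼ (N / D₀²) (τ - z₀)`, `D₀ = g10 z₀ + g11`, `|N / D₀²| = Im z₁ / Im z₀`: if `k r ≠ l r'` then `T ≤ C`, and
if `ρ = k r = l r'` then `N^ρ` is close to `α₁ D₀^(2ρ)`, `α₁ = c^k / (α c'^l)` (`cm_ratio`), and `α₁` is
ALGEBRAIC (`cm_alg`: if `g₀ z₀ = z₁` for one `g₀` then `(j(τ) - β)^k / (j(g₀ τ) - γ)^l` has a limit as `τ → z₀`, along
the modular curve).  So (`cm_liou_pow`) `T ≤ (C N) ^ C` or `N^ρ = α₁ D₀^(2ρ)`, and the latter happens only for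
bounded `N` (`cm_fin`).  Finally `core_good`.
-/

namespace Pool.Agent.LGO

open UpperHalfPlane Pool.Agent.Hhelper14.ZP

/-- the local expansion `j(τ) - j(z₀) = c (τ - z₀) ^ r + O(|τ - z₀| ^ (r + 1))` -/
structure JExp (z₀ : ℍ) (r : ℕ) (c : ℂ) (C δ : ℝ) : Prop where
  hr : 0 < r
  hc : c ≠ 0
  hC : 0 < C
  hδ : 0 < δ
  bd : ∀ τ : ℍ, ‖(τ : ℂ) - z₀‖ ≤ δ →
    ‖jInv τ - jInv z₀ - c * ((τ : ℂ) - z₀) ^ r‖ ≤ C * ‖(τ : ℂ) - z₀‖ ^ (r + 1)

end Pool.Agent.LGO
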