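import Mathlib
import Pool.Agent.LGO.Gal.Basic
import Pool.Agent.LGO.Q.Ent

/-!
# LGO/C: two pairs of points with the same matrix

`N = det g > 0`, `D₀ = g10 z₀ + g11`, `g z₀ = z₁`, `g τ = τ'`, `u = τ - z₀`, `w = τ' - z₁`.

* `D₀ ≠ 0` (`Gal.den_ne_zero`), `‖D₀‖² Im z₁ = N Im z₀` (`norm_sq_denom` in `LGO/Q/Ent.lean`): so
  `‖N / D₀²‖ = Im z₁ / Im z₀`.
* `|g10| Im z₀ = |Im D₀| ≤ ‖D₀‖`: so `‖g10 / D₀‖ ≤ 1 / Im z₀`.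
* `w (D₀ + g10 u) D₀ = N u`: `w (D₀ + g10 u) D₀ = (τ' - z₁) (g10 τ + g11) D₀
  = (g00 τ + g01) (g10 z₀ + g11) - (g00 z₀ + g01) (g10 τ + g11) = N (τ - z₀)`; divided by `D₀²`:
  `w (1 + (g10 / D₀) u) = (N / D₀²) u`.
-/

namespace Pool.Agent.LGO

open UpperHalfPlane

theorem cm_geom {z₀ z₁ : ℍ} {g : Matrix (Fin 2) (Fin 2) ℤ} (hg : 0 < g.det)
    (h : Maps g (z₀ : ℂ) (z₁ : ℂ)) : (g 1 0 : ℂ) * z₀ + (g 1 1 : ℂ) ≠ 0 ∧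
      ‖(g 1 0 : ℂ) * z₀ + (g 1 1 : ℂ)‖ ^ 2 * z₁.im = (g.det : ℝ) * z₀.im ∧
      ‖(g.det : ℂ) / ((g 1 0 : ℂ) * z₀ + (g 1 1 : ℂ)) ^ 2‖ = z₁.im / z₀.im ∧
      ‖(g 1 0 : ℂ) / ((g 1 0 : ℂ) * z₀ + (g 1 1 : ℂ))‖ ≤ 1 / z₀.im ∧
      ∀ τ τ' : ℍ, Maps g (τ : ℂ) (τ' : ℂ) →
        ((τ' : ℂ) - z₁) * (1 + (g 1 0 : ℂ) / ((g 1 0 : ℂ) * z₀ + (g 1 1 : ℂ)) * ((τ : ℂ) - z₀)) =
          (g.det : ℂ) / ((g 1 0 : ℂ) * z₀ + (g 1 1 : ℂ)) ^ 2 * ((τ : ℂ) - z₀) := by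
  have hD : (g 1 0 : ℂ) * z₀ + (g 1 1 : ℂ) ≠ 0 := Gal.den_ne_zero hg.ne' z₀
  have hz₀ : 0 < z₀.im := z₀.im_pos
  have h2 : ‖(g 1 0 : ℂ) * z₀ + (g 1 1 : ℂ)‖ ^ 2 * z₁.im = (g.det : ℝ) * z₀.im := norm_sq_denom h
  have hn : 0 < ‖(g 1 0 : ℂ) * z₀ + (g 1 1 : ℂ)‖ := norm_pos_iff.mpr hD
  have hdet : (0 : ℝ) < (g.det : ℝ) := by exact_mod_cast hg
  have hcast : ∀ n : ℤ, ‖(n : ℂ)‖ = |(n : ℝ)| := by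
    intro n
    rw [← Complex.ofReal_intCast, Complex.norm_real, Real.norm_eq_abs]
  refine ⟨hD, h2, ?_, ?_, ?_⟩
  · rw [norm_div, norm_pow, hcast, abs_of_pos hdet, div_eq_div_iff (by positivity) hz₀.ne']
    linarith
  · rw [norm_div, hcast, div_le_div_iff₀ hn hz₀, one_mul]
    have e1 : ((g 1 0 : ℂ) * z₀ + (g 1 1 : ℂ)).im = (g 1 0 : ℝ) * z₀.im := by
      simp [Complex.mul_im]
    have e2 := Complex.abs_im_le_norm ((g 1 0 : ℂ) * z₀ + (g 1 1 : ℂ))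
    rw [e1, abs_mul, abs_of_pos hz₀] at e2
    exact e2
  · intro τ τ' h'
    rw [Maps] at h h'
    have hdc : (g.det : ℂ) = (g 0 0 : ℂ) * (g 1 1 : ℂ) - (g 0 1 : ℂ) * (g 1 0 : ℂ) := by
      rw [Matrix.det_fin_two]
      push_cast
      ring
    have key : ((τ' : ℂ) - z₁) * (((g 1 0 : ℂ) * z₀ + (g 1 1 : ℂ)) + (g 1 0 : ℂ) * ((τ : ℂ) - z₀)) *
        ((g 1 0 : ℂ) * z₀ + (g 1 1 : ℂ)) = (g.det : ℂ) * ((τ : ℂ) - z₀) := by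
      rw [hdc]
      linear_combination ((g 1 0 : ℂ) * z₀ + (g 1 1 : ℂ)) * h' - ((g 1 0 : ℂ) * τ + (g 1 1 : ℂ)) * h
    have e3 : (1 + (g 1 0 : ℂ) / ((g 1 0 : ℂ) * z₀ + (g 1 1 : ℂ)) * ((τ : ℂ) - z₀)) =
        (((g 1 0 : ℂ) * z₀ + (g 1 1 : ℂ)) + (g 1 0 : ℂ) * ((τ : ℂ) - z₀)) /
          ((g 1 0 : ℂ) * z₀ + (g 1 1 : ℂ)) := by
      rw [add_div, div_self hD, div_mul_eq_mul_div]
    rw [e3, ← mul_div_assoc, div_mul_eq_mul_div, div_eq_div_iff hD (pow_ne_zero 2 hD), pow_two,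
      ← mul_assoc, key]

end Pool.Agent.LGO
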