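import Mathlib
import Pool.Agent.Hhelper14.ZPL.KClosed

/-!
# LGO/C: a limit along a plane algebraic curve over the algebraic numbers is algebraic

Proof of `cm_limit_alg`.  If `α = 0` there is nothing to do.  For every `n` choose `v n` with `v n ^ k = Y n`
(`IsAlgClosed.exists_pow_nat_eq`), `v n ≠ 0`, `v n → 0` (`‖v n‖ ^ k = ‖Y n‖`), and let `u n = X n / v n ^ l`:
`(u n) ^ k = X n ^ k / Y n ^ l → α`, so `u n` is bounded, and for a subsequence `u n → u`, `u ^ k = α`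
(`tendsto_subseq_of_bounded`).  For a monomial `c_{pq} X^p Y^q` of `Ψ`:
`c_{pq} X n ^ p Y n ^ q = c_{pq} u n ^ p v n ^ (l p + k q)`.  Let `w₀` be the minimum of `l p + k q` over the support
of `Ψ`.  Divide `Ψ(X n, Y n) = 0` by `v n ^ w₀` and let `n → ∞`:
`∑ c_{pq} u ^ p = 0`, the sum over the monomials with `l p + k q = w₀`; different such monomials have
different `p` (as `k > 0`).  So the polynomial `∑ c_{pq} T ^ p` over `Qb` is not zero and `u` is a root of it: `u` is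
algebraic over `Qb`, hence over `ℚ` (`Qb` is algebraic over `ℚ`: `isAlgebraic_trans` or
`Algebra.IsAlgebraic.trans`), and `α = u ^ k` is algebraic.
(`MvPolynomial.aeval_def`, `MvPolynomial.eval₂_eq'` give the sum over the support; `Fin.prod_univ_two`.)
-/

namespace Pool.Agent.LGO

open MvPolynomial Filter Topology Pool.Agent.Hhelper14.ZPL

private theorem LimA_pow_tendsto {k : ℕ} (hk : 0 < k) {v Y : ℕ → ℂ} (hv : ∀ n, v n ^ k = Y n)
    (hY : Tendsto Y atTop (𝓝 0)) : Tendsto v atTop (𝓝 0) := by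
  rw [tendsto_zero_iff_norm_tendsto_zero] at hY ⊢
  have h1 : ∀ n, ‖v n‖ = ‖Y n‖ ^ (1 / (k : ℝ)) := by
    intro n
    rw [← hv n, norm_pow, ← Real.rpow_natCast, ← Real.rpow_mul (norm_nonneg _)]
    have : (k : ℝ) * (1 / (k : ℝ)) = 1 := by
      field_simp
    rw [this, Real.rpow_one]
  have h2 : Tendsto (fun n => ‖Y n‖ ^ (1 / (k : ℝ))) atTop (𝓝 (0 ^ (1 / (k : ℝ)))) := by
    refine (Real.continuousAt_rpow_const _ _ (Or.inr ?_)).tendsto.comp hY
    positivity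
  rw [Real.zero_rpow (by positivity)] at h2
  exact h2.congr fun n => (h1 n).symm

/-- the lowest part of `Ψ` for the weights `l`, `k` -/
private noncomputable def LimA_P (Ψ : MvPolynomial (Fin 2) Qb) (k l w : ℕ) : Polynomial Qb :=
  ∑ m ∈ Ψ.support.filter (fun m => l * m 0 + k * m 1 = w), Polynomial.monomial (m 0) (Ψ.coeff m)

private theorem LimA_P_ne {Ψ : MvPolynomial (Fin 2) Qb} {k l w : ℕ} (hk : 0 < k) {m₀ : Fin 2 →₀ ℕ}
    (hm₀ : m₀ ∈ Ψ.support) (hw : l * m₀ 0 + k * m₀ 1 = w) : LimA_P Ψ k l w ≠ 0 := by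
  classical
  intro h0
  have h1 : (LimA_P Ψ k l w).coeff (m₀ 0) = Ψ.coeff m₀ := by
    unfold LimA_P
    rw [Polynomial.finsetSum_coeff]
    rw [Finset.sum_eq_single m₀]
    · rw [Polynomial.coeff_monomial, if_pos rfl]
    · intro m hm hne
      rw [Polynomial.coeff_monomial, if_neg]
      intro he
      apply hne
      have h2 := (Finset.mem_filter.1 hm).2
      rw [he, ← hw] at h2
      have h3 : m 1 = m₀ 1 := by
        have : k * m 1 = k * m₀ 1 := by omega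
        exact Nat.eq_of_mul_eq_mul_left hk this
      ext i
      fin_cases i
      · exact he
      · exact h3
    · intro h
      exact absurd (Finset.mem_filter.2 ⟨hm₀, hw⟩) h
  rw [h0, Polynomial.coeff_zero] at h1
  exact (MvPolynomial.mem_support_iff.1 hm₀) h1.symm

theorem cm_limit_alg {Ψ : MvPolynomial (Fin 2) Qb} (hΨ : Ψ ≠ 0) {X Y : ℕ → ℂ}
    (hX : Tendsto X atTop (𝓝 0)) (hY : Tendsto Y atTop (𝓝 0)) (hX0 : ∀ n, X n ≠ 0)
    (hY0 : ∀ n, Y n ≠ 0) (h : ∀ n, (aeval ![X n, Y n] Ψ : ℂ) = 0) {k l : ℕ} (hk : 0 < k)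
    (hl : 0 < l) {α : ℂ} (hlim : Tendsto (fun n => X n ^ k / Y n ^ l) atTop (𝓝 α)) :
    IsAlgebraic ℚ α := by
  classical
  choose v hv using fun n => IsAlgClosed.exists_pow_nat_eq (Y n) hk
  have hv0 : ∀ n, v n ≠ 0 := by
    intro n h0
    apply hY0 n
    rw [← hv n, h0, zero_pow hk.ne']
  have hvt : Tendsto v atTop (𝓝 0) := LimA_pow_tendsto hk hv hY
  set u : ℕ → ℂ := fun n => X n / v n ^ l with hu
  have huk : ∀ n, u n ^ k = X n ^ k / Y n ^ l := by
    intro n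
    rw [hu]
    simp only
    rw [div_pow, ← pow_mul, mul_comm l k, pow_mul, hv n]
  have hut : Tendsto (fun n => u n ^ k) atTop (𝓝 α) := hlim.congr fun n => (huk n).symm
  have hXu : ∀ n, X n = u n * v n ^ l := by
    intro n
    rw [hu]
    simp only
    rw [div_mul_cancel₀ _ (pow_ne_zero _ (hv0 n))]
  -- bounded
  obtain ⟨B, hB⟩ : ∃ B : ℝ, ∀ n, ‖u n‖ ≤ B := by
    have h1 : Tendsto (fun n => ‖u n ^ k‖) atTop (𝓝 ‖α‖) := hut.norm
    obtain ⟨B, hB⟩ := h1.bddAbove_range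
    refine ⟨max B 1, fun n => ?_⟩
    have h2 : ‖u n‖ ^ k ≤ B := by
      rw [← norm_pow]
      exact hB ⟨n, rfl⟩
    by_contra hc
    rw [not_le] at hc
    have h3 : 1 < ‖u n‖ := lt_of_le_of_lt (le_max_right _ _) hc
    have h4 : ‖u n‖ ≤ ‖u n‖ ^ k := le_self_pow₀ h3.le hk.ne'
    exact absurd (lt_of_le_of_lt (le_max_left B 1) hc) (not_lt.2 (h4.trans h2))
  obtain ⟨u₁, -, φ, hφ, hφt⟩ := tendsto_subseq_of_bounded
    (Metric.isBounded_closedBall (x := (0 : ℂ)) (r := B)) (x := u) (fun n => by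
      rw [Metric.mem_closedBall, dist_zero_right]
      exact hB n)
  have hu1 : u₁ ^ k = α := by
    have h1 : Tendsto (fun n => (u ∘ φ) n ^ k) atTop (𝓝 (u₁ ^ k)) := hφt.pow k
    exact tendsto_nhds_unique h1 (hut.comp hφ.tendsto_atTop)
  have hvφ : Tendsto (v ∘ φ) atTop (𝓝 0) := hvt.comp hφ.tendsto_atTop
  -- the lowest weight
  obtain ⟨m₀, hm₀, hmin⟩ := Finset.exists_min_image Ψ.support
    (fun m : Fin 2 →₀ ℕ => l * m 0 + k * m 1) (MvPolynomial.support_nonempty.2 hΨ)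
  set w := l * m₀ 0 + k * m₀ 1 with hw
  have hterm : ∀ n, ∑ m ∈ Ψ.support, algebraMap Qb ℂ (Ψ.coeff m) * (u n ^ m 0 *
      v n ^ (l * m 0 + k * m 1 - w)) = 0 := by
    intro n
    have h1 := h n
    rw [aeval_def, eval₂_eq'] at h1
    have h2 : ∀ m ∈ Ψ.support, algebraMap Qb ℂ (Ψ.coeff m) * ∏ i, (![X n, Y n] i) ^ m i =
        v n ^ w * (algebraMap Qb ℂ (Ψ.coeff m) * (u n ^ m 0 * v n ^ (l * m 0 + k * m 1 - w))) := by
      intro m hm
      have h3 : w ≤ l * m 0 + k * m 1 := hmin m hm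
      rw [Fin.prod_univ_two]
      simp only [Matrix.cons_val_zero, Matrix.cons_val_one]
      rw [hXu n, ← hv n, mul_pow, ← pow_mul, ← pow_mul]
      have h4 : v n ^ w * v n ^ (l * m 0 + k * m 1 - w) = v n ^ (l * m 0) * v n ^ (k * m 1) := by
        rw [← pow_add, ← pow_add, Nat.add_sub_cancel' h3]
      calc algebraMap Qb ℂ (Ψ.coeff m) * (u n ^ m 0 * v n ^ (l * m 0) * v n ^ (k * m 1))
          = algebraMap Qb ℂ (Ψ.coeff m) * (u n ^ m 0 * (v n ^ (l * m 0) * v n ^ (k * m 1))) := by ring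
        _ = algebraMap Qb ℂ (Ψ.coeff m) * (u n ^ m 0 *
              (v n ^ w * v n ^ (l * m 0 + k * m 1 - w))) := by rw [h4]
        _ = _ := by ring
    rw [Finset.sum_congr rfl h2, ← Finset.mul_sum] at h1
    exact (mul_eq_zero.1 h1).resolve_left (pow_ne_zero _ (hv0 n))
  have hlimit : Tendsto (fun n => ∑ m ∈ Ψ.support, algebraMap Qb ℂ (Ψ.coeff m) *
      ((u ∘ φ) n ^ m 0 * (v ∘ φ) n ^ (l * m 0 + k * m 1 - w))) atTop
      (𝓝 (∑ m ∈ Ψ.support, algebraMap Qb ℂ (Ψ.coeff m) *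
        (u₁ ^ m 0 * (0 : ℂ) ^ (l * m 0 + k * m 1 - w)))) := by
    refine tendsto_finsetSum _ fun m _ => ?_
    exact ((hφt.pow _).mul (hvφ.pow _)).const_mul _
  have hzero : ∑ m ∈ Ψ.support, algebraMap Qb ℂ (Ψ.coeff m) *
        (u₁ ^ m 0 * (0 : ℂ) ^ (l * m 0 + k * m 1 - w)) = 0 := by
    refine tendsto_nhds_unique hlimit ?_
    refine tendsto_const_nhds.congr fun n => ?_
    exact (hterm (φ n)).symm
  have hP : Polynomial.aeval u₁ (LimA_P Ψ k l w) = 0 := by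
    unfold LimA_P
    rw [map_sum, Finset.sum_filter]
    refine (Finset.sum_congr rfl fun m hm => ?_).trans hzero
    have h3 : w ≤ l * m 0 + k * m 1 := hmin m hm
    by_cases he : l * m 0 + k * m 1 = w
    · rw [if_pos he, he, Nat.sub_self, pow_zero, mul_one, Polynomial.aeval_monomial]
    · rw [if_neg he, zero_pow (by omega), mul_zero, mul_zero]
  have halg : IsAlgebraic Qb u₁ := ⟨LimA_P Ψ k l w, LimA_P_ne hk hm₀ hw.symm, hP⟩
  have : Algebra.IsAlgebraic ℚ Qb := algebraicClosure.isAlgebraic ℚ ℂ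
  have halg' : IsAlgebraic ℚ u₁ := halg.restrictScalars ℚ
  rw [← hu1]
  exact halg'.pow k

end Pool.Agent.LGO
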