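import Mathlib

/-!
# LGO/C: comparison of two local expansions

All constants depend only on the data before the quantifiers.  Write `O(x)` for a quantity of absolute
value `≤ C x` with such a constant.

`cm_pow`: `e = c u^r + O(|u|^(r+1))`, `‖u‖ ≤ 1`, implies `e^k = c^k u^(r k) + O(|u|^(r k + 1))`: induction on `k`, or
`e^k - f^k = (e - f) ∑ e^i f^(k-1-i)` with `f = c u^r`, `‖f‖ ≤ ‖c‖ ‖u‖^r`, `‖e‖ ≤ (‖c‖ + C₁) ‖u‖^r`.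

`cm_quot`: `w (1 + η u) = q u`, `‖η‖ ≤ κ`, `‖q‖ = Q`, `‖u‖ ≤ min 1 (1 / (2 κ + 1))`: `‖1 + η u‖ ≥ 1/2`, so `‖w‖ ≤ 2 Q ‖u‖`, and
`w - q u = - η u w` has absolute value `≤ 2 κ Q ‖u‖²`.

`cm_num`.  Let `‖u‖ ≤ δ` (small, `δ ≤ 1`).  `e₀^k = c^k u^(r k) + O(|u|^(r k + 1))` (`cm_pow`).  `‖w‖ ≤ 2 Q ‖u‖ ≤ 1`, and
`e₁^l = c'^l w^(r' l) + O(|w|^(r' l + 1))` (`cm_pow`), `w^(r' l) = q^(r' l) u^(r' l) + O(|u|^(r' l + 1))` (`cm_quot` and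
`cm_pow` with `r = 1`, `c = q`: here the constants depend on `‖q‖ = Q` only; state `cm_pow` with a bound `B` of `‖c‖`), so
`e₁^l = c'^l q^(r' l) u^(r' l) + O(|u|^(r' l + 1))`, and in particular `‖e₁^l‖ = O(|u|^(r' l))`.
Insert in `‖e₀^k - α e₁^l‖ ≤ A ‖e₁^l‖`:
`‖c^k u^(r k) - α c'^l q^(r' l) u^(r' l)‖ ≤ O(|u|^(r k + 1)) + O(|u|^(r' l + 1)) + A O(|u|^(r' l))`.
* `k r = l r' = ρ`: divide by `|u|^ρ` (`u ≠ 0`): `‖c^k - α c'^l q^ρ‖ ≤ C (‖u‖ + A)`.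
* `k r < l r'`: divide by `|u|^(k r)`: `‖c‖^k ≤ O(|u|) + A O(|u|)`, as `‖u‖ ≤ 1` and `l r' ≥ k r + 1`, so `1 ≤ C (‖u‖ + A)`
  (`‖u‖ ≤ 1`: `A ‖u‖ ≤ A`).
* `k r > l r'`: divide by `|u|^(l r')`: `‖α‖ ‖c'‖^l Q^(l r') ≤ O(|u|) + A O(1)`, so `1 ≤ C (‖u‖ + A)`.
-/

namespace Pool.Agent.LGO

theorem cm_pow {B C₁ : ℝ} (hB : 0 ≤ B) (hC₁ : 0 ≤ C₁) (r k : ℕ) : ∃ C : ℝ, 0 < C ∧
    ∀ c u e : ℂ, ‖c‖ ≤ B → ‖u‖ ≤ 1 → ‖e - c * u ^ r‖ ≤ C₁ * ‖u‖ ^ (r + 1) →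
      ‖e ^ k - c ^ k * u ^ (r * k)‖ ≤ C * ‖u‖ ^ (r * k + 1) := by
  induction k with
  | zero =>
    refine ⟨1, one_pos, fun c u e _ _ _ => ?_⟩
    rw [Nat.mul_zero, pow_zero, pow_zero, pow_zero, mul_one, sub_self, norm_zero]
    positivity
  | succ k ih =>
    obtain ⟨C, hC, h⟩ := ih
    refine ⟨(B + C₁) * C + C₁ * B ^ k + 1, by positivity, fun c u e hc hu he => ?_⟩
    have h1 := h c u e hc hu he
    have hu0 : 0 ≤ ‖u‖ := norm_nonneg u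
    have he' : ‖e‖ ≤ (B + C₁) * ‖u‖ ^ r := by
      calc ‖e‖ = ‖c * u ^ r + (e - c * u ^ r)‖ := by ring_nf
        _ ≤ ‖c * u ^ r‖ + ‖e - c * u ^ r‖ := norm_add_le _ _
        _ ≤ B * ‖u‖ ^ r + C₁ * ‖u‖ ^ r := by
          refine add_le_add ?_ (he.trans ?_)
          · rw [norm_mul, norm_pow]
            exact mul_le_mul_of_nonneg_right hc (by positivity)
          · exact mul_le_mul_of_nonneg_left (pow_le_pow_of_le_one hu0 hu (Nat.le_succ r)) hC₁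
        _ = (B + C₁) * ‖u‖ ^ r := by ring
    have h2 : e ^ (k + 1) - c ^ (k + 1) * u ^ (r * (k + 1)) =
        e * (e ^ k - c ^ k * u ^ (r * k)) + (e - c * u ^ r) * (c ^ k * u ^ (r * k)) := by
      rw [show r * (k + 1) = r * k + r by ring, pow_succ, pow_succ, pow_add]
      ring
    have hck : ‖c‖ ^ k ≤ B ^ k := pow_le_pow_left₀ (norm_nonneg c) hc k
    rw [h2]
    calc ‖e * (e ^ k - c ^ k * u ^ (r * k)) + (e - c * u ^ r) * (c ^ k * u ^ (r * k))‖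
        ≤ ‖e‖ * ‖e ^ k - c ^ k * u ^ (r * k)‖ + ‖e - c * u ^ r‖ * (‖c‖ ^ k * ‖u‖ ^ (r * k)) := by
          refine (norm_add_le _ _).trans (le_of_eq ?_)
          rw [norm_mul, norm_mul, norm_mul, norm_pow, norm_pow]
      _ ≤ (B + C₁) * ‖u‖ ^ r * (C * ‖u‖ ^ (r * k + 1)) +
          C₁ * ‖u‖ ^ (r + 1) * (B ^ k * ‖u‖ ^ (r * k)) := by
          refine add_le_add (mul_le_mul he' h1 (norm_nonneg _) (by positivity)) ?_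
          exact mul_le_mul he (mul_le_mul_of_nonneg_right hck (by positivity)) (by positivity)
            (by positivity)
      _ = ((B + C₁) * C + C₁ * B ^ k) * ‖u‖ ^ (r * (k + 1) + 1) := by
          rw [show r * (k + 1) + 1 = r * k + r + 1 by ring]
          ring
      _ ≤ ((B + C₁) * C + C₁ * B ^ k + 1) * ‖u‖ ^ (r * (k + 1) + 1) :=
          mul_le_mul_of_nonneg_right (by linarith) (by positivity)

theorem cm_quot {κ Q : ℝ} (hκ : 0 ≤ κ) {u w q η : ℂ} (hu : ‖u‖ ≤ 1 / (2 * κ + 1))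
    (hη : ‖η‖ ≤ κ) (hq : ‖q‖ = Q) (h : w * (1 + η * u) = q * u) :
    ‖w‖ ≤ 2 * Q * ‖u‖ ∧ ‖w - q * u‖ ≤ 2 * κ * Q * ‖u‖ ^ 2 := by
  have hu0 : 0 ≤ ‖u‖ := norm_nonneg u
  have hw0 : 0 ≤ ‖w‖ := norm_nonneg w
  have h1 : ‖η * u‖ ≤ 1 / 2 := by
    rw [norm_mul]
    have h2 : ‖η‖ * ‖u‖ ≤ κ * (1 / (2 * κ + 1)) := mul_le_mul hη hu hu0 hκ
    have h3 : κ * (1 / (2 * κ + 1)) ≤ 1 / 2 := by
      rw [mul_one_div, div_le_div_iff₀ (by positivity) (by norm_num)]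
      linarith
    exact h2.trans h3
  have h2 : 1 / 2 ≤ ‖1 + η * u‖ := by
    have h3 : ‖(1 : ℂ)‖ - ‖-(η * u)‖ ≤ ‖1 - -(η * u)‖ := norm_sub_norm_le _ _
    rw [norm_neg, sub_neg_eq_add, norm_one] at h3
    linarith
  have h3 : ‖w‖ ≤ 2 * Q * ‖u‖ := by
    have h4 : ‖w‖ * ‖1 + η * u‖ = Q * ‖u‖ := by
      rw [← norm_mul, h, norm_mul, hq]
    have h5 : ‖w‖ * (1 / 2) ≤ ‖w‖ * ‖1 + η * u‖ := mul_le_mul_of_nonneg_left h2 hw0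
    linarith
  refine ⟨h3, ?_⟩
  have h4 : w - q * u = -(η * u * w) := by
    rw [← h]
    ring
  rw [h4, norm_neg, norm_mul, norm_mul]
  calc ‖η‖ * ‖u‖ * ‖w‖ ≤ κ * ‖u‖ * (2 * Q * ‖u‖) :=
        mul_le_mul (mul_le_mul_of_nonneg_right hη hu0) h3 hw0 (by positivity)
    _ = 2 * κ * Q * ‖u‖ ^ 2 := by ring

private theorem cm_num_aux {t A M M' K₂ C₀ K₅ : ℝ} (ht : 0 < t) (ht1 : t ≤ 1) (hA : 0 ≤ A)
    (hM' : 0 ≤ M') (hK₂ : 0 ≤ K₂) (hC₀ : 0 ≤ C₀) (hK₅ : 0 ≤ K₅) {n m a b p : ℕ}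
    (hm : n < m) (ha : n ≤ a) (hb : n < b) (hp : n < p)
    (h : M * t ^ n ≤ M' * t ^ m + (A * K₂ * t ^ a + C₀ * t ^ b + K₅ * t ^ p)) :
    M ≤ (M' + K₂ + C₀ + K₅) * (t + A) := by
  have h0 : 0 < t ^ n := pow_pos ht n
  have hpow : ∀ x : ℕ, n < x → t ^ x ≤ t * t ^ n := by
    intro x hx
    rw [mul_comm, ← pow_succ]
    exact pow_le_pow_of_le_one ht.le ht1 hx
  have h1 := mul_le_mul_of_nonneg_left (hpow m hm) hM'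
  have h2 := mul_le_mul_of_nonneg_left (pow_le_pow_of_le_one ht.le ht1 ha) (mul_nonneg hA hK₂)
  have h3 := mul_le_mul_of_nonneg_left (hpow b hb) hC₀
  have h4 := mul_le_mul_of_nonneg_left (hpow p hp) hK₅
  have h5 : M * t ^ n ≤ (M' * t + A * K₂ + C₀ * t + K₅ * t) * t ^ n := by
    calc _ ≤ _ := h
      _ ≤ M' * (t * t ^ n) + (A * K₂ * t ^ n + C₀ * (t * t ^ n) + K₅ * (t * t ^ n)) := by
        linarith
      _ = _ := by ring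
  have h6 := le_of_mul_le_mul_right h5 h0
  have h7 : 0 ≤ (M' + C₀ + K₅) * A + K₂ * t := by positivity
  calc M ≤ _ := h6
    _ ≤ (M' * t + A * K₂ + C₀ * t + K₅ * t) + ((M' + C₀ + K₅) * A + K₂ * t) := by linarith
    _ = _ := by ring

theorem cm_num {c c' α : ℂ} (hc : c ≠ 0) (hc' : c' ≠ 0) (hα : α ≠ 0) {κ Q C₁ : ℝ} (hκ : 0 ≤ κ)
    (hQ : 0 < Q) (hC₁ : 0 ≤ C₁) {r r' k l : ℕ} (hr : 0 < r) (hr' : 0 < r') (hk : 0 < k)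
    (hl : 0 < l) : ∃ C δ : ℝ, 0 < C ∧ 0 < δ ∧ ∀ (u w q η e₀ e₁ : ℂ) (A : ℝ), u ≠ 0 → 0 ≤ A →
      ‖u‖ ≤ δ → ‖q‖ = Q → ‖η‖ ≤ κ → w * (1 + η * u) = q * u →
      ‖e₀ - c * u ^ r‖ ≤ C₁ * ‖u‖ ^ (r + 1) → ‖e₁ - c' * w ^ r'‖ ≤ C₁ * ‖w‖ ^ (r' + 1) →
      ‖e₀ ^ k - α * e₁ ^ l‖ ≤ A * ‖e₁ ^ l‖ →
      (k * r ≠ l * r' → 1 ≤ C * (‖u‖ + A)) ∧
      (k * r = l * r' → ‖c ^ k - α * c' ^ l * q ^ (k * r)‖ ≤ C * (‖u‖ + A)) := by
  obtain ⟨C0, hC0, h0⟩ := cm_pow (B := ‖c‖) (C₁ := C₁) (norm_nonneg c) hC₁ r k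
  obtain ⟨C1, hC1, h1⟩ := cm_pow (B := ‖c'‖) (C₁ := C₁) (norm_nonneg c') hC₁ r' l
  obtain ⟨C2, hC2, h2⟩ := cm_pow (B := Q) (C₁ := 2 * κ * Q) hQ.le (by positivity) 1 (r' * l)
  obtain ⟨m, hm⟩ : ∃ m, m = r' * l := ⟨_, rfl⟩
  obtain ⟨n, hn⟩ : ∃ n, n = r * k := ⟨_, rfl⟩
  rw [← hn] at h0
  rw [← hm, one_mul] at h2
  rw [← hm] at h1
  obtain ⟨K1, hK1⟩ : ∃ K1, K1 = C1 * (2 * Q) ^ (m + 1) + ‖c'‖ ^ l * C2 := ⟨_, rfl⟩
  obtain ⟨K2, hK2⟩ : ∃ K2, K2 = ‖c'‖ ^ l * Q ^ m + K1 := ⟨_, rfl⟩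
  obtain ⟨M1, hM1⟩ : ∃ M1, M1 = ‖α‖ * ‖c'‖ ^ l * Q ^ m := ⟨_, rfl⟩
  obtain ⟨M2, hM2⟩ : ∃ M2, M2 = ‖c‖ ^ k := ⟨_, rfl⟩
  have hK10 : 0 ≤ K1 := by
    rw [hK1]
    positivity
  have hK20 : 0 ≤ K2 := by
    rw [hK2]
    positivity
  have hα0 : 0 < ‖α‖ := norm_pos_iff.2 hα
  have hc0 : 0 < ‖c‖ := norm_pos_iff.2 hc
  have hc'0 : 0 < ‖c'‖ := norm_pos_iff.2 hc'
  have hM10 : 0 < M1 := by
    rw [hM1]
    positivity
  have hM20 : 0 < M2 := by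
    rw [hM2]
    positivity
  obtain ⟨K, hK⟩ : ∃ K, K = K2 + C0 + ‖α‖ * K1 := ⟨_, rfl⟩
  have hK0 : 0 ≤ K := by
    rw [hK]
    positivity
  refine ⟨K + 1 + (M1 + K) / M2 + (M2 + K) / M1, min 1 (min (1 / (2 * κ + 1)) (1 / (2 * Q))),
    by positivity, by positivity, ?_⟩
  intro u w q η e₀ e₁ A hu0 hA hu hq hη hw he₀ he₁ hA'
  have hu1 : ‖u‖ ≤ 1 := hu.trans (min_le_left _ _)
  have hu2 : ‖u‖ ≤ 1 / (2 * κ + 1) := hu.trans ((min_le_right _ _).trans (min_le_left _ _))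
  have hu3 : ‖u‖ ≤ 1 / (2 * Q) := hu.trans ((min_le_right _ _).trans (min_le_right _ _))
  have hun : 0 < ‖u‖ := norm_pos_iff.2 hu0
  obtain ⟨hw1, hw2⟩ := cm_quot hκ hu2 hη hq hw
  have hw3 : ‖w‖ ≤ 1 := by
    refine hw1.trans ?_
    have h3 := mul_le_mul_of_nonneg_left hu3 (show 0 ≤ 2 * Q by positivity)
    rwa [mul_one_div_cancel (by positivity)] at h3
  have g0 := h0 c u e₀ le_rfl hu1 he₀
  have g1 := h1 c' w e₁ le_rfl hw3 he₁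
  have g2 := h2 q u w hq.le hu1 (by
    rw [pow_one]
    exact hw2)
  have g3 : ‖e₁ ^ l - c' ^ l * (q ^ m * u ^ m)‖ ≤ K1 * ‖u‖ ^ (m + 1) := by
    have e1 : e₁ ^ l - c' ^ l * (q ^ m * u ^ m) =
        (e₁ ^ l - c' ^ l * w ^ m) + c' ^ l * (w ^ m - q ^ m * u ^ m) := by ring
    rw [e1]
    refine (norm_add_le _ _).trans ?_
    have e2 : C1 * ‖w‖ ^ (m + 1) ≤ C1 * (2 * Q) ^ (m + 1) * ‖u‖ ^ (m + 1) := by
      rw [mul_assoc, ← mul_pow]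
      exact mul_le_mul_of_nonneg_left (pow_le_pow_left₀ (norm_nonneg w) hw1 _) hC1.le
    have e3 : ‖c' ^ l * (w ^ m - q ^ m * u ^ m)‖ ≤ ‖c'‖ ^ l * C2 * ‖u‖ ^ (m + 1) := by
      rw [norm_mul, norm_pow, mul_assoc]
      exact mul_le_mul_of_nonneg_left g2 (by positivity)
    calc _ ≤ C1 * (2 * Q) ^ (m + 1) * ‖u‖ ^ (m + 1) + ‖c'‖ ^ l * C2 * ‖u‖ ^ (m + 1) :=
          add_le_add (g1.trans e2) e3
      _ = K1 * ‖u‖ ^ (m + 1) := by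
          rw [hK1]
          ring
  have g4 : ‖e₁ ^ l‖ ≤ K2 * ‖u‖ ^ m := by
    calc ‖e₁ ^ l‖ = ‖c' ^ l * (q ^ m * u ^ m) + (e₁ ^ l - c' ^ l * (q ^ m * u ^ m))‖ := by ring_nf
      _ ≤ ‖c' ^ l * (q ^ m * u ^ m)‖ + ‖e₁ ^ l - c' ^ l * (q ^ m * u ^ m)‖ := norm_add_le _ _
      _ ≤ ‖c'‖ ^ l * Q ^ m * ‖u‖ ^ m + K1 * ‖u‖ ^ m := by
        refine add_le_add (le_of_eq ?_) (g3.trans ?_)
        · rw [norm_mul, norm_mul, norm_pow, norm_pow, norm_pow, hq]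
          ring
        · exact mul_le_mul_of_nonneg_left (pow_le_pow_of_le_one hun.le hu1 (Nat.le_succ m)) hK10
      _ = K2 * ‖u‖ ^ m := by
        rw [hK2]
        ring
  have g5 : ‖c ^ k * u ^ n - α * c' ^ l * q ^ m * u ^ m‖ ≤
      A * K2 * ‖u‖ ^ m + C0 * ‖u‖ ^ (n + 1) + ‖α‖ * K1 * ‖u‖ ^ (m + 1) := by
    have e1 : c ^ k * u ^ n - α * c' ^ l * q ^ m * u ^ m =
        (e₀ ^ k - α * e₁ ^ l) - (e₀ ^ k - c ^ k * u ^ n) +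
          α * (e₁ ^ l - c' ^ l * (q ^ m * u ^ m)) := by ring
    rw [e1]
    refine (norm_add_le _ _).trans (add_le_add ((norm_sub_le _ _).trans (add_le_add ?_ g0)) ?_)
    · refine hA'.trans ?_
      rw [mul_assoc]
      exact mul_le_mul_of_nonneg_left g4 hA
    · rw [norm_mul, mul_assoc]
      exact mul_le_mul_of_nonneg_left g3 hα0.le
  have n1 : ‖c ^ k * u ^ n‖ = M2 * ‖u‖ ^ n := by
    rw [norm_mul, norm_pow, norm_pow, hM2]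
  have n2 : ‖α * c' ^ l * q ^ m * u ^ m‖ = M1 * ‖u‖ ^ m := by
    rw [norm_mul, norm_mul, norm_mul, norm_pow, norm_pow, norm_pow, hq, hM1]
  have htA : 0 ≤ ‖u‖ + A := by positivity
  refine ⟨fun hne => ?_, fun heq => ?_⟩
  · have hne' : n ≠ m := by
      rw [hn, hm, Nat.mul_comm r, Nat.mul_comm r']
      exact hne
    rcases Nat.lt_or_gt_of_ne hne' with hlt | hgt
    · have e1 : M2 * ‖u‖ ^ n ≤ M1 * ‖u‖ ^ m +
          (A * K2 * ‖u‖ ^ m + C0 * ‖u‖ ^ (n + 1) + ‖α‖ * K1 * ‖u‖ ^ (m + 1)) := by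
        rw [← n1, ← n2]
        have e2 := norm_sub_norm_le (c ^ k * u ^ n) (α * c' ^ l * q ^ m * u ^ m)
        linarith
      have e3 := cm_num_aux hun hu1 hA hM10.le hK20 hC0.le (mul_nonneg hα0.le hK10) hlt hlt.le
        (Nat.lt_succ_self n) (by omega) e1
      have e4 : 1 ≤ (M1 + K) / M2 * (‖u‖ + A) := by
        rw [div_mul_eq_mul_div, le_div_iff₀ hM20, one_mul]
        refine e3.trans (le_of_eq ?_)
        rw [hK]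
        ring
      refine e4.trans (mul_le_mul_of_nonneg_right ?_ htA)
      have e5 : 0 ≤ (M2 + K) / M1 := by positivity
      linarith
    · have e1 : M1 * ‖u‖ ^ m ≤ M2 * ‖u‖ ^ n +
          (A * K2 * ‖u‖ ^ m + C0 * ‖u‖ ^ (n + 1) + ‖α‖ * K1 * ‖u‖ ^ (m + 1)) := by
        rw [← n1, ← n2]
        have e2 := norm_sub_norm_le (α * c' ^ l * q ^ m * u ^ m) (c ^ k * u ^ n)
        rw [norm_sub_rev] at e2
        linarith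
      have e3 := cm_num_aux hun hu1 hA hM20.le hK20 hC0.le (mul_nonneg hα0.le hK10) hgt le_rfl
        (by omega) (Nat.lt_succ_self m) e1
      have e4 : 1 ≤ (M2 + K) / M1 * (‖u‖ + A) := by
        rw [div_mul_eq_mul_div, le_div_iff₀ hM10, one_mul]
        refine e3.trans (le_of_eq ?_)
        rw [hK]
        ring
      refine e4.trans (mul_le_mul_of_nonneg_right ?_ htA)
      have e5 : 0 ≤ (M1 + K) / M2 := by positivity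
      linarith
  · have hnm : n = m := by
      rw [hn, hm, Nat.mul_comm r, Nat.mul_comm r']
      exact heq
    have hkr : k * r = m := by
      rw [← hnm, hn, Nat.mul_comm]
    rw [hkr]
    rw [hnm] at g5
    have e1 : c ^ k * u ^ m - α * c' ^ l * q ^ m * u ^ m = (c ^ k - α * c' ^ l * q ^ m) * u ^ m := by
      ring
    rw [e1, norm_mul, norm_pow] at g5
    have e2 : ‖c ^ k - α * c' ^ l * q ^ m‖ * ‖u‖ ^ m ≤
        (A * K2 + C0 * ‖u‖ + ‖α‖ * K1 * ‖u‖) * ‖u‖ ^ m := by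
      refine g5.trans (le_of_eq ?_)
      ring
    have e3 := le_of_mul_le_mul_right e2 (pow_pos hun m)
    have e4 : A * K2 + C0 * ‖u‖ + ‖α‖ * K1 * ‖u‖ ≤ K * (‖u‖ + A) := by
      have e5 : 0 ≤ K2 * ‖u‖ + C0 * A + ‖α‖ * K1 * A := by positivity
      rw [hK]
      calc _ ≤ (A * K2 + C0 * ‖u‖ + ‖α‖ * K1 * ‖u‖) + (K2 * ‖u‖ + C0 * A + ‖α‖ * K1 * A) := by
            linarith
        _ = _ := by ring
    refine (e3.trans e4).trans (mul_le_mul_of_nonneg_right ?_ htA)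
    have e6 : 0 ≤ (M1 + K) / M2 := by positivity
    have e7 : 0 ≤ (M2 + K) / M1 := by positivity
    linarith

end Pool.Agent.LGO
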