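import Mathlib
import Pool.Agent.LGO.Gal.Basic
import Pool.Agent.Hhelper14.ZP.Integral
import Pool.Agent.Hhelper14.ZPL.KClosed

/-!
# LGO/C: the modular equation for `j(τ) - β` and `j(g τ) - γ`

Proof of `cm_relJ`.  Let `N = det g > 0` (`N : ℕ`).  `modular_eq` (`Hhelper14/ZP/Integral.lean`) for the matrix `g`
(`mkDD g _ : DD N`): a monic `Φ : Polynomial (Polynomial OO)` with `Φ(j(τ))(j(g τ)) = 0` for every `τ`
(`OO` = the algebraic integers in `ℂ`), and `Gal.eq_act_of_maps`: `Maps g τ τ'` implies `τ' = act hN (mkDD g _) τ`, so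
`jA hN (mkDD g _) τ = jInv τ'`.  `Ψ` is the image of `Φ` under the ring homomorphism with values
`X₀ + β`, `X₁ + γ` at the two variables.  If `Ψ = 0` then all specialisations of the monic polynomial `Φ` vanish.
-/

namespace Pool.Agent.LGO

open MvPolynomial UpperHalfPlane Pool.Agent.Hhelper14.ZPL Pool.Agent.Hhelper14.ZP

private theorem RelJ_mem (c : OO) : OO.subtype c ∈ Qb := by
  have h1 : IsIntegral ℤ (c : ℂ) := c.2
  have h2 : IsIntegral ℚ (c : ℂ) := h1.tower_top
  exact mem_algebraicClosure_iff.mpr h2.isAlgebraic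

/-- the algebraic integers in the field of algebraic numbers -/
private noncomputable def RelJ_phi : OO →+* Qb := OO.subtype.codRestrict Qb RelJ_mem

/-- substitution of `X₀ + b`, `X₁ + c` -/
private noncomputable def RelJ_sub (b c : Qb) :
    Polynomial (Polynomial OO) →+* MvPolynomial (Fin 2) Qb :=
  Polynomial.eval₂RingHom (Polynomial.eval₂RingHom (C.comp RelJ_phi) (X 0 + C b)) (X 1 + C c)

private theorem RelJ_eval (b c : Qb) (Φ : Polynomial (Polynomial OO)) (x y : ℂ) :
    (aeval ![x - b, y - c] (RelJ_sub b c Φ) : ℂ) =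
      (Φ.map (Polynomial.eval₂RingHom OO.subtype x)).eval y := by
  have h : ((aeval ![x - (b : ℂ), y - (c : ℂ)] : MvPolynomial (Fin 2) Qb →ₐ[Qb] ℂ) :
      MvPolynomial (Fin 2) Qb →+* ℂ).comp (RelJ_sub b c) =
      (Polynomial.evalRingHom y).comp
        (Polynomial.mapRingHom (Polynomial.eval₂RingHom OO.subtype x)) := by
    apply Polynomial.ringHom_ext'
    · apply Polynomial.ringHom_ext'
      · ext r
        simp only [RelJ_sub, RelJ_phi, RingHom.comp_apply, Polynomial.coe_eval₂RingHom,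
          Polynomial.eval₂_C, Polynomial.coe_mapRingHom, Polynomial.map_C,
          Polynomial.coe_evalRingHom, Polynomial.eval_C, RingHom.coe_coe, aeval_C]
        rfl
      · simp only [RelJ_sub, RingHom.comp_apply, Polynomial.coe_eval₂RingHom,
          Polynomial.eval₂_C, Polynomial.coe_mapRingHom, Polynomial.map_C,
          Polynomial.coe_evalRingHom, Polynomial.eval_C, RingHom.coe_coe, Polynomial.eval₂_X,
          map_add, aeval_X, aeval_C]
        simp
    · simp only [RelJ_sub, RingHom.comp_apply, Polynomial.coe_eval₂RingHom,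
        Polynomial.coe_mapRingHom, Polynomial.map_X,
        Polynomial.coe_evalRingHom, Polynomial.eval_X, RingHom.coe_coe, Polynomial.eval₂_X,
        map_add, aeval_X, aeval_C]
      simp
  exact congrArg (fun f : Polynomial (Polynomial OO) →+* ℂ => f Φ) h

theorem cm_relJ {g : Matrix (Fin 2) (Fin 2) ℤ} (hg : 0 < g.det) {β γ : ℂ}
    (hβ : IsAlgebraic ℚ β) (hγ : IsAlgebraic ℚ γ) :
    ∃ Ψ : MvPolynomial (Fin 2) Qb, Ψ ≠ 0 ∧
      ∀ τ τ' : ℍ, Maps g τ τ' → (aeval ![jInv τ - β, jInv τ' - γ] Ψ : ℂ) = 0 := by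
  obtain ⟨N, hN⟩ := Int.eq_ofNat_of_zero_le hg.le
  have hN0 : 0 < N := by
    have h1 : (0 : ℤ) < N := by rw [← hN]; exact hg
    exact_mod_cast h1
  obtain ⟨Φ, hΦ, hroot⟩ := modular_eq hN0 (mkDD g hN)
  set b : Qb := ⟨β, mem_algebraicClosure_iff.mpr hβ⟩ with hb
  set c : Qb := ⟨γ, mem_algebraicClosure_iff.mpr hγ⟩ with hc
  refine ⟨RelJ_sub b c Φ, ?_, ?_⟩
  · intro h0
    have h1 : Φ.map (Polynomial.eval₂RingHom OO.subtype (0 : ℂ)) = 0 := by
      apply Polynomial.funext
      intro y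
      rw [← RelJ_eval b c Φ 0 y, h0, map_zero, Polynomial.eval_zero]
    exact (hΦ.map (Polynomial.eval₂RingHom OO.subtype (0 : ℂ))).ne_zero h1
  · intro τ τ' hm
    have h1 := RelJ_eval b c Φ (jInv τ) (jInv τ')
    have h2 := hroot τ
    have h3 : jA hN0 (mkDD g hN) τ = jInv τ' := by
      rw [Gal.eq_act_of_maps hN0 hN hm]
      rfl
    rw [h3] at h2
    rw [h2] at h1
    exact h1

end Pool.Agent.LGO
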