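import Mathlib
import Pool.Agent.LGO.C.Defs
import Pool.Agent.LGO.C.Num
import Pool.Agent.LGO.C.Geom
import Pool.Agent.LGO.C.RelJ
import Pool.Agent.LGO.C.LimA

/-!
# LGO/C: the quotient of the leading coefficients of `j` at two CM points is algebraic

Proof of `cm_alg`.  Let `τ_n = z₀ + ε_n` with `ε_n = 1 / (n + 1)`, and `τ'_n = g τ_n`
(`act`: `Gal.maps_act`): `Maps g τ_n τ'_n`.  With
`u_n = τ_n - z₀ = ε_n`, `w_n = τ'_n - z₁`, `q = det g / D₀²` (`cm_geom`): `w_n (1 + η u_n) = q u_n`, so `w_n / u_n → q` and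
`w_n → 0`.  By the expansions `X_n = j(τ_n) - j(z₀)` satisfies `X_n / u_n^r → c`, and
`Y_n = j(τ'_n) - j(z₁)` satisfies `Y_n / w_n^r' → c'`.  So `X_n`, `Y_n → 0`, both `≠ 0` for `n ≥ n₀`
(shift the sequences), and
`X_n^k / Y_n^l = (X_n / u_n^r)^k / (Y_n / w_n^r')^l / (w_n / u_n)^(k r) → c^k / (c'^l q^(k r))`.
`cm_relJ` for `g`, `β = j(z₀)`, `γ = j(z₁)` gives `Ψ ≠ 0` with `Ψ(X_n, Y_n) = 0`; `cm_limit_alg`: the limit
`L = c^k / (c'^l q^(k r))` is algebraic.  `q` is algebraic (`z₀` is), so `c^k / c'^l = L q^(k r)` is algebraic.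
-/

namespace Pool.Agent.LGO

open UpperHalfPlane Pool.Agent.Hhelper14.ZP Filter Topology

/-- the expansion of `j` along a sequence -/
private lemma cm_alg_lim {z : ℍ} {r : ℕ} {c : ℂ} {C δ : ℝ} (h : JExp z r c C δ) {t : ℕ → ℍ}
    (ht : Tendsto (fun n => ((t n : ℍ) : ℂ) - z) atTop (𝓝 0)) (ht0 : ∀ n, ((t n : ℍ) : ℂ) - z ≠ 0) :
    Tendsto (fun n => (jInv (t n) - jInv z) / (((t n : ℍ) : ℂ) - z) ^ r) atTop (𝓝 c) := by
  rw [tendsto_iff_norm_sub_tendsto_zero]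
  have hn : Tendsto (fun n => ‖((t n : ℍ) : ℂ) - z‖) atTop (𝓝 0) := by
    simpa using ht.norm
  have hb : Tendsto (fun n => C * ‖((t n : ℍ) : ℂ) - z‖) atTop (𝓝 0) := by
    simpa using hn.const_mul C
  refine squeeze_zero' (Eventually.of_forall fun n => norm_nonneg _) ?_ hb
  filter_upwards [hn.eventually (Iic_mem_nhds h.hδ)] with n hle
  have h1 := h.bd (t n) hle
  have h2 : ((((t n : ℍ) : ℂ) - z) ^ r) ≠ 0 := pow_ne_zero _ (ht0 n)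
  have h3 : (jInv (t n) - jInv z) / (((t n : ℍ) : ℂ) - z) ^ r - c =
      (jInv (t n) - jInv z - c * (((t n : ℍ) : ℂ) - z) ^ r) / (((t n : ℍ) : ℂ) - z) ^ r := by
    field_simp
  rw [h3, norm_div, norm_pow, div_le_iff₀ (pow_pos (norm_pos_iff.mpr (ht0 n)) r)]
  calc _ ≤ C * ‖((t n : ℍ) : ℂ) - z‖ ^ (r + 1) := h1
    _ = C * ‖((t n : ℍ) : ℂ) - z‖ * ‖((t n : ℍ) : ℂ) - z‖ ^ r := by ring

/-- from the limit of the quotient -/
private lemma cm_alg_zero {X u : ℕ → ℂ} {r : ℕ} (hr : 0 < r) {c : ℂ} (hc : c ≠ 0)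
    (hu : Tendsto u atTop (𝓝 0)) (hu0 : ∀ n, u n ≠ 0)
    (h : Tendsto (fun n => X n / u n ^ r) atTop (𝓝 c)) :
    Tendsto X atTop (𝓝 0) ∧ ∀ᶠ n in atTop, X n ≠ 0 := by
  constructor
  · have h1 : Tendsto (fun n => X n / u n ^ r * u n ^ r) atTop (𝓝 (c * 0 ^ r)) := h.mul (hu.pow r)
    rw [zero_pow hr.ne', mul_zero] at h1
    refine h1.congr fun n => ?_
    rw [div_mul_cancel₀ _ (pow_ne_zero _ (hu0 n))]
  · filter_upwards [h.eventually_ne hc] with n hn hX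
    apply hn
    rw [hX, zero_div]

theorem cm_alg {z₀ z₁ : ℍ} (hz₀ : IsAlgebraic ℚ (z₀ : ℂ)) (hβ : IsAlgebraic ℚ (jInv z₀))
    (hγ : IsAlgebraic ℚ (jInv z₁)) {g : Matrix (Fin 2) (Fin 2) ℤ} (hg : 0 < g.det)
    (hmaps : Maps g (z₀ : ℂ) (z₁ : ℂ)) {r r' : ℕ} {c c' : ℂ} {B B' δ₀ δ₁ : ℝ}
    (h₀ : JExp z₀ r c B δ₀) (h₁ : JExp z₁ r' c' B' δ₁) {k l : ℕ} (hk : 0 < k) (hl : 0 < l)
    (hkl : k * r = l * r') : IsAlgebraic ℚ (c ^ k / c' ^ l) := by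
  obtain ⟨hD, -, -, -, hgeo⟩ := cm_geom hg hmaps
  obtain ⟨N, hN⟩ : ∃ N : ℕ, g.det = N := ⟨g.det.toNat, by rw [Int.toNat_of_nonneg hg.le]⟩
  have hNpos : 0 < N := by
    have := hg
    rw [hN] at this
    exact_mod_cast this
  set D₀ : ℂ := (g 1 0 : ℂ) * z₀ + (g 1 1 : ℂ) with hD₀
  set q : ℂ := (g.det : ℂ) / D₀ ^ 2 with hq
  set η : ℂ := (g 1 0 : ℂ) / D₀ with hη
  have hdet0 : (g.det : ℂ) ≠ 0 := by exact_mod_cast hg.ne'
  have hq0 : q ≠ 0 := div_ne_zero hdet0 (pow_ne_zero _ hD)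
  -- the sequences
  let t : ℕ → ℍ := fun n => ((1 / ((n : ℝ) + 1) : ℝ) : ℝ) +ᵥ z₀
  let t' : ℕ → ℍ := fun n => act hNpos (mkDD g hN) (t n)
  have hm : ∀ n, Maps g (t n : ℂ) (t' n : ℂ) := fun n =>
    Gal.maps_act hNpos (mkDD g hN) (t n)
  have hu : ∀ n, ((t n : ℍ) : ℂ) - z₀ = ((1 / ((n : ℝ) + 1) : ℝ) : ℂ) := by
    intro n
    simp only [t, UpperHalfPlane.coe_vadd]
    ring
  have hu0 : ∀ n, ((t n : ℍ) : ℂ) - z₀ ≠ 0 := by
    intro n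
    rw [hu n, Complex.ofReal_ne_zero]
    positivity
  have hulim : Tendsto (fun n => ((t n : ℍ) : ℂ) - z₀) atTop (𝓝 0) := by
    have h1 : Tendsto (fun n : ℕ => ((1 / ((n : ℝ) + 1) : ℝ) : ℂ)) atTop (𝓝 ((0 : ℝ) : ℂ)) :=
      (Complex.continuous_ofReal.tendsto 0).comp tendsto_one_div_add_atTop_nhds_zero_nat
    rw [Complex.ofReal_zero] at h1
    exact h1.congr fun n => (hu n).symm
  have hw : ∀ n, (((t' n : ℍ) : ℂ) - z₁) * (1 + η * (((t n : ℍ) : ℂ) - z₀)) =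
      q * (((t n : ℍ) : ℂ) - z₀) := fun n => hgeo (t n) (t' n) (hm n)
  have hw0' : ∀ n, (((t' n : ℍ) : ℂ) - z₁) * (1 + η * (((t n : ℍ) : ℂ) - z₀)) ≠ 0 := by
    intro n
    rw [hw n]
    exact mul_ne_zero hq0 (hu0 n)
  have hw0 : ∀ n, ((t' n : ℍ) : ℂ) - z₁ ≠ 0 := fun n => left_ne_zero_of_mul (hw0' n)
  have hden0 : ∀ n, 1 + η * (((t n : ℍ) : ℂ) - z₀) ≠ 0 := fun n => right_ne_zero_of_mul (hw0' n)
  have hden : Tendsto (fun n => 1 + η * (((t n : ℍ) : ℂ) - z₀)) atTop (𝓝 1) := by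
    have := (hulim.const_mul η).const_add (1 : ℂ)
    simpa using this
  have hwu : Tendsto (fun n => (((t' n : ℍ) : ℂ) - z₁) / (((t n : ℍ) : ℂ) - z₀)) atTop (𝓝 q) := by
    have h1 : Tendsto (fun n => q / (1 + η * (((t n : ℍ) : ℂ) - z₀))) atTop (𝓝 (q / 1)) :=
      tendsto_const_nhds.div hden one_ne_zero
    rw [div_one] at h1
    refine h1.congr fun n => ?_
    rw [div_eq_div_iff (hden0 n) (hu0 n), hw n]
  have hwlim : Tendsto (fun n => ((t' n : ℍ) : ℂ) - z₁) atTop (𝓝 0) := by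
    have h1 := hwu.mul hulim
    rw [mul_zero] at h1
    refine h1.congr fun n => ?_
    rw [div_mul_cancel₀ _ (hu0 n)]
  have hXl := cm_alg_lim h₀ hulim hu0
  have hYl := cm_alg_lim h₁ hwlim hw0
  obtain ⟨hX, hXe⟩ := cm_alg_zero h₀.hr h₀.hc hulim hu0 hXl
  obtain ⟨hY, hYe⟩ := cm_alg_zero h₁.hr h₁.hc hwlim hw0 hYl
  obtain ⟨n₀, hn₀⟩ := eventually_atTop.mp (hXe.and hYe)
  have hlim : Tendsto (fun n => (jInv (t n) - jInv z₀) ^ k / (jInv (t' n) - jInv z₁) ^ l) atTop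
      (𝓝 (c ^ k / c' ^ l / q ^ (k * r))) := by
    have h1 := ((hXl.pow k).div (hYl.pow l) (pow_ne_zero _ h₁.hc)).div (hwu.pow (k * r))
      (pow_ne_zero _ hq0)
    refine h1.congr fun n => ?_
    have ha := hu0 n
    have hb := hw0 n
    simp only [Pi.div_apply]
    generalize ((t n : ℍ) : ℂ) - z₀ = u at ha ⊢
    generalize ((t' n : ℍ) : ℂ) - z₁ = w at hb ⊢
    generalize jInv (t n) - jInv z₀ = x
    generalize jInv (t' n) - jInv z₁ = y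
    rw [div_pow, div_pow, div_pow, ← pow_mul, ← pow_mul, mul_comm r k, mul_comm r' l, ← hkl]
    have ha' : u ^ (k * r) ≠ 0 := pow_ne_zero _ ha
    have hb' : w ^ (k * r) ≠ 0 := pow_ne_zero _ hb
    generalize u ^ (k * r) = U at ha' ⊢
    generalize w ^ (k * r) = W at hb' ⊢
    by_cases hy : y ^ l = 0
    · simp [hy]
    · field_simp
  obtain ⟨Ψ, hΨ, hrel⟩ := cm_relJ hg hβ hγ
  have hL : IsAlgebraic ℚ (c ^ k / c' ^ l / q ^ (k * r)) := by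
    refine cm_limit_alg hΨ (X := fun n => jInv (t (n + n₀)) - jInv z₀)
      (Y := fun n => jInv (t' (n + n₀)) - jInv z₁)
      (hX.comp (tendsto_add_atTop_nat n₀)) (hY.comp (tendsto_add_atTop_nat n₀))
      (fun n => (hn₀ (n + n₀) (Nat.le_add_left _ _)).1)
      (fun n => (hn₀ (n + n₀) (Nat.le_add_left _ _)).2)
      (fun n => hrel _ _ (hm (n + n₀))) hk hl (hlim.comp (tendsto_add_atTop_nat n₀))
  have hDalg : IsAlgebraic ℚ D₀ := by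
    rw [hD₀]
    exact ((isAlgebraic_intCast (R := ℚ) (g 1 0)).mul hz₀).add (isAlgebraic_intCast (g 1 1))
  have hqalg : IsAlgebraic ℚ q := by
    rw [hq, div_eq_mul_inv]
    exact (isAlgebraic_intCast (R := ℚ) g.det).mul (hDalg.pow 2).inv
  have hfin : c ^ k / c' ^ l = c ^ k / c' ^ l / q ^ (k * r) * q ^ (k * r) := by
    rw [div_mul_cancel₀ _ (pow_ne_zero _ hq0)]
  rw [hfin]
  exact hL.mul (hqalg.pow _)

end Pool.Agent.LGO
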