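import Mathlib
import Pool.Agent.LGO.Gal.Basic
import Pool.Agent.LGO.Q.Ent
import Pool.Agent.LGO.C.Geom

/-!
# LGO/C: finitely many matrices with a given ratio

Proof of `cm_fin`.  For `g` as in the statement let `D(g) = g10 z₀ + g11 ≠ 0` and `v(g) = D(g)² / det g`.  The equation
says `α v(g)^ρ = 1`: so `v(g)` lies in the finite set of the roots of the nonzero polynomial `α X^ρ - 1`.
CLAIM: `v(g) = v(g')` implies `g' = ± g` for `g`, `g'` primitive with `g z₀ = z₁ = g' z₀`.  So for each value of `v` the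
determinant is determined, and the set of the determinants is finite, hence bounded.
Proof of the claim.  Let `h = adj(g) g'` (integral), `det h = det g det g' > 0`; `h z₀ = z₀` (`Maps.adj`, `Maps.mul`), and
`D(h) = h10 z₀ + h11`.  Cocycle: `g h = det g · g'`, so `det g D(g') = D(g h) = D(g) D(h)` (the second row of `g h`,
with `h z₀ = z₀`).  Then `D(h)² = (det g)² D(g')² / D(g)² = (det g)² det g' / det g = det g det g' = det h`, and
`‖D(h)‖² Im z₀ = det h Im z₀` (`norm_sq_denom`), so `‖D(h)‖² = det h = D(h)²`.  Hence `D(h)² = ‖D(h)‖²` is real and `≥ 0`, so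
`D(h)` is real: `h10 Im z₀ = 0`, `h10 = 0`.  Then `z₀ h11 = h00 z₀ + h01` gives `h00 = h11` and `h01 = 0`
(imaginary part): `h = s · 1`, `s ≠ 0`, and `det g · g' = g h = s g`.  Both `g` and `g'` are primitive, so
`|s| = det g`: the gcd of the entries of the left side is `det g`, of the right side `|s|`
(see the proof of `NonCM.prim_unique` in `LGO/Gal/CM.lean`).  So `g' = ± g` and `det g' = det g`.
-/

namespace Pool.Agent.LGO

open UpperHalfPlane

private theorem finG_dvd {g h : Matrix (Fin 2) (Fin 2) ℤ} {n a : ℤ} (hn : n ≠ 0) (hhp : Prim h)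
    (hgp : Prim g) (he : ∀ i j, n * h i j = a * g i j) : a.natAbs = n.natAbs := by
  set e := Int.gcd a n with hedef
  have hepos : 0 < e := Int.gcd_pos_of_ne_zero_right _ hn
  have he0 : (e : ℤ) ≠ 0 := by exact_mod_cast hepos.ne'
  obtain ⟨a', ha'⟩ : (e : ℤ) ∣ a := Int.gcd_dvd_left _ _
  obtain ⟨n', hn'⟩ : (e : ℤ) ∣ n := Int.gcd_dvd_right _ _
  have hcop : IsCoprime a' n' := by
    rw [Int.isCoprime_iff_gcd_eq_one]
    have h3 := Int.gcd_mul_left (e : ℤ) a' n'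
    rw [← ha', ← hn', ← hedef, Int.natAbs_natCast] at h3
    have h4 : e * 1 = e * a'.gcd n' := by rw [mul_one]; exact h3
    exact (Nat.eq_of_mul_eq_mul_left hepos h4).symm
  have h4 : ∀ i j, n' * h i j = a' * g i j := by
    intro i j
    apply mul_left_cancel₀ he0
    have := he i j
    rw [hn', ha'] at this
    linear_combination this
  have h5 : a'.natAbs = 1 := hhp _ fun i j => by
    rw [Int.natCast_dvd, Int.natAbs_dvd_natAbs]
    exact hcop.dvd_of_dvd_mul_left ⟨g i j, h4 i j⟩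
  have h6 : n'.natAbs = 1 := hgp _ fun i j => by
    rw [Int.natCast_dvd, Int.natAbs_dvd_natAbs]
    exact hcop.symm.dvd_of_dvd_mul_left ⟨h i j, (h4 i j).symm⟩
  rw [hn', ha', Int.natAbs_mul, Int.natAbs_mul, h5, h6]

private theorem finG_real {w : ℂ} {r : ℝ} (hr : 0 < r) (h : w ^ 2 = (r : ℂ)) : w.im = 0 := by
  have h1 := congrArg Complex.re h
  have h2 := congrArg Complex.im h
  rw [pow_two] at h1 h2
  simp only [Complex.mul_re, Complex.mul_im, Complex.ofReal_re, Complex.ofReal_im] at h1 h2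
  by_contra hne
  have h3 : w.re * w.im = 0 := by linarith
  rcases mul_eq_zero.mp h3 with h4 | h4
  · rw [h4] at h1
    have : 0 < w.im * w.im := mul_self_pos.mpr hne
    linarith
  · exact hne h4

private theorem finG_det {z₀ z₁ : ℍ} {g g' : Matrix (Fin 2) (Fin 2) ℤ} (hg : 0 < g.det)
    (hg' : 0 < g'.det) (hp : Prim g) (hp' : Prim g') (hm : Maps g (z₀ : ℂ) (z₁ : ℂ))
    (hm' : Maps g' (z₀ : ℂ) (z₁ : ℂ))
    (hv : ((g 1 0 : ℂ) * z₀ + (g 1 1 : ℂ)) ^ 2 * (g'.det : ℂ) =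
      ((g' 1 0 : ℂ) * z₀ + (g' 1 1 : ℂ)) ^ 2 * (g.det : ℂ)) : g.det = g'.det := by
  have hD : (g 1 0 : ℂ) * z₀ + (g 1 1 : ℂ) ≠ 0 := Gal.den_ne_zero hg.ne' z₀
  have hz : 0 < z₀.im := z₀.im_pos
  have hzc : (z₀ : ℂ).im ≠ 0 := ne_of_gt hz
  have hdc : (g.det : ℂ) = (g 0 0 : ℂ) * (g 1 1 : ℂ) - (g 0 1 : ℂ) * (g 1 0 : ℂ) := by
    rw [Matrix.det_fin_two]
    push_cast
    ring
  have hmh : Maps (g.adjugate * g') (z₀ : ℂ) (z₀ : ℂ) := hm'.mul hm.adj
  set h := g.adjugate * g' with hh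
  have h10 : (h 1 0 : ℂ) = -(g 1 0 : ℂ) * g' 0 0 + (g 0 0 : ℂ) * g' 1 0 := by
    rw [hh, Matrix.adjugate_fin_two]
    simp only [Matrix.mul_apply, Fin.sum_univ_two, Matrix.of_apply, Matrix.cons_val',
      Matrix.cons_val_zero, Matrix.cons_val_one, Matrix.cons_val_fin_one]
    push_cast
    ring
  have h11 : (h 1 1 : ℂ) = -(g 1 0 : ℂ) * g' 0 1 + (g 0 0 : ℂ) * g' 1 1 := by
    rw [hh, Matrix.adjugate_fin_two]
    simp only [Matrix.mul_apply, Fin.sum_univ_two, Matrix.of_apply, Matrix.cons_val',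
      Matrix.cons_val_zero, Matrix.cons_val_one, Matrix.cons_val_fin_one]
    push_cast
    ring
  have hc : ((g 1 0 : ℂ) * z₀ + (g 1 1 : ℂ)) * ((h 1 0 : ℂ) * z₀ + (h 1 1 : ℂ)) =
      (g.det : ℂ) * ((g' 1 0 : ℂ) * z₀ + (g' 1 1 : ℂ)) := by
    rw [Maps] at hm hm'
    rw [h10, h11, hdc]
    linear_combination ((g 1 0 : ℂ) * z₀ + (g 1 1 : ℂ)) * (g 1 0 : ℂ) * hm' -
      (g 1 0 : ℂ) * ((g' 1 0 : ℂ) * z₀ + (g' 1 1 : ℂ)) * hm
  have hsq : ((h 1 0 : ℂ) * z₀ + (h 1 1 : ℂ)) ^ 2 = (((g.det : ℝ) * (g'.det : ℝ) : ℝ) : ℂ) := by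
    apply mul_left_cancel₀ (pow_ne_zero 2 hD)
    rw [Complex.ofReal_mul, Complex.ofReal_intCast, Complex.ofReal_intCast]
    linear_combination (((g 1 0 : ℂ) * z₀ + (g 1 1 : ℂ)) * ((h 1 0 : ℂ) * z₀ + (h 1 1 : ℂ)) +
      (g.det : ℂ) * ((g' 1 0 : ℂ) * z₀ + (g' 1 1 : ℂ))) * hc - (g.det : ℂ) * hv
  have hr : (0 : ℝ) < (g.det : ℝ) * (g'.det : ℝ) := by
    have h1 : (0 : ℝ) < (g.det : ℝ) := by exact_mod_cast hg
    have h2 : (0 : ℝ) < (g'.det : ℝ) := by exact_mod_cast hg'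
    positivity
  have him := finG_real hr hsq
  have him' : ((h 1 0 : ℂ) * z₀ + (h 1 1 : ℂ)).im = (h 1 0 : ℝ) * (z₀ : ℂ).im := by
    simp [Complex.mul_im]
  rw [him'] at him
  have e10 : h 1 0 = 0 := by
    have := (mul_eq_zero.mp him).resolve_right hzc
    exact_mod_cast this
  rw [Maps, e10, Int.cast_zero, zero_mul, zero_add] at hmh
  have e2 : ((z₀ : ℂ) * (h 1 1 : ℂ)).im = (h 1 1 : ℝ) * (z₀ : ℂ).im := by
    simp [Complex.mul_im, mul_comm]
  have e3 : ((h 0 0 : ℂ) * z₀ + (h 0 1 : ℂ)).im = (h 0 0 : ℝ) * (z₀ : ℂ).im := by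
    simp [Complex.mul_im]
  have e4 := congrArg Complex.im hmh
  rw [e2, e3] at e4
  have e5 : h 1 1 = h 0 0 := by
    have := mul_right_cancel₀ hzc e4
    exact_mod_cast this
  have e6 : h 0 1 = 0 := by
    rw [e5] at hmh
    have : (h 0 1 : ℂ) = 0 := by linear_combination -hmh
    exact_mod_cast this
  have hs : h = h 0 0 • (1 : Matrix (Fin 2) (Fin 2) ℤ) := by
    ext i j
    fin_cases i <;> fin_cases j
    · simp
    · simpa using e6
    · simpa using e10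
    · simpa [Matrix.smul_apply] using e5
  have hp1 : g * h = g.det • g' := by
    rw [hh, ← Matrix.mul_assoc, Matrix.mul_adjugate, Matrix.smul_mul, Matrix.one_mul]
  have hp2 : g * h = h 0 0 • g := by
    calc g * h = g * (h 0 0 • (1 : Matrix (Fin 2) (Fin 2) ℤ)) := by rw [← hs]
      _ = h 0 0 • g := by rw [Matrix.mul_smul, Matrix.mul_one]
  have hp3 : g.det • g' = h 0 0 • g := by rw [← hp1, hp2]
  have he : ∀ i j, g.det * g' i j = h 0 0 * g i j := by
    intro i j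
    have := congrFun (congrFun hp3 i) j
    simpa [Matrix.smul_apply] using this
  have hab := finG_dvd hg.ne' hp' hp he
  have h1 := congrArg Matrix.det hp3
  rw [Matrix.det_smul, Matrix.det_smul] at h1
  simp only [Fintype.card_fin] at h1
  have h2 : (h 0 0) ^ 2 = g.det ^ 2 := by
    rw [← Int.natAbs_sq, hab, Int.natAbs_sq]
  rw [h2] at h1
  exact (mul_left_cancel₀ (pow_ne_zero 2 hg.ne') h1).symm

theorem cm_fin (z₀ z₁ : ℍ) {ρ : ℕ} (hρ : 0 < ρ) (α : ℂ) : ∃ N₀ : ℕ,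
    ∀ g : Matrix (Fin 2) (Fin 2) ℤ, 0 < g.det → Prim g → Maps g (z₀ : ℂ) (z₁ : ℂ) →
      (g.det : ℂ) ^ ρ = α * ((g 1 0 : ℂ) * z₀ + (g 1 1 : ℂ)) ^ (2 * ρ) → g.det ≤ N₀ := by
  classical
  set P : Matrix (Fin 2) (Fin 2) ℤ → Prop := fun g => 0 < g.det ∧ Prim g ∧
    Maps g (z₀ : ℂ) (z₁ : ℂ) ∧
      (g.det : ℂ) ^ ρ = α * ((g 1 0 : ℂ) * z₀ + (g 1 1 : ℂ)) ^ (2 * ρ) with hP
  set T : Set ℤ := {n | ∃ g, P g ∧ g.det = n} with hT
  set v : Matrix (Fin 2) (Fin 2) ℤ → ℂ := fun g =>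
    ((g 1 0 : ℂ) * z₀ + (g 1 1 : ℂ)) ^ 2 / (g.det : ℂ) with hv
  set f : ℤ → ℂ := fun n => if h : ∃ g, P g ∧ g.det = n then v h.choose else 0 with hf
  set p : Polynomial ℂ := Polynomial.C α * Polynomial.X ^ ρ - 1 with hp
  have hp0 : p ≠ 0 := by
    intro h0
    have h1 := congrArg (Polynomial.eval 0) h0
    rw [hp] at h1
    simp [zero_pow hρ.ne'] at h1
  have hfin : T.Finite := by
    apply Set.Finite.of_injOn (f := f) (t := (p.roots.toFinset : Set ℂ)) _ _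
      (Finset.finite_toSet _)
    · intro n hn
      have hn' : ∃ g, P g ∧ g.det = n := hn
      have h1 : f n = v hn'.choose := by rw [hf]; exact dif_pos hn'
      obtain ⟨h2, h3⟩ := hn'.choose_spec
      rw [h1]
      rw [Finset.mem_coe, Multiset.mem_toFinset, Polynomial.mem_roots hp0, Polynomial.IsRoot]
      obtain ⟨h4, -, -, h5⟩ := h2
      have h6 : ((hn'.choose.det : ℤ) : ℂ) ≠ 0 := by exact_mod_cast h4.ne'
      rw [hp]
      simp only [Polynomial.eval_sub, Polynomial.eval_mul, Polynomial.eval_C, Polynomial.eval_pow,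
        Polynomial.eval_X, Polynomial.eval_one]
      rw [hv]
      simp only
      rw [div_pow, ← pow_mul, ← mul_div_assoc, ← h5, div_self (pow_ne_zero _ h6), sub_self]
    · intro n hn m hm hnm
      have hn' : ∃ g, P g ∧ g.det = n := hn
      have hm' : ∃ g, P g ∧ g.det = m := hm
      have h1 : f n = v hn'.choose := by rw [hf]; exact dif_pos hn'
      have h2 : f m = v hm'.choose := by rw [hf]; exact dif_pos hm'
      rw [h1, h2] at hnm
      obtain ⟨⟨a1, a2, a3, -⟩, a5⟩ := hn'.choose_spec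
      obtain ⟨⟨b1, b2, b3, -⟩, b5⟩ := hm'.choose_spec
      rw [← a5, ← b5]
      apply finG_det a1 b1 a2 b2 a3 b3
      rw [hv] at hnm
      simp only at hnm
      have h6 : ((hn'.choose.det : ℤ) : ℂ) ≠ 0 := by exact_mod_cast a1.ne'
      have h7 : ((hm'.choose.det : ℤ) : ℂ) ≠ 0 := by exact_mod_cast b1.ne'
      rw [div_eq_div_iff h6 h7] at hnm
      exact hnm
  obtain ⟨B, hB⟩ := hfin.bddAbove
  refine ⟨B.toNat, fun g h1 h2 h3 h4 => ?_⟩
  have h5 : g.det ≤ B := hB ⟨g, ⟨h1, h2, h3, h4⟩, rfl⟩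
  exact h5.trans (Int.self_le_toNat B)

end Pool.Agent.LGO
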