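import Mathlib
import Pool.Agent.LGO.H.BdC
import Pool.Agent.LGO.Mul.Ht
import Pool.Agent.LGO.Q.Quad
import Pool.Agent.Hhelper14.ZPL.KClosed

/-!
# LGO/C: Liouville estimates

Proof of `cm_liou`.  Let `K = ℚ(coefficients of P)` (`IntermediateField.adjoin ℚ` of the finite set of the
coefficients, or a number field which contains them), finite dimensional.  `Quad_bd_alg` (`LGO/Q/Quad.lean`): every
coefficient `c` satisfies `Bd K B c` for a constant `B`.  For integers `v i` with `|v i| ≤ H`: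
`Bd K (log H) (v i)` (`Bd.intCast`).  By `Bd.mul`, `Bd.pow`, `Bd.add` (`LGO/H/BdC.lean`; finite sums and products) the value
satisfies `Bd K (B' (1 + log H)) (P(v))` with a constant `B'`, and `Bd.lower` (`LGO/Mul/Ht.lean`), for the inclusion
`K → ℂ`, gives `P(v) = 0` or `‖P(v)‖ ≥ exp (- 2 D B' (1 + log H)) = (e H)^(-2 D B')`, `D = [K : ℚ]`.  Take
`C ≥ max 3 (2 D B')`.

`cm_liou_lin`, `cm_liou_pow`: special cases, for `P = z₁ (X10 z₀ + X11) - (X00 z₀ + X01)` and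
`P = (X00 X11 - X01 X10)^ρ - α (X10 z₀ + X11)^(2ρ)` (index set `Fin 2 × Fin 2`); `z₀`, `z₁`, `α` are elements of `Qb`.
-/

namespace Pool.Agent.LGO

open MvPolynomial Pool.Agent.Hhelper14.ZPL

theorem Liou_bd {σ : Type} (P : MvPolynomial σ Qb) : ∃ (K : IntermediateField ℚ ℂ) (B : ℝ),
    FiniteDimensional ℚ K ∧ 0 ≤ B ∧ ∀ (v : σ → ℤ) (H : ℝ), 1 ≤ H → (∀ i, |(v i : ℝ)| ≤ H) →
      Bd K (B * (1 + Real.log H)) (aeval (fun i => (v i : ℂ)) P : ℂ) := by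
  induction P using MvPolynomial.induction_on with
  | C a =>
    have ha : IsAlgebraic ℚ (a : ℂ) := mem_algebraicClosure_iff.1 a.2
    obtain ⟨B, hB, h⟩ := Quad_bd_alg ha
    refine ⟨IntermediateField.adjoin ℚ {(a : ℂ)}, B,
      IntermediateField.adjoin.finiteDimensional ha.isIntegral, hB, fun v H hH _ => ?_⟩
    rw [aeval_C]
    refine (h _ (IntermediateField.mem_adjoin_simple_self ℚ (a : ℂ))).mono ?_
    have hl : 0 ≤ Real.log H := Real.log_nonneg hH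
    nlinarith
  | add p q hp hq =>
    obtain ⟨K₁, B₁, hK₁, hB₁, h₁⟩ := hp
    obtain ⟨K₂, B₂, hK₂, hB₂, h₂⟩ := hq
    refine ⟨K₁ ⊔ K₂, B₁ + B₂ + 1, IntermediateField.finiteDimensional_sup K₁ K₂, by positivity,
      fun v H hH hv => ?_⟩
    rw [map_add]
    refine (((h₁ v H hH hv).le le_sup_left).add ((h₂ v H hH hv).le le_sup_right)).mono ?_
    have hl : 0 ≤ Real.log H := Real.log_nonneg hH
    nlinarith
  | mul_X p i hp =>
    obtain ⟨K, B, hK, hB, h⟩ := hp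
    refine ⟨K, B + 1, hK, by positivity, fun v H hH hv => ?_⟩
    rw [map_mul, aeval_X]
    have hl : 0 ≤ Real.log H := Real.log_nonneg hH
    have hi : Bd K (Real.log H) ((v i : ℤ) : ℂ) :=
      Bd.intCast (v i) (by rw [Real.exp_log (by linarith)]; exact hv i) hl
    refine ((h v H hH hv).mul hi).mono ?_
    nlinarith

theorem cm_liou {σ : Type} [Fintype σ] (P : MvPolynomial σ Qb) : ∃ C : ℕ, 0 < C ∧
    ∀ (v : σ → ℤ) (H : ℝ), 1 ≤ H → (∀ i, |(v i : ℝ)| ≤ H) →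
      (aeval (fun i => (v i : ℂ)) P : ℂ) = 0 ∨
        1 ≤ (C * H) ^ C * ‖(aeval (fun i => (v i : ℂ)) P : ℂ)‖ := by
  obtain ⟨K, B, hK, hB, h⟩ := Liou_bd P
  obtain ⟨c, hc⟩ := exists_nat_ge (2 * (Module.finrank ℚ K : ℝ) * B)
  refine ⟨max c 3, by positivity, fun v H hH hv => ?_⟩
  by_cases h0 : (aeval (fun i => (v i : ℂ)) P : ℂ) = 0
  · exact Or.inl h0
  right
  have hl : 0 ≤ Real.log H := Real.log_nonneg hH
  have hx := h v H hH hv
  have hlow := hx.lower (D := Module.finrank ℚ K) le_rfl (by positivity) h0 (algebraMap K ℂ)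
  have e1 : ‖(algebraMap K ℂ) ⟨_, hx.mem⟩‖ = ‖(aeval (fun i => (v i : ℂ)) P : ℂ)‖ := rfl
  rw [e1] at hlow
  set x := ‖(aeval (fun i => (v i : ℂ)) P : ℂ)‖ with hxdef
  have hC3 : (3 : ℝ) ≤ (max c 3 : ℕ) := by exact_mod_cast le_max_right c 3
  have hCc : (c : ℝ) ≤ (max c 3 : ℕ) := by exact_mod_cast le_max_left c 3
  set C : ℕ := max c 3 with hCdef
  have h1 : Real.exp (2 * (Module.finrank ℚ K : ℝ) * (B * (1 + Real.log H))) ≤
      ((C : ℝ) * H) ^ C := by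
    calc Real.exp (2 * (Module.finrank ℚ K : ℝ) * (B * (1 + Real.log H)))
        ≤ Real.exp (C * (1 + Real.log H)) := by
          apply Real.exp_le_exp.2
          have : 2 * (Module.finrank ℚ K : ℝ) * B ≤ C := hc.trans hCc
          calc 2 * (Module.finrank ℚ K : ℝ) * (B * (1 + Real.log H))
              = (2 * (Module.finrank ℚ K : ℝ) * B) * (1 + Real.log H) := by ring
            _ ≤ C * (1 + Real.log H) := by gcongr
      _ = (Real.exp 1 * H) ^ C := by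
          rw [Real.exp_nat_mul, Real.exp_add, Real.exp_log (by linarith)]
      _ ≤ ((C : ℝ) * H) ^ C := by
          have h3 : Real.exp 1 ≤ C := by
            have := Real.exp_one_lt_d9
            linarith
          gcongr
  have h2 : 1 ≤ Real.exp (2 * (Module.finrank ℚ K : ℝ) * (B * (1 + Real.log H))) * x := by
    calc (1 : ℝ) = Real.exp (2 * (Module.finrank ℚ K : ℝ) * (B * (1 + Real.log H))) *
          Real.exp (-(2 * (Module.finrank ℚ K : ℝ) * (B * (1 + Real.log H)))) := by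
          rw [← Real.exp_add, add_neg_cancel, Real.exp_zero]
      _ ≤ _ := by gcongr
  exact h2.trans (by gcongr)

theorem cm_liou_lin {z₀ z₁ : ℂ} (h₀ : IsAlgebraic ℚ z₀) (h₁ : IsAlgebraic ℚ z₁) :
    ∃ C : ℕ, 0 < C ∧ ∀ (g : Matrix (Fin 2) (Fin 2) ℤ) (H : ℝ), 1 ≤ H →
      (∀ i j, |(g i j : ℝ)| ≤ H) →
      z₁ * ((g 1 0 : ℂ) * z₀ + (g 1 1 : ℂ)) - ((g 0 0 : ℂ) * z₀ + (g 0 1 : ℂ)) = 0 ∨
        1 ≤ (C * H) ^ C *
          ‖z₁ * ((g 1 0 : ℂ) * z₀ + (g 1 1 : ℂ)) - ((g 0 0 : ℂ) * z₀ + (g 0 1 : ℂ))‖ := by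
  let a₀ : Qb := ⟨z₀, mem_algebraicClosure_iff.2 h₀⟩
  let a₁ : Qb := ⟨z₁, mem_algebraicClosure_iff.2 h₁⟩
  obtain ⟨C', hC, h⟩ := cm_liou (σ := Fin 2 × Fin 2)
    (MvPolynomial.C a₁ * (X (1, 0) * MvPolynomial.C a₀ + X (1, 1)) -
      (X (0, 0) * MvPolynomial.C a₀ + X (0, 1)))
  refine ⟨C', hC, fun g H hH hg => ?_⟩
  have := h (fun p => g p.1 p.2) H hH (fun p => hg p.1 p.2)
  simp only [map_sub, map_mul, map_add, aeval_X, aeval_C] at this
  exact this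

theorem cm_liou_pow {z₀ α : ℂ} (h₀ : IsAlgebraic ℚ z₀) (hα : IsAlgebraic ℚ α) (ρ : ℕ) :
    ∃ C : ℕ, 0 < C ∧ ∀ (g : Matrix (Fin 2) (Fin 2) ℤ) (H : ℝ), 1 ≤ H →
      (∀ i j, |(g i j : ℝ)| ≤ H) →
      (g.det : ℂ) ^ ρ - α * ((g 1 0 : ℂ) * z₀ + (g 1 1 : ℂ)) ^ (2 * ρ) = 0 ∨
        1 ≤ (C * H) ^ C *
          ‖(g.det : ℂ) ^ ρ - α * ((g 1 0 : ℂ) * z₀ + (g 1 1 : ℂ)) ^ (2 * ρ)‖ := by
  let a₀ : Qb := ⟨z₀, mem_algebraicClosure_iff.2 h₀⟩
  let a₁ : Qb := ⟨α, mem_algebraicClosure_iff.2 hα⟩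
  obtain ⟨C', hC, h⟩ := cm_liou (σ := Fin 2 × Fin 2)
    ((X (0, 0) * X (1, 1) - X (0, 1) * X (1, 0)) ^ ρ -
      MvPolynomial.C a₁ * (X (1, 0) * MvPolynomial.C a₀ + X (1, 1)) ^ (2 * ρ))
  refine ⟨C', hC, fun g H hH hg => ?_⟩
  have := h (fun p => g p.1 p.2) H hH (fun p => hg p.1 p.2)
  simp only [map_sub, map_mul, map_add, map_pow, aeval_X, aeval_C] at this
  rw [Matrix.det_fin_two]
  push_cast
  exact this

end Pool.Agent.LGO
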