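import Mathlib
import Pool.Agent.LGO.C.Defs
import Pool.Agent.LGO.Q.Loc

/-!
# LGO/C: the local expansion of `j`

Proof of `cm_jexp`, as the proof of `j_local` in `LGO/Q/Loc.lean`.  `jF_analytic`, `jF_not_const` and
`AnalyticAt.exists_eventuallyEq_pow_smul_nonzero_iff` for `jF z - jF z₀`: near `z₀`,
`jF z - jF z₀ = (z - z₀)^r g(z)` with `g` analytic, `g z₀ ≠ 0`, and `r > 0` (value at `z₀`).  `c = g z₀`; `g` is
differentiable at `z₀`, so `‖g z - g z₀‖ ≤ C ‖z - z₀‖` for `‖z - z₀‖ ≤ δ` (`DifferentiableAt` gives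
`IsBigO`: `DifferentiableAt.isBigO_sub`), which is the claim (`jF_coe`).
-/

namespace Pool.Agent.LGO

open UpperHalfPlane Pool.Agent.Hhelper14.ZP

theorem cm_jexp (z₀ : ℍ) : ∃ (r : ℕ) (c : ℂ) (C δ : ℝ), JExp z₀ r c C δ := by
  have han : AnalyticAt ℂ jF (z₀ : ℂ) := jF_analytic _ z₀.im_pos
  have hnc := jF_not_const z₀
  have han' : AnalyticAt ℂ (fun z => jF z - jF (z₀ : ℂ)) (z₀ : ℂ) := han.sub analyticAt_const
  obtain ⟨m, g, hg, hg0, hfac⟩ := (han'.exists_eventuallyEq_pow_smul_nonzero_iff).mpr (by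
    intro h
    exact hnc (h.mono fun z hz => sub_eq_zero.mp hz))
  have hm : 0 < m := by
    rcases Nat.eq_zero_or_pos m with h | h
    · exfalso
      have h1 := hfac.self_of_nhds
      rw [h] at h1
      simp only [sub_self, pow_zero, one_smul] at h1
      exact hg0 h1.symm
    · exact h
  obtain ⟨C, hC, hO⟩ := (hg.differentiableAt.isBigO_sub).exists_pos
  obtain ⟨ε, hε, hball⟩ := Metric.eventually_nhds_iff.mp (hfac.and hO.bound)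
  refine ⟨m, g (z₀ : ℂ), C, ε / 2, ⟨hm, hg0, hC, by linarith, ?_⟩⟩
  intro τ hτ
  have hd : dist (τ : ℂ) (z₀ : ℂ) < ε := by
    rw [dist_eq_norm]
    linarith
  obtain ⟨h1, h2⟩ := hball hd
  have h3 : jInv τ - jInv z₀ - g (z₀ : ℂ) * ((τ : ℂ) - z₀) ^ m =
      ((τ : ℂ) - z₀) ^ m * (g (τ : ℂ) - g (z₀ : ℂ)) := by
    have h4 : jInv τ - jInv z₀ = ((τ : ℂ) - z₀) ^ m * g (τ : ℂ) := by
      rw [← jF_coe τ, ← jF_coe z₀]
      exact h1
    rw [h4]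
    ring
  rw [h3, norm_mul, norm_pow, pow_succ]
  have h5 : 0 ≤ ‖(τ : ℂ) - z₀‖ ^ m := by positivity
  calc ‖(τ : ℂ) - z₀‖ ^ m * ‖g (τ : ℂ) - g (z₀ : ℂ)‖
      ≤ ‖(τ : ℂ) - z₀‖ ^ m * (C * ‖(τ : ℂ) - z₀‖) := mul_le_mul_of_nonneg_left h2 h5
    _ = C * (‖(τ : ℂ) - z₀‖ ^ m * ‖(τ : ℂ) - z₀‖) := by ring

end Pool.Agent.LGO
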