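import Mathlib
import Pool.Agent.LGO.S.Near

/-!
# LGO/C: the two points and the matrix

Proof of `cm_pts`: copy of the proof of `near` in `LGO/S/Near.lean`, which also constructs `τ`, `τ'` and `g` but does
not return the two points.  `near_pt` with `min δ (..)` in place of the `δ` there.  The exponent `m'` = product
of all exponents that occur; `‖τ - z₀‖ ≤ 1` allows to increase the exponent.
-/

namespace Pool.Agent.LGO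

open UpperHalfPlane Pool.Agent.Hhelper14.ZP

theorem cm_pts (z₀ z₁ : ℍ) (C₀ : ℝ) {m : ℕ} (hm : 0 < m) {δ : ℝ} (hδ : 0 < δ) :
    ∃ (C : ℝ) (m' : ℕ), 1 ≤ C ∧ 0 < m' ∧
    ∀ (T : ℝ) (Y Z : ℂ), C ≤ T → (∃ N, 0 < N ∧ IsogDeg N Y Z) → ‖Y - jInv z₀‖ ^ m * T ≤ C₀ →
      ‖Z - jInv z₁‖ ^ m * T ≤ C₀ →
      ∃ (τ τ' : ℍ) (g : Matrix (Fin 2) (Fin 2) ℤ), jInv τ = Y ∧ jInv τ' = Z ∧
        Maps g (τ : ℂ) (τ' : ℂ) ∧ g.det = mdeg Y Z ∧ 0 < g.det ∧ Prim g ∧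
        (∀ i j, |(g i j : ℝ)| ≤ C * g.det) ∧
        ‖(τ : ℂ) - z₀‖ ≤ δ ∧ ‖(τ' : ℂ) - z₁‖ ≤ δ ∧
        ‖(τ : ℂ) - z₀‖ ^ m' * T ≤ C ∧ ‖(τ' : ℂ) - z₁‖ ^ m' * T ≤ C ∧
        ‖(z₁ : ℂ) * ((g 1 0 : ℂ) * z₀ + (g 1 1 : ℂ)) - ((g 0 0 : ℂ) * z₀ + (g 0 1 : ℂ))‖ ^ m' * T ≤
          (C * g.det) ^ m' := by
  have hz0 := z₀.im_pos
  have hz1 := z₁.im_pos
  set δ' : ℝ := min δ (min 1 (min (z₀.im / 2) (z₁.im / 2))) with hδ'
  have hδ0 : 0 < δ' := by positivity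
  have hδδ : δ' ≤ δ := min_le_left _ _
  have hδ1 : δ' ≤ 1 := (min_le_right _ _).trans (min_le_left _ _)
  have hδ2 : δ' ≤ z₀.im / 2 := (min_le_right _ _).trans ((min_le_right _ _).trans (min_le_left _ _))
  have hδ3 : δ' ≤ z₁.im / 2 := (min_le_right _ _).trans ((min_le_right _ _).trans (min_le_right _ _))
  set A : ℝ := max C₀ 1 with hA
  have hA1 : 1 ≤ A := le_max_right _ _
  obtain ⟨C₁, m₁, hC₁, hm₁, H₁⟩ := near_pt z₀ hδ0 hA1 m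
  obtain ⟨C₂, m₂, hC₂, hm₂, H₂⟩ := near_pt z₁ hδ0 hA1 m
  set R : ℝ := 1 + ‖(z₀ : ℂ)‖ + ‖(z₁ : ℂ)‖ + 2 / z₀.im + 2 / z₁.im with hR
  have hn0 := norm_nonneg (z₀ : ℂ)
  have hn1 := norm_nonneg (z₁ : ℂ)
  have hi0 : 0 < 2 / z₀.im := by positivity
  have hi1 : 0 < 2 / z₁.im := by positivity
  have hR1 : 1 ≤ R := by linarith
  have hR0 : 0 < R := by linarith
  set K : ℝ := 2 * R ^ 4 * (R + 1) with hK
  have hK0 : 0 < K := by positivity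
  set D : ℝ := C₁ + C₂ with hD
  have hD1 : 1 ≤ D := by linarith
  set C : ℝ := C₁ + C₂ + 2 * R ^ 4 + K * 2 * D with hC
  have hR4 : 0 < 2 * R ^ 4 := by positivity
  have hKD : 0 < K * 2 * D := by positivity
  refine ⟨C, m * m₁ * m₂, by linarith, by positivity, ?_⟩
  intro T Y Z hT hN hY hZ
  have hT0 : 0 < T := by linarith
  obtain ⟨τ, hτ, hτ1, hτ2⟩ := H₁ T Y (by linarith) (hY.trans (le_max_left _ _))
  obtain ⟨τ', hτ', hτ'1, hτ'2⟩ := H₂ T Z (by linarith) (hZ.trans (le_max_left _ _))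
  subst hτ hτ'
  obtain ⟨g, hg, hg0, hgp, hgm⟩ := exists_prim_mdeg hN
  -- compactness
  have him : ∀ (z t : ℍ), ‖(t : ℂ) - z‖ ≤ δ' → δ' ≤ z.im / 2 → 2 / z.im ≤ R → R⁻¹ ≤ (t : ℂ).im := by
    intro z t h1 h2 h3
    have h4 : |((t : ℂ) - z).im| ≤ δ' := (Complex.abs_im_le_norm _).trans h1
    rw [Complex.sub_im] at h4
    have h5 := (abs_le.mp h4).1
    have hz := z.im_pos
    have h6 : R⁻¹ ≤ z.im / 2 := by
      rw [inv_le_comm₀ hR0 (by positivity)]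
      rw [inv_div]
      exact h3
    have h7 : (z : ℂ).im = z.im := rfl
    linarith
  have hnt : ∀ (z t : ℍ), ‖(t : ℂ) - z‖ ≤ δ' → ‖(z : ℂ)‖ + 1 ≤ R → ‖(t : ℂ)‖ ≤ R := by
    intro z t h1 h2
    have h3 : ‖(t : ℂ)‖ ≤ ‖(t : ℂ) - z‖ + ‖(z : ℂ)‖ := by
      have := norm_add_le ((t : ℂ) - z) z
      rwa [sub_add_cancel] at this
    linarith
  have k1 : ‖(τ : ℂ)‖ ≤ R := hnt z₀ τ hτ1 (by linarith)
  have k2 : ‖(τ' : ℂ)‖ ≤ R := hnt z₁ τ' hτ'1 (by linarith)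
  have k3 : R⁻¹ ≤ (τ : ℂ).im := him z₀ τ hτ1 hδ2 (by linarith)
  have k4 : R⁻¹ ≤ (τ' : ℂ).im := him z₁ τ' hτ'1 hδ3 (by linarith)
  have hent := entries_le hgm hg0 hR1 k1 k2 k3 k4
  have hdet1 : (1 : ℝ) ≤ g.det := by exact_mod_cast hg0
  have hdet0 : (0 : ℝ) < g.det := by linarith
  have hxm : ‖(τ : ℂ) - z₀‖ ^ (m * m₁ * m₂) * T ≤ C₁ := by
    refine le_trans ?_ hτ2
    have : ‖(τ : ℂ) - z₀‖ ^ (m * m₁ * m₂) ≤ ‖(τ : ℂ) - z₀‖ ^ (m * m₁) :=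
      pow_le_pow_of_le_one (norm_nonneg _) (hτ1.trans hδ1) (Nat.le_mul_of_pos_right _ hm₂)
    gcongr
  have hym : ‖(τ' : ℂ) - z₁‖ ^ (m * m₁ * m₂) * T ≤ C₂ := by
    refine le_trans ?_ hτ'2
    have : ‖(τ' : ℂ) - z₁‖ ^ (m * m₁ * m₂) ≤ ‖(τ' : ℂ) - z₁‖ ^ (m * m₂) :=
      pow_le_pow_of_le_one (norm_nonneg _) (hτ'1.trans hδ1)
        (Nat.mul_le_mul_right m₂ (Nat.le_mul_of_pos_right m hm₁))
    gcongr
  refine ⟨τ, τ', g, rfl, rfl, hgm, hg, hg0, hgp, ?_, hτ1.trans hδδ, hτ'1.trans hδδ, ?_, ?_, ?_⟩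
  · intro i j
    refine (hent i j).trans ?_
    have : 2 * R ^ 4 ≤ C := by linarith
    exact mul_le_mul_of_nonneg_right this hdet0.le
  · exact hxm.trans (by linarith)
  · exact hym.trans (by linarith)
  · set x : ℝ := ‖(τ : ℂ) - z₀‖ with hx
    set y : ℝ := ‖(τ' : ℂ) - z₁‖ with hy
    have hx0 : 0 ≤ x := norm_nonneg _
    have hy0 : 0 ≤ y := norm_nonneg _
    have hx1 : x ≤ 1 := hτ1.trans hδ1
    have hy1 : y ≤ 1 := hτ'1.trans hδ1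
    have hnorm : ∀ i j, ‖(g i j : ℂ)‖ ≤ 2 * R ^ 4 * g.det := by
      intro i j
      rw [← Complex.ofReal_intCast, Complex.norm_real, Real.norm_eq_abs]
      exact hent i j
    set B : ℝ := 2 * R ^ 4 * g.det with hB
    have hB0 : 0 < B := by positivity
    have hE : (z₁ : ℂ) * ((g 1 0 : ℂ) * z₀ + (g 1 1 : ℂ)) - ((g 0 0 : ℂ) * z₀ + (g 0 1 : ℂ)) =
        ((z₁ : ℂ) - τ') * ((g 1 0 : ℂ) * z₀ + (g 1 1 : ℂ)) + (τ' : ℂ) * (g 1 0 : ℂ) * (z₀ - τ) +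
          (g 0 0 : ℂ) * (τ - z₀) := by
      have : (τ' : ℂ) * ((g 1 0 : ℂ) * τ + (g 1 1 : ℂ)) = (g 0 0 : ℂ) * τ + (g 0 1 : ℂ) := hgm
      linear_combination this
    have hy' : ‖(z₁ : ℂ) - τ'‖ = y := norm_sub_rev _ _
    have hx' : ‖(z₀ : ℂ) - τ‖ = x := norm_sub_rev _ _
    have hEn : ‖(z₁ : ℂ) * ((g 1 0 : ℂ) * z₀ + (g 1 1 : ℂ)) - ((g 0 0 : ℂ) * z₀ + (g 0 1 : ℂ))‖ ≤
        K * g.det * (x + y) := by
      rw [hE]
      have e1 : ‖((z₁ : ℂ) - τ') * ((g 1 0 : ℂ) * z₀ + (g 1 1 : ℂ))‖ ≤ y * (B * R + B) := by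
        rw [norm_mul, hy']
        gcongr
        refine (norm_add_le _ _).trans ?_
        rw [norm_mul]
        have h0 : ‖(z₀ : ℂ)‖ ≤ R := by linarith
        have h10 := hnorm 1 0
        have h11 := hnorm 1 1
        gcongr
      have e2 : ‖(τ' : ℂ) * (g 1 0 : ℂ) * (z₀ - τ)‖ ≤ R * B * x := by
        rw [norm_mul, norm_mul, hx']
        have h10 := hnorm 1 0
        gcongr
      have e3 : ‖(g 0 0 : ℂ) * ((τ : ℂ) - z₀)‖ ≤ B * x := by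
        rw [norm_mul, ← hx]
        have h00 := hnorm 0 0
        gcongr
      have e4 := norm_add₃_le (a := ((z₁ : ℂ) - τ') * ((g 1 0 : ℂ) * z₀ + (g 1 1 : ℂ)))
        (b := (τ' : ℂ) * (g 1 0 : ℂ) * (z₀ - τ)) (c := (g 0 0 : ℂ) * (τ - z₀))
      have e5 : K * g.det * (x + y) = y * (B * R + B) + R * B * x + B * x := by
        rw [hK, hB]; ring
      rw [e5]
      linarith
    have hmm : 0 < m * m₁ * m₂ := by positivity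
    set M : ℕ := m * m₁ * m₂ with hM
    exact near_fin hx0 hy0 hT0 hK0 hdet0 hD1 (by linarith) hmm (norm_nonneg _) hEn
      (by rw [hD]; linarith)

end Pool.Agent.LGO
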