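import Mathlib
import Pool.Agent.LGO.C.Defs
import Pool.Agent.LGO.C.Num
import Pool.Agent.LGO.C.Geom

/-!
# LGO/C: the exact case

Proof of `cm_ratio`.  Let `u = τ - z₀`, `w = τ' - z₁`, `q = N / D₀²`, `η = g10 / D₀`, `κ = 1 / Im z₀`,
`Q = Im z₁ / Im z₀` (`cm_geom`), `e₀ = j(τ) - j(z₀)`, `e₁ = j(τ') - j(z₁)`; `C₁` = maximum of the constants of the two
expansions; `C₂`, `δ₂` from `cm_num`, and let `δ` be the minimum of `1`, `δ₂` and of the radii of the two expansions.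
Now let `m`, `m'`, `C₀` be given.  `u ≠ 0` since `j(τ) ≠ j(z₀)`.  `e₁ ≠ 0`: let `A = ‖e₀^k - α e₁^l‖ / ‖e₁^l‖ ≥ 0`, so
`A^m T ≤ C₀`.
Let `M = m m'` and `E = ‖u‖ + A`.  If `A > 1` then `T ≤ A ^ m T ≤ C₀` and we are done.  If `A ≤ 1` then
`E ^ M T ≤ 2 ^ M (‖u‖ ^ M + A ^ M) T ≤ 2 ^ M (‖u‖ ^ m' T + A ^ m T) ≤ 2 ^ (M + 1) C₀` (`‖u‖ ≤ δ ≤ 1`).
* `k r ≠ l r'`: `1 ≤ C₂ E`, so `T ≤ C₂ ^ M E ^ M T ≤ C`.
* `k r = l r' = ρ`: `‖c^k - α c'^l q^ρ‖ ≤ C₂ E`.  With `α₁ = c^k / (α c'^l)`: `α₁ - q^ρ = (c^k - α c'^l q^ρ) / (α c'^l)` and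
  `N^ρ - α₁ D₀^(2ρ) = D₀^(2ρ) (q^ρ - α₁)`, `‖D₀‖² = N / Q`, so
  `‖N^ρ - α₁ D₀^(2ρ)‖ ≤ (N / Q)^ρ C' E ≤ C'' N^ρ E` and `‖N^ρ - α₁ D₀^(2ρ)‖ ^ M T ≤ C''^M N^(ρ M) C₃ ≤ (C N) ^ C` for a
  large natural number `C` (`N ≥ 1`).
-/

namespace Pool.Agent.LGO

open UpperHalfPlane Pool.Agent.Hhelper14.ZP

private theorem cm_ratio_E {a A T C₀ : ℝ} (ha : 0 ≤ a) (ha1 : a ≤ 1) (hA : 0 ≤ A) (hA1 : A ≤ 1)
    (hT : 0 ≤ T) {m m' : ℕ} (hm : 0 < m) (hm' : 0 < m') (h1 : a ^ m' * T ≤ C₀)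
    (h2 : A ^ m * T ≤ C₀) : (a + A) ^ (m * m') * T ≤ 2 ^ (m * m' + 1) * |C₀| := by
  have e1 : a ^ (m * m') ≤ a ^ m' :=
    pow_le_pow_of_le_one ha ha1 (Nat.le_mul_of_pos_left m' hm)
  have e2 : A ^ (m * m') ≤ A ^ m :=
    pow_le_pow_of_le_one hA hA1 (Nat.le_mul_of_pos_right m hm')
  have e3 := add_pow_le ha hA (m * m')
  have e4 : (2 : ℝ) ^ (m * m' - 1) ≤ 2 ^ (m * m') :=
    pow_le_pow_right₀ (by norm_num) (Nat.sub_le _ _)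
  have e5 : C₀ ≤ |C₀| := le_abs_self C₀
  have e6 : (a ^ (m * m') + A ^ (m * m')) * T ≤ 2 * |C₀| := by
    calc (a ^ (m * m') + A ^ (m * m')) * T ≤ (a ^ m' + A ^ m) * T :=
          mul_le_mul_of_nonneg_right (add_le_add e1 e2) hT
      _ = a ^ m' * T + A ^ m * T := by ring
      _ ≤ 2 * |C₀| := by linarith
  have e7 : 0 ≤ (a ^ (m * m') + A ^ (m * m')) * T := by positivity
  calc (a + A) ^ (m * m') * T ≤ 2 ^ (m * m' - 1) * (a ^ (m * m') + A ^ (m * m')) * T :=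
        mul_le_mul_of_nonneg_right e3 hT
    _ = 2 ^ (m * m' - 1) * ((a ^ (m * m') + A ^ (m * m')) * T) := by ring
    _ ≤ 2 ^ (m * m') * ((a ^ (m * m') + A ^ (m * m')) * T) :=
        mul_le_mul_of_nonneg_right e4 e7
    _ ≤ 2 ^ (m * m') * (2 * |C₀|) := mul_le_mul_of_nonneg_left e6 (by positivity)
    _ = 2 ^ (m * m' + 1) * |C₀| := by ring

private theorem cm_ratio_pow {X C' N E T K : ℝ} {ρ M C : ℕ} (hX : 0 ≤ X) (hC' : 0 ≤ C')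
    (hN : 1 ≤ N) (hE : 0 ≤ E) (hT : 0 ≤ T) (h : X ≤ C' * N ^ ρ * E) (hK : E ^ M * T ≤ K)
    (hC1 : C' ^ M * K ≤ C) (hC2 : ρ * M ≤ C) (hC3 : 1 ≤ C) : X ^ M * T ≤ (C * N) ^ C := by
  have hN0 : 0 ≤ N := by linarith
  have hK0 : 0 ≤ K := le_trans (by positivity) hK
  have hCr : (1 : ℝ) ≤ (C : ℝ) := by exact_mod_cast hC3
  calc X ^ M * T ≤ (C' * N ^ ρ * E) ^ M * T :=
        mul_le_mul_of_nonneg_right (pow_le_pow_left₀ hX h M) hT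
    _ = C' ^ M * N ^ (ρ * M) * (E ^ M * T) := by
        rw [mul_pow, mul_pow, ← pow_mul]
        ring
    _ ≤ C' ^ M * N ^ (ρ * M) * K := mul_le_mul_of_nonneg_left hK (by positivity)
    _ = C' ^ M * K * N ^ (ρ * M) := by ring
    _ ≤ C * N ^ C :=
        mul_le_mul hC1 (pow_le_pow_right₀ hN hC2) (by positivity) (by positivity)
    _ ≤ (C : ℝ) ^ C * N ^ C := by
        refine mul_le_mul_of_nonneg_right ?_ (by positivity)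
        exact le_self_pow₀ hCr (by omega)
    _ = (C * N) ^ C := by rw [mul_pow]

theorem cm_ratio {z₀ z₁ : ℍ} {r r' : ℕ} {c c' : ℂ} {B B' δ₀ δ₁ : ℝ} (h₀ : JExp z₀ r c B δ₀)
    (h₁ : JExp z₁ r' c' B' δ₁) {α : ℂ} (hα : α ≠ 0) {k l : ℕ} (hk : 0 < k) (hl : 0 < l) :
    ∃ δ : ℝ, 0 < δ ∧ ∀ (m m' : ℕ) (C₀ : ℝ), 0 < m → 0 < m' → ∃ C M : ℕ, 0 < C ∧ 0 < M ∧
      ∀ (T : ℝ) (τ τ' : ℍ) (g : Matrix (Fin 2) (Fin 2) ℤ), 1 ≤ T → 0 < g.det →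
        Maps g (z₀ : ℂ) (z₁ : ℂ) → Maps g (τ : ℂ) (τ' : ℂ) → jInv τ ≠ jInv z₀ →
        jInv τ' ≠ jInv z₁ → ‖(τ : ℂ) - z₀‖ ≤ δ → ‖(τ' : ℂ) - z₁‖ ≤ δ →
        ‖(τ : ℂ) - z₀‖ ^ m' * T ≤ C₀ →
        ‖(jInv τ - jInv z₀) ^ k - α * (jInv τ' - jInv z₁) ^ l‖ ^ m * T ≤
          C₀ * ‖(jInv τ' - jInv z₁) ^ l‖ ^ m →
        T ≤ C ∨ (k * r = l * r' ∧
          ‖(g.det : ℂ) ^ (k * r) - c ^ k / (α * c' ^ l) *
            ((g 1 0 : ℂ) * z₀ + (g 1 1 : ℂ)) ^ (2 * (k * r))‖ ^ M * T ≤ (C * g.det) ^ C) := by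
  have hc : c ≠ 0 := h₀.hc
  have hc' : c' ≠ 0 := h₁.hc
  have hz₀ : 0 < z₀.im := z₀.im_pos
  have hz₁ : 0 < z₁.im := z₁.im_pos
  have hκ : (0 : ℝ) ≤ 1 / z₀.im := by positivity
  have hQ : 0 < z₁.im / z₀.im := div_pos hz₁ hz₀
  have hα0 : 0 < ‖α‖ := norm_pos_iff.2 hα
  have hc'0 : 0 < ‖c'‖ := norm_pos_iff.2 hc'
  have hB0 : (0 : ℝ) ≤ max B B' := h₀.hC.le.trans (le_max_left _ _)
  obtain ⟨C₂, δ₂, hC₂, hδ₂, hnum⟩ := cm_num hc hc' hα hκ hQ hB0 h₀.hr h₁.hr hk hl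
  have hδ₀ := h₀.hδ
  have hδ₁ := h₁.hδ
  refine ⟨min 1 (min δ₂ (min δ₀ δ₁)), by positivity, ?_⟩
  intro m m' C₀ hm hm'
  obtain ⟨Q, hQd⟩ : ∃ Q, Q = z₁.im / z₀.im := ⟨_, rfl⟩
  rw [← hQd] at hQ hnum
  obtain ⟨K, hK⟩ : ∃ K, K = (2 : ℝ) ^ (m * m' + 1) * |C₀| := ⟨_, rfl⟩
  have hK0 : 0 ≤ K := by
    rw [hK]
    positivity
  obtain ⟨C', hC'⟩ : ∃ C', C' = C₂ / (‖α‖ * ‖c'‖ ^ l * Q ^ (k * r)) := ⟨_, rfl⟩
  have hC'0 : 0 ≤ C' := by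
    rw [hC']
    positivity
  obtain ⟨n, hn⟩ := exists_nat_ge (|C₀| + C₂ ^ (m * m') * K + C' ^ (m * m') * K)
  have p1 : 0 ≤ C₂ ^ (m * m') * K := by positivity
  have p2 : 0 ≤ C' ^ (m * m') * K := by positivity
  have p3 : 0 ≤ |C₀| := abs_nonneg C₀
  refine ⟨n + k * r * (m * m') + 1, m * m', by omega, Nat.mul_pos hm hm', ?_⟩
  have hnC : (n : ℝ) ≤ ((n + k * r * (m * m') + 1 : ℕ) : ℝ) := by
    exact_mod_cast (by omega : n ≤ n + k * r * (m * m') + 1)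
  intro T τ τ' g hT hg hmz hmτ hj hj' hu hw hu' hA'
  have hT0 : 0 ≤ T := by linarith
  have hu1 : ‖(τ : ℂ) - z₀‖ ≤ 1 := hu.trans (min_le_left _ _)
  have hu2 : ‖(τ : ℂ) - z₀‖ ≤ δ₂ := hu.trans ((min_le_right _ _).trans (min_le_left _ _))
  have hu3 : ‖(τ : ℂ) - z₀‖ ≤ δ₀ :=
    hu.trans ((min_le_right _ _).trans ((min_le_right _ _).trans (min_le_left _ _)))
  have hw3 : ‖(τ' : ℂ) - z₁‖ ≤ δ₁ :=
    hw.trans ((min_le_right _ _).trans ((min_le_right _ _).trans (min_le_right _ _)))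
  have hune : (τ : ℂ) - z₀ ≠ 0 := by
    intro h
    exact hj (congrArg jInv (UpperHalfPlane.ext (sub_eq_zero.1 h)))
  have hene : (jInv τ' - jInv z₁) ^ l ≠ 0 := pow_ne_zero _ (sub_ne_zero.2 hj')
  have hen : 0 < ‖(jInv τ' - jInv z₁) ^ l‖ := norm_pos_iff.2 hene
  obtain ⟨A, hAd⟩ : ∃ A, A = ‖(jInv τ - jInv z₀) ^ k - α * (jInv τ' - jInv z₁) ^ l‖ /
      ‖(jInv τ' - jInv z₁) ^ l‖ := ⟨_, rfl⟩
  have hA0 : 0 ≤ A := by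
    rw [hAd]
    positivity
  have hAe : ‖(jInv τ - jInv z₀) ^ k - α * (jInv τ' - jInv z₁) ^ l‖ =
      A * ‖(jInv τ' - jInv z₁) ^ l‖ := by
    rw [hAd, div_mul_cancel₀ _ hen.ne']
  have hAm : A ^ m * T ≤ C₀ := by
    rw [hAe, mul_pow] at hA'
    have h1 : A ^ m * T * ‖(jInv τ' - jInv z₁) ^ l‖ ^ m ≤ C₀ * ‖(jInv τ' - jInv z₁) ^ l‖ ^ m := by
      refine le_trans (le_of_eq ?_) hA'
      ring
    exact le_of_mul_le_mul_right h1 (pow_pos hen m)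
  rcases lt_or_ge 1 A with hA1 | hA1
  · left
    have h1 : T ≤ A ^ m * T := by
      have h2 : 1 ≤ A ^ m := one_le_pow₀ hA1.le
      nlinarith
    have h2 : C₀ ≤ |C₀| := le_abs_self C₀
    linarith
  · have hE := cm_ratio_E (norm_nonneg ((τ : ℂ) - z₀)) hu1 hA0 hA1 hT0 hm hm' hu' hAm
    rw [← hK] at hE
    have hE0 : 0 ≤ ‖(τ : ℂ) - z₀‖ + A := by positivity
    obtain ⟨gD, g2, g3, g4, g5⟩ := cm_geom hg hmz
    rw [← hQd] at g3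
    have x0 : ‖jInv τ - jInv z₀ - c * ((τ : ℂ) - z₀) ^ r‖ ≤
        max B B' * ‖(τ : ℂ) - z₀‖ ^ (r + 1) :=
      (h₀.bd τ hu3).trans (mul_le_mul_of_nonneg_right (le_max_left _ _) (by positivity))
    have x1 : ‖jInv τ' - jInv z₁ - c' * ((τ' : ℂ) - z₁) ^ r'‖ ≤
        max B B' * ‖(τ' : ℂ) - z₁‖ ^ (r' + 1) :=
      (h₁.bd τ' hw3).trans (mul_le_mul_of_nonneg_right (le_max_right _ _) (by positivity))
    obtain ⟨y1, y2⟩ := hnum _ _ _ _ _ _ A hune hA0 hu2 g3 g4 (g5 τ τ' hmτ) x0 x1 hAe.le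
    by_cases hkl : k * r = l * r'
    · right
      refine ⟨hkl, ?_⟩
      have y3 := y2 hkl
      have hdet : (1 : ℝ) ≤ (g.det : ℝ) := by exact_mod_cast hg
      have hdet0 : (0 : ℝ) < (g.det : ℝ) := by linarith
      obtain ⟨D₀, hD₀⟩ : ∃ D₀, D₀ = (g 1 0 : ℂ) * z₀ + (g 1 1 : ℂ) := ⟨_, rfl⟩
      rw [← hD₀] at gD g2 g3 y3 ⊢
      have hDn : ‖D₀‖ ^ 2 = (g.det : ℝ) / Q := by
        rw [hQd, div_div_eq_mul_div, eq_div_iff hz₁.ne']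
        exact g2
      refine cm_ratio_pow (C' := C') (E := ‖(τ : ℂ) - z₀‖ + A) (K := K) (ρ := k * r)
        (norm_nonneg _) hC'0 hdet hE0 hT0 ?_ hE ?_ (by omega) (by omega)
      · have z1 : (g.det : ℂ) ^ (k * r) - c ^ k / (α * c' ^ l) * D₀ ^ (2 * (k * r)) =
            -(D₀ ^ (2 * (k * r)) * ((c ^ k - α * c' ^ l * ((g.det : ℂ) / D₀ ^ 2) ^ (k * r)) /
              (α * c' ^ l))) := by
          have z2 : D₀ ^ (2 * (k * r)) ≠ 0 := pow_ne_zero _ gD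
          have z3 : α * c' ^ l ≠ 0 := mul_ne_zero hα (pow_ne_zero _ hc')
          rw [div_pow, ← pow_mul]
          field_simp
          ring
        rw [z1, norm_neg, norm_mul, norm_div, norm_mul, norm_pow, norm_pow, pow_mul, hDn, div_pow]
        calc (g.det : ℝ) ^ (k * r) / Q ^ (k * r) *
              (‖c ^ k - α * c' ^ l * ((g.det : ℂ) / D₀ ^ 2) ^ (k * r)‖ / (‖α‖ * ‖c'‖ ^ l))
            ≤ (g.det : ℝ) ^ (k * r) / Q ^ (k * r) *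
              (C₂ * (‖(τ : ℂ) - z₀‖ + A) / (‖α‖ * ‖c'‖ ^ l)) := by
              gcongr
          _ = C' * (g.det : ℝ) ^ (k * r) * (‖(τ : ℂ) - z₀‖ + A) := by
              rw [hC']
              field_simp
      · exact (by linarith : C' ^ (m * m') * K ≤ (n : ℝ)).trans hnC
    · left
      have y3 := y1 hkl
      have y4 : 1 ≤ (C₂ * (‖(τ : ℂ) - z₀‖ + A)) ^ (m * m') := one_le_pow₀ y3
      calc T = 1 * T := (one_mul T).symm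
        _ ≤ (C₂ * (‖(τ : ℂ) - z₀‖ + A)) ^ (m * m') * T := mul_le_mul_of_nonneg_right y4 hT0
        _ = C₂ ^ (m * m') * ((‖(τ : ℂ) - z₀‖ + A) ^ (m * m') * T) := by
            rw [mul_pow]
            ring
        _ ≤ C₂ ^ (m * m') * K := mul_le_mul_of_nonneg_left hE (by positivity)
        _ ≤ (n : ℝ) := by linarith
        _ ≤ _ := hnC

end Pool.Agent.LGO
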