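import Mathlib
import Pool.Agent.LGO.C.LocJ
import Pool.Agent.LGO.C.Pts
import Pool.Agent.LGO.C.Liou
import Pool.Agent.LGO.C.Ratio
import Pool.Agent.LGO.C.AlgC
import Pool.Agent.LGO.C.FinG

/-!
# LGO/C: one pair of CM points

Proof of `cm_cls`.  `cm_jexp` for `z₀` and `z₁`: `r, c` and `r', c'`.  `cm_ratio` gives `δ`; `cm_pts` for this `δ` gives `C₁`
and `m'`; `cm_ratio` for `m`, `m'` and the constant `max C₀ C₁` gives `C₂`, `M`.  `cm_liou_lin` gives `C₃`.  Let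
`α₁ = c^k / (α c'^l) = (c^k / c'^l) / α`, `ρ = k r`.
If some `g₀` of positive determinant maps `z₀` to `z₁` and `k r = l r'` then `α₁` is algebraic by `cm_alg` and `cm_liou_pow`
(for `z₀`, `α₁`, `ρ`) gives `C₄`, `cm_fin` (`z₀`, `z₁`, `ρ`, `α₁`) gives `N₀`; otherwise `N₀ = 0`.
Let `T, Y, Z` be as in the claim, `N = mdeg Y Z ≥ 1`.  If `T < max C₁ 1` we are done: `T ≤ C ≤ (C N) ^ C` for `C ≥ C₁ + 1`.
Otherwise `cm_pts` gives `τ, τ', g`, `det g = N`, all entries `≤ H = C₁ N`.  Let `L = z₁ (g10 z₀ + g11) - (g00 z₀ + g01)`.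
* `L ≠ 0`: `1 ≤ (C₃ H) ^ C₃ ‖L‖` (`cm_liou_lin`), so `T ≤ (C₃ H) ^ (C₃ m') ‖L‖ ^ m' T ≤ (C₃ C₁ N) ^ (C₃ m') (C₁ N) ^ m'`.
* `L = 0`: `Maps g z₀ z₁`.  `cm_ratio`: `T ≤ C₂`, or `k r = l r'` and
  `‖N^ρ - α₁ D₀^(2ρ)‖ ^ M T ≤ (C₂ N) ^ C₂`.  In the second case `cm_liou_pow`: `N^ρ - α₁ D₀^(2ρ) = 0`, then `cm_fin` gives
  `N ≤ N₀`, a contradiction; or `1 ≤ (C₄ H) ^ C₄ ‖..‖`, and `T ≤ (C₄ H) ^ (C₄ M) (C₂ N) ^ C₂`.
All the bounds are `≤ (C N) ^ C` for a large natural number `C` (`N ≥ 1`; for real constants take ceilings).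
-/

namespace Pool.Agent.LGO

open UpperHalfPlane Pool.Agent.Hhelper14.ZP

/-- a bound `A N ^ p` is at most `(C N) ^ C` -/
theorem Cls_bd {A : ℝ} {p C N : ℕ} (hC : 1 ≤ C) (hA : A ≤ C) (hp : p ≤ C) (hN : 1 ≤ N) :
    A * (N : ℝ) ^ p ≤ ((C : ℝ) * N) ^ C := by
  have hC' : (1 : ℝ) ≤ C := by exact_mod_cast hC
  have hN' : (1 : ℝ) ≤ N := by exact_mod_cast hN
  have h1 : (C : ℝ) ≤ (C : ℝ) ^ C := le_self_pow₀ hC' (by omega)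
  have h2 : (N : ℝ) ^ p ≤ (N : ℝ) ^ C := pow_le_pow_right₀ hN' hp
  rw [mul_pow]
  calc A * (N : ℝ) ^ p ≤ (C : ℝ) * (N : ℝ) ^ p := by gcongr
    _ ≤ (C : ℝ) ^ C * (N : ℝ) ^ C := by gcongr

/-- elimination of a small number `x` with a Liouville lower bound -/
theorem Cls_elim {a b x T : ℝ} {e n : ℕ} (ha : 0 ≤ a) (hT : 0 ≤ T)
    (h1 : 1 ≤ a ^ e * x) (h2 : x ^ n * T ≤ b) : T ≤ a ^ (e * n) * b := by
  have h3 : 1 ≤ (a ^ e * x) ^ n := one_le_pow₀ h1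
  calc T = 1 * T := (one_mul T).symm
    _ ≤ (a ^ e * x) ^ n * T := by gcongr
    _ = a ^ (e * n) * (x ^ n * T) := by rw [mul_pow, ← pow_mul, mul_assoc]
    _ ≤ a ^ (e * n) * b := by gcongr

/-- the Liouville bound of the second kind, for all `g` with large determinant -/
theorem Cls_liou {z₀ z₁ : ℍ} (hz₀ : IsAlgebraic ℚ (z₀ : ℂ)) (hβ : IsAlgebraic ℚ (jInv z₀))
    (hγ : IsAlgebraic ℚ (jInv z₁)) {α : ℂ} (hα : IsAlgebraic ℚ α) {k l : ℕ} (hk : 0 < k)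
    (hl : 0 < l) {r r' : ℕ} {c c' : ℂ} {B B' δ₀ δ₁ : ℝ}
    (h₀ : JExp z₀ r c B δ₀) (h₁ : JExp z₁ r' c' B' δ₁) :
    ∃ C N₀ : ℕ, ∀ (g : Matrix (Fin 2) (Fin 2) ℤ) (H : ℝ), 0 < g.det → Prim g →
      Maps g (z₀ : ℂ) (z₁ : ℂ) → k * r = l * r' → (N₀ : ℤ) < g.det → 1 ≤ H →
      (∀ i j, |(g i j : ℝ)| ≤ H) →
      1 ≤ (C * H) ^ C * ‖(g.det : ℂ) ^ (k * r) - c ^ k / (α * c' ^ l) *
            ((g 1 0 : ℂ) * z₀ + (g 1 1 : ℂ)) ^ (2 * (k * r))‖ := by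
  by_cases hex : ∃ g₀ : Matrix (Fin 2) (Fin 2) ℤ, 0 < g₀.det ∧ Maps g₀ (z₀ : ℂ) (z₁ : ℂ) ∧
      k * r = l * r'
  · obtain ⟨g₀, hg₀, hm₀, hkl⟩ := hex
    have halg : IsAlgebraic ℚ (c ^ k / (α * c' ^ l)) := by
      have h := cm_alg hz₀ hβ hγ hg₀ hm₀ h₀ h₁ hk hl hkl
      have e : c ^ k / (α * c' ^ l) = (c ^ k / c' ^ l) * α⁻¹ := by
        rw [mul_comm α, ← div_div, div_eq_mul_inv]
      rw [e]
      exact h.mul hα.inv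
    obtain ⟨C, _, hC⟩ := cm_liou_pow hz₀ halg (k * r)
    obtain ⟨N₀, hN₀⟩ := cm_fin z₀ z₁ (ρ := k * r) (Nat.mul_pos hk h₀.hr) (c ^ k / (α * c' ^ l))
    refine ⟨C, N₀, fun g H hg hp hm _ hN hH hent => ?_⟩
    rcases hC g H hH hent with h | h
    · exfalso
      have := hN₀ g hg hp hm (sub_eq_zero.1 h)
      omega
    · exact h
  · refine ⟨0, 0, fun g H hg hp hm hkl _ _ _ => ?_⟩
    exact absurd ⟨g, hg, hm, hkl⟩ hex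

theorem cm_cls {z₀ z₁ : ℍ} (hz₀ : IsAlgebraic ℚ (z₀ : ℂ)) (hz₁ : IsAlgebraic ℚ (z₁ : ℂ))
    (hβ : IsAlgebraic ℚ (jInv z₀)) (hγ : IsAlgebraic ℚ (jInv z₁)) {α : ℂ} (hα0 : α ≠ 0)
    (hα : IsAlgebraic ℚ α) {k l m : ℕ} (hk : 0 < k) (hl : 0 < l) (hm : 0 < m) (C₀ : ℝ) :
    ∃ C N₀ : ℕ, ∀ (T : ℝ) (Y Z : ℂ), Y ≠ jInv z₀ → Z ≠ jInv z₁ →
      (∃ N, 0 < N ∧ IsogDeg N Y Z) → N₀ < mdeg Y Z →
      ‖Y - jInv z₀‖ ^ m * T ≤ C₀ → ‖Z - jInv z₁‖ ^ m * T ≤ C₀ →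
      ‖(Y - jInv z₀) ^ k - α * (Z - jInv z₁) ^ l‖ ^ m * T ≤ C₀ * ‖(Z - jInv z₁) ^ l‖ ^ m →
      T ≤ (C * mdeg Y Z) ^ C := by
  obtain ⟨r, c, B, δ₀, h₀⟩ := cm_jexp z₀
  obtain ⟨r', c', B', δ₁, h₁⟩ := cm_jexp z₁
  obtain ⟨δ, hδ, hrat⟩ := cm_ratio h₀ h₁ hα0 hk hl
  obtain ⟨C₁, m', hC₁, hm', hpts⟩ := cm_pts z₀ z₁ C₀ hm hδ
  obtain ⟨C₂, M, hC₂, hM, hrat⟩ := hrat m m' (max C₀ C₁) hm hm'
  obtain ⟨C₃, hC₃, hlin⟩ := cm_liou_lin hz₀ hz₁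
  obtain ⟨C₄, N₀, hpow⟩ := Cls_liou hz₀ hβ hγ hα hk hl h₀ h₁
  obtain ⟨c₁, hc₁⟩ := exists_nat_ge C₁
  obtain ⟨c₂, hc₂⟩ := exists_nat_ge ((C₃ * C₁) ^ (C₃ * m') * C₁ ^ m')
  obtain ⟨c₃, hc₃⟩ := exists_nat_ge ((C₄ * C₁) ^ (C₄ * M) * (C₂ : ℝ) ^ C₂)
  refine ⟨1 + c₁ + c₂ + c₃ + C₂ + (C₃ * m' + m') + (C₄ * M + C₂), N₀,
    fun T Y Z hY hZ hNex hN hT1 hT2 hT3 => ?_⟩
  set C : ℕ := 1 + c₁ + c₂ + c₃ + C₂ + (C₃ * m' + m') + (C₄ * M + C₂) with hCdef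
  have hN1 : 1 ≤ mdeg Y Z := mdeg_pos hNex
  have hCone : 1 ≤ C := by omega
  have hb1 : (c₁ : ℝ) ≤ C := by
    have : c₁ ≤ C := by omega
    exact_mod_cast this
  have hb2 : (c₂ : ℝ) ≤ C := by
    have : c₂ ≤ C := by omega
    exact_mod_cast this
  have hb3 : (c₃ : ℝ) ≤ C := by
    have : c₃ ≤ C := by omega
    exact_mod_cast this
  have hb4 : (C₂ : ℝ) ≤ C := by
    have : C₂ ≤ C := by omega
    exact_mod_cast this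
  by_cases hT : T < C₁
  · have := Cls_bd (A := C₁) (p := 0) hCone (hc₁.trans hb1) (Nat.zero_le _) hN1
    rw [pow_zero, mul_one] at this
    exact hT.le.trans this
  rw [not_lt] at hT
  have hT1' : 1 ≤ T := hC₁.trans hT
  have hT0 : 0 ≤ T := by linarith
  obtain ⟨τ, τ', g, hτ, hτ', hmaps, hdet, hdet0, hprim, hent, hd1, hd2, hu, hw, hL⟩ :=
    hpts T Y Z hT hNex hT1 hT2
  have hdetR : (g.det : ℝ) = (mdeg Y Z : ℝ) := by rw [hdet]; simp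
  have hNR : (1 : ℝ) ≤ (mdeg Y Z : ℝ) := by exact_mod_cast hN1
  have hH1 : 1 ≤ C₁ * g.det := by
    rw [hdetR]
    nlinarith
  have hC₁0 : 0 ≤ C₁ := by linarith
  rcases hlin g (C₁ * g.det) hH1 hent with hL0 | hL1
  · have hmap : Maps g (z₀ : ℂ) (z₁ : ℂ) := by
      rw [Maps]
      exact sub_eq_zero.1 hL0
    have hYτ : jInv τ ≠ jInv z₀ := by rw [hτ]; exact hY
    have hZτ : jInv τ' ≠ jInv z₁ := by rw [hτ']; exact hZ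
    have hT3' : ‖(jInv τ - jInv z₀) ^ k - α * (jInv τ' - jInv z₁) ^ l‖ ^ m * T ≤
          max C₀ C₁ * ‖(jInv τ' - jInv z₁) ^ l‖ ^ m := by
      rw [hτ, hτ']
      refine hT3.trans ?_
      gcongr
      exact le_max_left _ _
    rcases hrat T τ τ' g hT1' hdet0 hmap hmaps hYτ hZτ hd1 hd2 (hu.trans (le_max_right _ _))
        hT3' with h | ⟨hkr, h⟩
    · have := Cls_bd (A := C₂) (p := 0) hCone hb4 (Nat.zero_le _) hN1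
      rw [pow_zero, mul_one] at this
      exact h.trans this
    · have hN' : (N₀ : ℤ) < g.det := by rw [hdet]; exact_mod_cast hN
      have h5 := hpow g (C₁ * g.det) hdet0 hprim hmap hkr hN' hH1 hent
      have h6 := Cls_elim (by positivity) hT0 h5 h
      have h7 := Cls_bd (A := (C₄ * C₁) ^ (C₄ * M) * (C₂ : ℝ) ^ C₂) (p := C₄ * M + C₂) hCone
        (hc₃.trans hb3) (by omega) hN1
      refine h6.trans (le_trans (le_of_eq ?_) h7)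
      rw [hdetR]
      ring
  · have h6 := Cls_elim (by positivity) hT0 hL1 hL
    have h7 := Cls_bd (A := (C₃ * C₁) ^ (C₃ * m') * C₁ ^ m') (p := C₃ * m' + m') hCone
      (hc₂.trans hb2) (by omega) hN1
    refine h6.trans (le_trans (le_of_eq ?_) h7)
    rw [hdetR]
    ring

end Pool.Agent.LGO
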