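import Mathlib
import Pool.Agent.Hhelper14.ZPL.KClosed

/-!
# LGO/C: two functions with an algebraic relation have comparable powers

Proof of `cm_limit`.  Let `S` be the support of `Ψ` (nonempty) and `t_s(n) = c_s X n ^ p Y n ^ q`, `s = (p, q)`, the terms:
all different from zero, `∑_s t_s(n) = 0` for every `n` (`MvPolynomial.eval₂_eq'`).  For every `n` choose `s ∈ S` with
`‖t_s(n)‖` maximal (`Finset.exists_max_image`).  The sum of the other terms has the same absolute value, so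
there is `s' ≠ s` in `S` with `‖t_s(n)‖ ≤ #S ‖t_s'(n)‖` (otherwise the sum of the others is smaller; in particular
`#S ≥ 2`).  By the pigeonhole principle (finitely many pairs) there is a pair `(s, s')`, `s ≠ s'`, which occurs for
infinitely many `n`: a subsequence with a constant pair (`Filter.Frequently`, `Filter.extraction_of_frequently_atTop`).
Along it `‖X n‖ ^ p ‖Y n‖ ^ q / (‖X n‖ ^ p' ‖Y n‖ ^ q')` lies between two positive constants.  Not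
(`p ≥ p'` and `q ≥ q'`): the quotient would be `‖X n‖ ^ (p - p') ‖Y n‖ ^ (q - q')` which tends to `0` as `(p, q) ≠ (p', q')`.
Not (`p ≤ p'` and `q ≤ q'`): the same for the inverse.  So `p > p'`, `q < q'` or `p < p'`, `q > q'`; let `k = |p - p'|`,
`l = |q - q'|`: `‖X n ^ k / Y n ^ l‖` lies between two positive constants (in the second case take the inverse of the
quotient).  By compactness a further subsequence of `X n ^ k / Y n ^ l` converges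
(`tendsto_subseq_of_bounded`), to `α` with `‖α‖` at least the lower constant, so `α ≠ 0`.
-/

namespace Pool.Agent.LGO

open MvPolynomial Filter Topology Pool.Agent.Hhelper14.ZPL

private theorem LimB_pair {ι : Type*} [DecidableEq ι] {S : Finset ι} (f : ι → ℂ)
    (hS : S.Nonempty) (hf : ∀ s ∈ S, f s ≠ 0) (h : ∑ s ∈ S, f s = 0) :
    ∃ s ∈ S, ∃ s' ∈ S, s ≠ s' ∧ ‖f s‖ ≤ (S.card : ℝ) * ‖f s'‖ ∧ ‖f s'‖ ≤ ‖f s‖ := by
  obtain ⟨s, hs, hmax⟩ := Finset.exists_max_image S (fun s => ‖f s‖) hS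
  have hne : (S.erase s).Nonempty := by
    rw [Finset.nonempty_iff_ne_empty]
    intro h0
    rw [← Finset.add_sum_erase S f hs, h0, Finset.sum_empty, add_zero] at h
    exact hf s hs h
  obtain ⟨s', hs', hmax'⟩ := Finset.exists_max_image (S.erase s) (fun s => ‖f s‖) hne
  have hs'S := Finset.mem_of_mem_erase hs'
  refine ⟨s, hs, s', hs'S, (Finset.ne_of_mem_erase hs').symm, ?_, hmax s' hs'S⟩
  have h1 : f s = -∑ x ∈ S.erase s, f x := by
    rw [← Finset.add_sum_erase S f hs] at h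
    linear_combination h
  calc ‖f s‖ = ‖∑ x ∈ S.erase s, f x‖ := by rw [h1, norm_neg]
    _ ≤ ∑ x ∈ S.erase s, ‖f x‖ := norm_sum_le _ _
    _ ≤ ∑ x ∈ S.erase s, ‖f s'‖ := Finset.sum_le_sum fun x hx => hmax' x hx
    _ = ((S.erase s).card : ℝ) * ‖f s'‖ := by rw [Finset.sum_const, nsmul_eq_mul]
    _ ≤ (S.card : ℝ) * ‖f s'‖ := by
        refine mul_le_mul_of_nonneg_right ?_ (norm_nonneg _)
        exact_mod_cast Finset.card_le_card (Finset.erase_subset _ _)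

private theorem LimB_no {x y : ℕ → ℝ} (hx : Tendsto x atTop (𝓝 0)) (hy : Tendsto y atTop (𝓝 0))
    (hx0 : ∀ n, 0 < x n) (hy0 : ∀ n, 0 < y n) {p q p' q' : ℕ} {B : ℝ} (hpp : p' ≤ p) (hqq : q' ≤ q)
    (hne : ¬ (p = p' ∧ q = q')) (h : ∀ n, x n ^ p' * y n ^ q' ≤ B * (x n ^ p * y n ^ q)) : False := by
  have h1 : ∀ n, 1 ≤ B * (x n ^ (p - p') * y n ^ (q - q')) := by
    intro n
    have h2 := h n
    have h3 : x n ^ p = x n ^ p' * x n ^ (p - p') := by rw [← pow_add]; congr 1; omega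
    have h4 : y n ^ q = y n ^ q' * y n ^ (q - q') := by rw [← pow_add]; congr 1; omega
    rw [h3, h4] at h2
    have h5 : 0 < x n ^ p' * y n ^ q' := mul_pos (pow_pos (hx0 n) _) (pow_pos (hy0 n) _)
    have h6 : (x n ^ p' * y n ^ q') * 1 ≤
        (x n ^ p' * y n ^ q') * (B * (x n ^ (p - p') * y n ^ (q - q'))) := by
      rw [mul_one]
      refine h2.trans (le_of_eq ?_)
      ring
    exact le_of_mul_le_mul_left h6 h5
  have h7 : Tendsto (fun n => B * (x n ^ (p - p') * y n ^ (q - q'))) atTop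
      (𝓝 (B * ((0 : ℝ) ^ (p - p') * (0 : ℝ) ^ (q - q')))) :=
    ((hx.pow _).mul (hy.pow _)).const_mul B
  have h8 : ((0 : ℝ) ^ (p - p') * (0 : ℝ) ^ (q - q')) = 0 := by
    by_cases hp : p = p'
    · have hq : q - q' ≠ 0 := by
        intro h0
        exact hne ⟨hp, by omega⟩
      rw [zero_pow hq, mul_zero]
    · rw [zero_pow (by omega : p - p' ≠ 0), zero_mul]
  rw [h8, mul_zero] at h7
  have h9 := ge_of_tendsto' h7 h1
  linarith

private theorem LimB_kl {x y : ℕ → ℝ} (hx : Tendsto x atTop (𝓝 0)) (hy : Tendsto y atTop (𝓝 0))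
    (hx0 : ∀ n, 0 < x n) (hy0 : ∀ n, 0 < y n) {p q p' q' : ℕ} {A B : ℝ}
    (hne : ¬ (p = p' ∧ q = q')) (h1 : ∀ n, x n ^ p * y n ^ q ≤ A * (x n ^ p' * y n ^ q'))
    (h2 : ∀ n, x n ^ p' * y n ^ q' ≤ B * (x n ^ p * y n ^ q)) :
    ∃ (k l : ℕ) (A' B' : ℝ), 0 < k ∧ 0 < l ∧ (∀ n, x n ^ k ≤ A' * y n ^ l) ∧
      (∀ n, y n ^ l ≤ B' * x n ^ k) := by
  have a1 : ¬ (p' ≤ p ∧ q' ≤ q) := fun hc => LimB_no hx hy hx0 hy0 hc.1 hc.2 hne h2
  have a2 : ¬ (p ≤ p' ∧ q ≤ q') := fun hc => LimB_no hx hy hx0 hy0 hc.1 hc.2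
    (fun hd => hne ⟨hd.1.symm, hd.2.symm⟩) h1
  have key : ∀ {a b : ℝ} {c d : ℕ} {C : ℝ}, 0 < a → 0 < b → a ^ (c + p ⊓ p') * b ^ (q ⊓ q') ≤
      C * (a ^ (p ⊓ p') * b ^ (d + q ⊓ q')) → a ^ c ≤ C * b ^ d := by
    intro a b c d C ha hb hh
    have h5 : 0 < a ^ (p ⊓ p') * b ^ (q ⊓ q') := mul_pos (pow_pos ha _) (pow_pos hb _)
    have h6 : (a ^ (p ⊓ p') * b ^ (q ⊓ q')) * a ^ c ≤
        (a ^ (p ⊓ p') * b ^ (q ⊓ q')) * (C * b ^ d) := by
      refine le_trans (le_of_eq ?_) (hh.trans (le_of_eq ?_))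
      · rw [pow_add]; ring
      · rw [pow_add]; ring
    exact le_of_mul_le_mul_left h6 h5
  have key2 : ∀ {a b : ℝ} {c d : ℕ} {C : ℝ}, 0 < a → 0 < b → a ^ (p ⊓ p') * b ^ (d + q ⊓ q') ≤
      C * (a ^ (c + p ⊓ p') * b ^ (q ⊓ q')) → b ^ d ≤ C * a ^ c := by
    intro a b c d C ha hb hh
    have h5 : 0 < a ^ (p ⊓ p') * b ^ (q ⊓ q') := mul_pos (pow_pos ha _) (pow_pos hb _)
    have h6 : (a ^ (p ⊓ p') * b ^ (q ⊓ q')) * b ^ d ≤
        (a ^ (p ⊓ p') * b ^ (q ⊓ q')) * (C * a ^ c) := by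
      refine le_trans (le_of_eq ?_) (hh.trans (le_of_eq ?_))
      · rw [pow_add]; ring
      · rw [pow_add]; ring
    exact le_of_mul_le_mul_left h6 h5
  rcases le_total p p' with hp | hp
  · have hq : q' ≤ q := by
      by_contra hc
      exact a2 ⟨hp, by omega⟩
    have hp' : p < p' := by
      by_contra hc
      exact a1 ⟨by omega, hq⟩
    have hq' : q' < q := by
      by_contra hc
      exact a2 ⟨hp, by omega⟩
    have e1 : p = p ⊓ p' := by rw [inf_eq_left.2 hp]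
    have e2 : p' = (p' - p) + p ⊓ p' := by rw [inf_eq_left.2 hp]; omega
    have e3 : q' = q ⊓ q' := by rw [inf_eq_right.2 hq]
    have e4 : q = (q - q') + q ⊓ q' := by rw [inf_eq_right.2 hq]; omega
    refine ⟨p' - p, q - q', B, A, by omega, by omega, fun n => ?_, fun n => ?_⟩
    · refine key (hx0 n) (hy0 n) ?_
      rw [← e2, ← e4, ← e1, ← e3]
      exact h2 n
    · refine key2 (hx0 n) (hy0 n) ?_
      rw [← e2, ← e4, ← e1, ← e3]
      exact h1 n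
  · have hq : q ≤ q' := by
      by_contra hc
      exact a1 ⟨hp, by omega⟩
    have hp' : p' < p := by
      by_contra hc
      exact a2 ⟨by omega, hq⟩
    have hq' : q < q' := by
      by_contra hc
      exact a1 ⟨hp, by omega⟩
    have e1 : p' = p ⊓ p' := by rw [inf_eq_right.2 hp]
    have e2 : p = (p - p') + p ⊓ p' := by rw [inf_eq_right.2 hp]; omega
    have e3 : q = q ⊓ q' := by rw [inf_eq_left.2 hq]
    have e4 : q' = (q' - q) + q ⊓ q' := by rw [inf_eq_left.2 hq]; omega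
    refine ⟨p - p', q' - q, A, B, by omega, by omega, fun n => ?_, fun n => ?_⟩
    · refine key (hx0 n) (hy0 n) ?_
      rw [← e2, ← e4, ← e1, ← e3]
      exact h1 n
    · refine key2 (hx0 n) (hy0 n) ?_
      rw [← e2, ← e4, ← e1, ← e3]
      exact h2 n

theorem cm_limit {Ψ : MvPolynomial (Fin 2) Qb} (hΨ : Ψ ≠ 0) {X Y : ℕ → ℂ}
    (hX : Tendsto X atTop (𝓝 0)) (hY : Tendsto Y atTop (𝓝 0)) (hX0 : ∀ n, X n ≠ 0)
    (hY0 : ∀ n, Y n ≠ 0) (h : ∀ n, (aeval ![X n, Y n] Ψ : ℂ) = 0) :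
    ∃ (k l : ℕ) (φ : ℕ → ℕ) (α : ℂ), 0 < k ∧ 0 < l ∧ StrictMono φ ∧ α ≠ 0 ∧
      Tendsto (fun n => X (φ n) ^ k / Y (φ n) ^ l) atTop (𝓝 α) := by
  classical
  let T : (Fin 2 →₀ ℕ) → ℕ → ℂ := fun s n =>
    algebraMap Qb ℂ (coeff s Ψ) * (X n ^ (s 0) * Y n ^ (s 1))
  have hsum : ∀ n, ∑ s ∈ Ψ.support, T s n = 0 := by
    intro n
    have h1 := h n
    rw [aeval_def, eval₂_eq'] at h1
    rw [← h1]
    refine Finset.sum_congr rfl fun s _ => ?_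
    rw [Fin.prod_univ_two]
    rfl
  have hcoef : ∀ s ∈ Ψ.support, algebraMap Qb ℂ (coeff s Ψ) ≠ 0 := by
    intro s hs
    rw [mem_support_iff] at hs
    exact fun h0 => hs ((map_eq_zero (algebraMap Qb ℂ)).1 h0)
  have hT0 : ∀ n, ∀ s ∈ Ψ.support, T s n ≠ 0 := fun n s hs =>
    mul_ne_zero (hcoef s hs) (mul_ne_zero (pow_ne_zero _ (hX0 n)) (pow_ne_zero _ (hY0 n)))
  have hS : Ψ.support.Nonempty := by
    rw [Finset.nonempty_iff_ne_empty]
    exact fun h0 => hΨ (support_eq_empty.1 h0)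
  have hpair : ∀ n, ∃ y : Ψ.support × Ψ.support, (y.1 : Fin 2 →₀ ℕ) ≠ y.2 ∧
      ‖T y.1 n‖ ≤ (Ψ.support.card : ℝ) * ‖T y.2 n‖ ∧ ‖T y.2 n‖ ≤ ‖T y.1 n‖ := by
    intro n
    obtain ⟨s, hs, s', hs', h1, h2, h3⟩ := LimB_pair (fun s => T s n) hS (hT0 n) (hsum n)
    exact ⟨(⟨s, hs⟩, ⟨s', hs'⟩), h1, h2, h3⟩
  choose g hg1 hg2 hg3 using hpair
  obtain ⟨⟨⟨s, hs⟩, ⟨s', hs'⟩⟩, hinf⟩ := Finite.exists_infinite_fiber g
  have hfreq : ∃ᶠ n in atTop, g n = (⟨s, hs⟩, ⟨s', hs'⟩) := by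
    rw [Nat.frequently_atTop_iff_infinite]
    exact Set.infinite_coe_iff.1 hinf
  obtain ⟨φ₁, hφ₁, hφ₁g⟩ := extraction_of_frequently_atTop hfreq
  have hne : s ≠ s' := by
    have h1 := hg1 (φ₁ 0)
    rw [hφ₁g 0] at h1
    exact h1
  have hne' : ¬ (s 0 = s' 0 ∧ s 1 = s' 1) := by
    rintro ⟨h1, h2⟩
    apply hne
    ext i
    fin_cases i
    · exact h1
    · exact h2
  have b1 : ∀ n, ‖T s (φ₁ n)‖ ≤ (Ψ.support.card : ℝ) * ‖T s' (φ₁ n)‖ := by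
    intro n
    have h1 := hg2 (φ₁ n)
    rw [hφ₁g n] at h1
    exact h1
  have b2 : ∀ n, ‖T s' (φ₁ n)‖ ≤ ‖T s (φ₁ n)‖ := by
    intro n
    have h1 := hg3 (φ₁ n)
    rw [hφ₁g n] at h1
    exact h1
  have hTn : ∀ s n, ‖T s n‖ = ‖algebraMap Qb ℂ (coeff s Ψ)‖ * (‖X n‖ ^ (s 0) * ‖Y n‖ ^ (s 1)) := by
    intro s n
    show ‖algebraMap Qb ℂ (coeff s Ψ) * (X n ^ (s 0) * Y n ^ (s 1))‖ = _
    rw [norm_mul, norm_mul, norm_pow, norm_pow]
  set c : ℝ := ‖algebraMap Qb ℂ (coeff s Ψ)‖ with hc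
  set c' : ℝ := ‖algebraMap Qb ℂ (coeff s' Ψ)‖ with hc'
  have hc0 : 0 < c := norm_pos_iff.2 (hcoef s hs)
  have hc'0 : 0 < c' := norm_pos_iff.2 (hcoef s' hs')
  have hXn : Tendsto (fun n => ‖X (φ₁ n)‖) atTop (𝓝 0) := by
    have h1 := (hX.comp hφ₁.tendsto_atTop).norm
    rwa [norm_zero] at h1
  have hYn : Tendsto (fun n => ‖Y (φ₁ n)‖) atTop (𝓝 0) := by
    have h1 := (hY.comp hφ₁.tendsto_atTop).norm
    rwa [norm_zero] at h1
  obtain ⟨k, l, A', B', hk, hl, hA, hB⟩ := LimB_kl (p := s 0) (q := s 1) (p' := s' 0) (q' := s' 1)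
    (A := (Ψ.support.card : ℝ) * c' / c) (B := c / c') hXn hYn
    (fun n => norm_pos_iff.2 (hX0 _)) (fun n => norm_pos_iff.2 (hY0 _)) hne'
    (fun n => by
      have h1 := b1 n
      rw [hTn, hTn, ← hc, ← hc'] at h1
      rw [div_mul_eq_mul_div, le_div_iff₀ hc0]
      calc _ = c * (‖X (φ₁ n)‖ ^ (s 0) * ‖Y (φ₁ n)‖ ^ (s 1)) := by ring
        _ ≤ _ := h1
        _ = _ := by ring)
    (fun n => by
      have h1 := b2 n
      rw [hTn, hTn, ← hc, ← hc'] at h1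
      rw [div_mul_eq_mul_div, le_div_iff₀ hc'0]
      calc _ = c' * (‖X (φ₁ n)‖ ^ (s' 0) * ‖Y (φ₁ n)‖ ^ (s' 1)) := by ring
        _ ≤ _ := h1)
  have hZ1 : ∀ n, ‖X (φ₁ n) ^ k / Y (φ₁ n) ^ l‖ ≤ A' := by
    intro n
    rw [norm_div, norm_pow, norm_pow, div_le_iff₀ (pow_pos (norm_pos_iff.2 (hY0 _)) _)]
    exact hA n
  have hZ2 : ∀ n, 1 ≤ B' * ‖X (φ₁ n) ^ k / Y (φ₁ n) ^ l‖ := by
    intro n
    rw [norm_div, norm_pow, norm_pow, ← mul_div_assoc,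
      le_div_iff₀ (pow_pos (norm_pos_iff.2 (hY0 _)) _), one_mul]
    exact hB n
  obtain ⟨α, -, φ₂, hφ₂, hlim⟩ := tendsto_subseq_of_bounded
    (x := fun n => X (φ₁ n) ^ k / Y (φ₁ n) ^ l) (Metric.isBounded_closedBall (x := (0 : ℂ)) (r := A'))
    (fun n => by rw [mem_closedBall_zero_iff]; exact hZ1 n)
  refine ⟨k, l, φ₁ ∘ φ₂, α, hk, hl, hφ₁.comp hφ₂, ?_, hlim⟩
  rintro rfl
  have h1 : Tendsto (fun n => B' * ‖X (φ₁ (φ₂ n)) ^ k / Y (φ₁ (φ₂ n)) ^ l‖) atTop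
      (𝓝 (B' * ‖(0 : ℂ)‖)) := (hlim.norm).const_mul B'
  rw [norm_zero, mul_zero] at h1
  have h2 := ge_of_tendsto' h1 (fun n => hZ2 (φ₂ n))
  linarith

end Pool.Agent.LGO
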