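import Mathlib
import Pool.Agent.LGO.G.FunF

/-!
# LGO/C: a relation between two coordinates on the curve

Proof of `cm_rel`.  `exists_funQ` (`LGO/G/FunF.lean`): the field `L`, `ψ : Fin 3 → L`, `Dep Qb L`, and
`aeval ψ G = 0 ↔ G = 0` on `V`.  `hdep` for the two elements `ψ b - β` and `ψ c - γ` of `L` (`β`, `γ : Qb`):
`P : Qb[X][X]`, `P ≠ 0`, `ev2 (ψ b - β) (ψ c - γ) P = 0`.  Let `Ψ = ∑_{i,j} (P_i)_j X₀^j X₁^i` in
`MvPolynomial (Fin 2) Qb` (`Ψ = ev2 (X 0) (X 1) P`, or the inverse image under an isomorphism such as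
`MvPolynomial.finSuccEquiv` and `MvPolynomial.isEmptyAlgEquiv`; or define it as a sum of monomials).  `Ψ ≠ 0`:
the coefficient of `X₀^j X₁^i` is `(P_i)_j`.  Let `G = Ψ(X b - β, X c - γ) : MvPolynomial (Fin 3) Qb`
(`MvPolynomial.aeval ![X b - C β, X c - C γ] Ψ`): `aeval ψ G = ev2 (ψ b - β) (ψ c - γ) P = 0`, so `G = 0` on `V`, that is
`Ψ(x_b - β, x_c - γ) = 0` for `x ∈ V`.
-/

namespace Pool.Agent.LGO

open MvPolynomial Pool.Agent.Hhelper14.ZPL

/-- a polynomial with polynomial coefficients as a polynomial in two variables -/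
private theorem Rel_ofP {k : Type} [Field k] (P : Polynomial (Polynomial k)) (hP : P ≠ 0) :
    ∃ Ψ : MvPolynomial (Fin 2) k, Ψ ≠ 0 ∧
      ∀ (L : Type) [Field L] [Algebra k L] (t x : L), aeval ![t, x] Ψ = ev2 t x P := by
  let f : Polynomial (Polynomial k) →+* MvPolynomial (Fin 2) k :=
    Polynomial.eval₂RingHom
      ((Polynomial.aeval (X 0 : MvPolynomial (Fin 2) k)) : Polynomial k →ₐ[k] _).toRingHom (X 1)
  have hfC : ∀ a : Polynomial k, f (Polynomial.C a) = Polynomial.aeval (X 0) a := by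
    intro a
    simp [f]
  have hfX : f Polynomial.X = X 1 := by simp [f]
  refine ⟨f P, ?_, ?_⟩
  · intro h0
    let e : MvPolynomial (Fin 2) k →ₐ[k] Polynomial (Polynomial k) :=
      aeval ![Polynomial.C Polynomial.X, Polynomial.X]
    have h1 : (e : MvPolynomial (Fin 2) k →+* Polynomial (Polynomial k)).comp f =
        RingHom.id (Polynomial (Polynomial k)) := by
      apply Polynomial.ringHom_ext
      · intro a
        rw [RingHom.comp_apply, hfC, RingHom.id_apply]
        induction a using Polynomial.induction_on' with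
        | add p q hp hq => rw [map_add, map_add, hp, hq, map_add]
        | monomial n a =>
          rw [← Polynomial.C_mul_X_pow_eq_monomial, map_mul, map_pow, Polynomial.aeval_C,
            Polynomial.aeval_X, map_mul, map_pow, map_mul, map_pow]
          have h2 : (e : MvPolynomial (Fin 2) k →+* Polynomial (Polynomial k))
              (algebraMap k (MvPolynomial (Fin 2) k) a) = Polynomial.C (Polynomial.C a) :=
            e.commutes a
          have h3 : (e : MvPolynomial (Fin 2) k →+* Polynomial (Polynomial k)) (X 0) =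
              Polynomial.C Polynomial.X := by simp [e]
          rw [h2, h3]
      · rw [RingHom.comp_apply, hfX, RingHom.id_apply]
        simp [e]
    apply hP
    have h2 := RingHom.congr_fun h1 P
    rw [RingHom.comp_apply, h0, map_zero, RingHom.id_apply] at h2
    exact h2.symm
  · intro L _ _ t x
    have h1 : (aeval ![t, x] : MvPolynomial (Fin 2) k →ₐ[k] L).toRingHom.comp f =
        Polynomial.eval₂RingHom (Polynomial.aeval t : Polynomial k →ₐ[k] L).toRingHom x := by
      apply Polynomial.ringHom_ext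
      · intro a
        rw [RingHom.comp_apply, hfC]
        have h2 : (aeval ![t, x] : MvPolynomial (Fin 2) k →ₐ[k] L).toRingHom
            (Polynomial.aeval (X 0) a) = aeval ![t, x] (Polynomial.aeval (X 0) a) := rfl
        rw [h2, ← Polynomial.aeval_algHom_apply, aeval_X]
        simp
      · rw [RingHom.comp_apply, hfX]
        simp
    exact RingHom.congr_fun h1 P

theorem cm_rel {n : ℕ} {V : Set (Fin n → ℂ)} (hV : Pool.Agent.Hhelper14.ZPL.IsIrredClosed V)
    (hVk : KClosed V) (hdim : Pool.Agent.Hhelper14.ZPL.dim V = 1) (i : Fin 3 → Fin n)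
    (b c : Fin 3) {β γ : ℂ} (hβ : IsAlgebraic ℚ β) (hγ : IsAlgebraic ℚ γ) :
    ∃ Ψ : MvPolynomial (Fin 2) Qb, Ψ ≠ 0 ∧
      ∀ x ∈ V, (aeval ![x (i b) - β, x (i c) - γ] Ψ : ℂ) = 0 := by
  obtain ⟨L, hL, hA, ψ, -, hdep, hz, -⟩ := exists_funQ hV hVk hdim i
  let β' : Qb := ⟨β, (mem_algebraicClosure_iff (F := ℚ) (E := ℂ)).mpr hβ⟩
  let γ' : Qb := ⟨γ, (mem_algebraicClosure_iff (F := ℚ) (E := ℂ)).mpr hγ⟩
  obtain ⟨P, hP, hP0⟩ := hdep (ψ b - algebraMap Qb L β') (ψ c - algebraMap Qb L γ')
  obtain ⟨Ψ, hΨ, hΨev⟩ := Rel_ofP P hP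
  have hcomp : ∀ (A : Type) [Field A] [Algebra Qb A] (φ : Fin 3 → A),
      aeval φ (aeval ![X b - C β', X c - C γ'] Ψ : MvPolynomial (Fin 3) Qb) =
        aeval ![φ b - algebraMap Qb A β', φ c - algebraMap Qb A γ'] Ψ := by
    intro A _ _ φ
    have h1 : (aeval φ : MvPolynomial (Fin 3) Qb →ₐ[Qb] A).comp
        (aeval ![X b - C β', X c - C γ'] : MvPolynomial (Fin 2) Qb →ₐ[Qb] _) =
        aeval ![φ b - algebraMap Qb A β', φ c - algebraMap Qb A γ'] := by
      apply MvPolynomial.algHom_ext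
      intro a
      rw [AlgHom.comp_apply, aeval_X, aeval_X]
      fin_cases a
      · simp
      · simp
    exact AlgHom.congr_fun h1 Ψ
  refine ⟨Ψ, hΨ, fun x hx => ?_⟩
  have h2 := (hz (aeval ![X b - C β', X c - C γ'] Ψ)).mp (by rw [hcomp, hΨev, hP0]) x hx
  rw [hcomp] at h2
  exact h2

end Pool.Agent.LGO
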