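import Mathlib
import Pool.Agent.LGO.S.Defs
import Pool.Agent.LGO.G.Geo
import Pool.Agent.LGO.G.RelF
import Pool.Agent.LGO.C.LimA
import Pool.Agent.LGO.C.LimB
import Pool.Agent.LGO.C.Rel

/-!
# LGO/C: the functions near a point at infinity of type A

Proof of `cm_cusp`, compare `cuspA` in `LGO/S/CuspA.lean` (copy from there).  `P` the sequence of `TypeA`; `β`, `γ` are
algebraic (`limit_algebraic`).  The sets `{x ∈ V | x_b = β}`, `{x ∈ V | x_c = γ}` are finite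
(`finite_zero` for `X b - C β`, `X c - C γ` and `hconst`) and so `P m` is eventually outside of them
(`eventually_notMem_finite` for the coordinate `i a`); replace `P` by `P (· + m₀)`.  `Ψ` from `cm_rel`.
`cm_limit` for `X m = P m (i b) - β`, `Y m = P m (i c) - γ` gives `k, l, φ, α`; `α` is algebraic by `cm_limit_alg` for
`X ∘ φ`, `Y ∘ φ`.  Now `geo` for the sequence `P ∘ φ` and the coordinate `a` gives `F`.  Apply it to the pairs `(N, D)` =
`(X b - C β, 1)`, `(X c - C γ, 1)`, `((X b - C β)^k - C α (X c - C γ)^l, (X c - C γ)^l)`: the quotients tend to `0`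
along `P ∘ φ`, and the denominators are not identically zero on `V`.  So there are constants `C_j`, `m_j` with
`‖s N‖ ^ m_j T ≤ C_j ‖s D‖ ^ m_j` for `T = ‖s F(x)‖ ≥ C_j`.
Common constants: `C = 1 + ∑ C_j`, `m = ∑ m_j`: for `T ≥ C_j > 0` the inequality gives `‖s N‖ ≤ ‖s D‖`, hence the
inequality with `m_j` implies the one with `m ≥ m_j`.
-/

namespace Pool.Agent.LGO

open MvPolynomial Filter Topology Pool.Agent.Hhelper14.ZPL

/-- a power of a small quotient -/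
private theorem Cusp_small {r d D f : ℝ} {k M : ℕ} (hr : 0 ≤ r) (hd : 0 ≤ d) (hD : 0 < D)
    (hk : 0 < k) (hkM : k ≤ M) (hDf : D ≤ f) (h : r ^ k * f ≤ D * d ^ k) :
    r ^ M * f ≤ D * d ^ M := by
  have h1 : r ^ k ≤ d ^ k := by
    have h2 : D * r ^ k ≤ D * d ^ k := by
      calc D * r ^ k = r ^ k * D := mul_comm _ _
        _ ≤ r ^ k * f := mul_le_mul_of_nonneg_left hDf (pow_nonneg hr _)
        _ ≤ _ := h
    exact le_of_mul_le_mul_left h2 hD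
  have h3 : r ≤ d := (pow_le_pow_iff_left₀ hr hd hk.ne').1 h1
  obtain ⟨j, rfl⟩ := Nat.exists_eq_add_of_le hkM
  calc r ^ (k + j) * f = r ^ j * (r ^ k * f) := by ring
    _ ≤ d ^ j * (D * d ^ k) :=
        mul_le_mul (pow_le_pow_left₀ hr h3 j) h
          (mul_nonneg (pow_nonneg hr _) (hD.le.trans hDf)) (pow_nonneg hd _)
    _ = D * d ^ (k + j) := by ring

theorem cm_cusp {n : ℕ} {V : Set (Fin n → ℂ)} (hV : Pool.Agent.Hhelper14.ZPL.IsIrredClosed V)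
    (hVk : KClosed V) (hdim : Pool.Agent.Hhelper14.ZPL.dim V = 1) (i : Fin 3 → Fin n)
    (hconst : ∀ a, ∀ c : ℂ, ∃ x ∈ V, x (i a) ≠ c)
    {a b c : Fin 3} {β γ : ℂ} (h : TypeA V i a b c β γ) :
    IsAlgebraic ℚ β ∧ IsAlgebraic ℚ γ ∧
      ∃ (F : MvPolynomial (Fin 3) Qb) (C : ℝ) (m k l : ℕ) (α : ℂ),
      (∀ c : ℂ, ∃ x ∈ V, (aeval (x ∘ i) F : ℂ) ≠ c) ∧ 1 ≤ C ∧ 0 < m ∧ 0 < k ∧ 0 < l ∧ α ≠ 0 ∧
      IsAlgebraic ℚ α ∧
      ∀ s : ℂ ≃+* ℂ, ∀ x ∈ V, C ≤ ‖s (aeval (x ∘ i) F : ℂ)‖ →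
        ‖s (x (i b)) - s β‖ ^ m * ‖s (aeval (x ∘ i) F : ℂ)‖ ≤ C ∧
        ‖s (x (i c)) - s γ‖ ^ m * ‖s (aeval (x ∘ i) F : ℂ)‖ ≤ C ∧
        ‖(s (x (i b)) - s β) ^ k - s α * (s (x (i c)) - s γ) ^ l‖ ^ m *
          ‖s (aeval (x ∘ i) F : ℂ)‖ ≤ C * ‖(s (x (i c)) - s γ) ^ l‖ ^ m := by
  obtain ⟨P, hP, hinf, hb, hc⟩ := h.ex
  have halb : IsAlgebraic ℚ β := limit_algebraic hV hVk hdim i P hP a b hinf hb
  have halc : IsAlgebraic ℚ γ := limit_algebraic hV hVk hdim i P hP a c hinf hc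
  refine ⟨halb, halc, ?_⟩
  have memQb : ∀ {δ : ℂ}, IsAlgebraic ℚ δ → δ ∈ Qb := by
    intro δ hδ
    rw [show Qb = algebraicClosure ℚ ℂ from rfl, mem_algebraicClosure_iff]
    exact hδ
  -- value of the linear polynomials
  have hval : ∀ (d : Fin 3) (δ : ℂ) (hδ : δ ∈ Qb) (x : Fin n → ℂ),
      (aeval (x ∘ i) (X d - C (⟨δ, hδ⟩ : Qb)) : ℂ) = x (i d) - δ := by
    intro d δ hδ x
    rw [map_sub, aeval_X, aeval_C]
    rfl
  -- the sequence avoids the lines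
  have hev : ∀ (d : Fin 3) (δ : ℂ), IsAlgebraic ℚ δ → ∀ᶠ m in atTop, P m (i d) - δ ≠ 0 := by
    intro d δ hδ
    have h1 : {x ∈ V | (aeval (x ∘ i) (X d - C (⟨δ, memQb hδ⟩ : Qb)) : ℂ) = 0}.Finite := by
      refine finite_zero hV hVk hdim i ?_
      obtain ⟨x, hx, hne⟩ := hconst d δ
      refine ⟨x, hx, ?_⟩
      rw [hval]
      exact sub_ne_zero.2 hne
    filter_upwards [eventually_notMem_finite h1 (i a) P hinf] with m hm h2
    refine hm ⟨hP m, ?_⟩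
    rw [hval]
    exact h2
  obtain ⟨m₀, hm₀⟩ := eventually_atTop.1 ((hev b β halb).and (hev c γ halc))
  obtain ⟨Ψ, hΨ, hrel⟩ := cm_rel hV hVk hdim i b c halb halc
  have hsh : Tendsto (fun m : ℕ => m + m₀) atTop atTop := tendsto_add_atTop_nat m₀
  have hXb : Tendsto (fun m => P (m + m₀) (i b) - β) atTop (𝓝 0) := by
    have h1 := (hb.comp hsh).sub_const β
    rw [sub_self] at h1
    exact h1
  have hYc : Tendsto (fun m => P (m + m₀) (i c) - γ) atTop (𝓝 0) := by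
    have h1 := (hc.comp hsh).sub_const γ
    rw [sub_self] at h1
    exact h1
  have hX0 : ∀ m, P (m + m₀) (i b) - β ≠ 0 := fun m => (hm₀ _ (Nat.le_add_left _ _)).1
  have hY0 : ∀ m, P (m + m₀) (i c) - γ ≠ 0 := fun m => (hm₀ _ (Nat.le_add_left _ _)).2
  have hz : ∀ m, (aeval ![P (m + m₀) (i b) - β, P (m + m₀) (i c) - γ] Ψ : ℂ) = 0 :=
    fun m => hrel _ (hP _)
  obtain ⟨k, l, φ, α, hk, hl, hφ, hα, hlim⟩ := cm_limit hΨ hXb hYc hX0 hY0 hz
  have halα : IsAlgebraic ℚ α :=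
    cm_limit_alg hΨ (X := fun m => P (φ m + m₀) (i b) - β) (Y := fun m => P (φ m + m₀) (i c) - γ)
      (hXb.comp hφ.tendsto_atTop) (hYc.comp hφ.tendsto_atTop) (fun m => hX0 _) (fun m => hY0 _)
      (fun m => hz _) hk hl hlim
  have hshφ : Tendsto (fun m : ℕ => φ m + m₀) atTop atTop := hsh.comp hφ.tendsto_atTop
  obtain ⟨F, hF, hgeo⟩ := geo hV hVk hdim i (fun m => P (φ m + m₀)) (fun m => hP _) a
    (hinf.comp hshφ)
  -- the finite coordinates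
  have key : ∀ (d : Fin 3) (δ : ℂ), IsAlgebraic ℚ δ →
      Tendsto (fun m => P (φ m + m₀) (i d) - δ) atTop (𝓝 0) →
      ∃ (C : ℝ) (m : ℕ), 0 < C ∧ 0 < m ∧ ∀ (s : ℂ ≃+* ℂ), ∀ x ∈ V,
          C ≤ ‖s (aeval (x ∘ i) F : ℂ)‖ →
          ‖s (x (i d)) - s δ‖ ^ m * ‖s (aeval (x ∘ i) F : ℂ)‖ ≤ C * 1 ^ m := by
    intro d δ halg hlim
    obtain ⟨C', m', hC', hm', h3⟩ := hgeo (X d - C (⟨δ, memQb halg⟩ : Qb)) 1 (by
      refine ⟨P 0, hP 0, ?_⟩
      rw [map_one]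
      exact one_ne_zero) (by
      simp only [hval, map_one, div_one]
      exact hlim)
    refine ⟨C', m', hC', hm', fun s x hx hle => ?_⟩
    have h5 := h3 s x hx hle
    rw [map_one, map_one, norm_one, hval, map_sub] at h5
    exact h5
  obtain ⟨C1, m1, hC1, hm1, h1⟩ := key b β halb (hXb.comp hφ.tendsto_atTop)
  obtain ⟨C2, m2, hC2, hm2, h2⟩ := key c γ halc (hYc.comp hφ.tendsto_atTop)
  -- the quotient
  obtain ⟨C3, m3, hC3, hm3, h3⟩ := hgeo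
    ((X b - C (⟨β, memQb halb⟩ : Qb)) ^ k - C (⟨α, memQb halα⟩ : Qb) *
      (X c - C (⟨γ, memQb halc⟩ : Qb)) ^ l) ((X c - C (⟨γ, memQb halc⟩ : Qb)) ^ l) (by
      obtain ⟨x, hx, hne⟩ := hconst c γ
      refine ⟨x, hx, ?_⟩
      rw [map_pow, hval]
      exact pow_ne_zero _ (sub_ne_zero.2 hne)) (by
      have h4 : Tendsto (fun m => (P (φ m + m₀) (i b) - β) ^ k / (P (φ m + m₀) (i c) - γ) ^ l - α)
          atTop (𝓝 0) := by
        have h5 := hlim.sub_const α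
        rw [sub_self] at h5
        exact h5
      refine h4.congr fun m => ?_
      have h6 : (P (φ m + m₀) (i c) - γ) ^ l ≠ 0 := pow_ne_zero _ (hY0 _)
      simp only [map_sub, map_mul, map_pow, aeval_X, aeval_C, Function.comp_apply]
      change _ = ((P (φ m + m₀) (i b) - β) ^ k - α * (P (φ m + m₀) (i c) - γ) ^ l) /
        (P (φ m + m₀) (i c) - γ) ^ l
      field_simp)
  refine ⟨F, 1 + C1 + C2 + C3, m1 + m2 + m3, k, l, α, hF, by linarith, by omega, hk, hl, hα, halα,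
    ?_⟩
  intro s x hx hle
  refine ⟨?_, ?_, ?_⟩
  · have h4 : C1 ≤ ‖s (aeval (x ∘ i) F : ℂ)‖ := by linarith
    have h5 := Cusp_small (norm_nonneg _) zero_le_one hC1 hm1 (by omega : m1 ≤ m1 + m2 + m3) h4
      (h1 s x hx h4)
    rw [one_pow, mul_one] at h5
    linarith
  · have h4 : C2 ≤ ‖s (aeval (x ∘ i) F : ℂ)‖ := by linarith
    have h5 := Cusp_small (norm_nonneg _) zero_le_one hC2 hm2 (by omega : m2 ≤ m1 + m2 + m3) h4
      (h2 s x hx h4)
    rw [one_pow, mul_one] at h5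
    linarith
  · have h4 : C3 ≤ ‖s (aeval (x ∘ i) F : ℂ)‖ := by linarith
    have h5 := h3 s x hx h4
    have e1 : s (aeval (x ∘ i) ((X c - C (⟨γ, memQb halc⟩ : Qb)) ^ l) : ℂ) =
        (s (x (i c)) - s γ) ^ l := by
      rw [map_pow, hval, map_pow, map_sub]
    have e2 : s (aeval (x ∘ i) ((X b - C (⟨β, memQb halb⟩ : Qb)) ^ k -
        C (⟨α, memQb halα⟩ : Qb) * (X c - C (⟨γ, memQb halc⟩ : Qb)) ^ l) : ℂ) =
        (s (x (i b)) - s β) ^ k - s α * (s (x (i c)) - s γ) ^ l := by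
      have e3 : (aeval (x ∘ i) ((X b - C (⟨β, memQb halb⟩ : Qb)) ^ k -
        C (⟨α, memQb halα⟩ : Qb) * (X c - C (⟨γ, memQb halc⟩ : Qb)) ^ l) : ℂ) =
          (x (i b) - β) ^ k - α * (x (i c) - γ) ^ l := by
        rw [map_sub, map_mul, map_pow, map_pow, hval, hval, aeval_C]
        rfl
      rw [e3, map_sub, map_mul, map_pow, map_pow, map_sub, map_sub]
    rw [e1, e2] at h5
    have h6 := Cusp_small (norm_nonneg _) (norm_nonneg _) hC3 hm3
      (by omega : m3 ≤ m1 + m2 + m3) h4 h5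
    refine h6.trans (mul_le_mul_of_nonneg_right (by linarith) (by positivity))

end Pool.Agent.LGO
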