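import Mathlib
import Pool.Agent.LGO.S.Near
import Pool.Agent.LGO.Q.Defs
import Pool.Agent.LGO.Q.Ent

/-!
# LGO/C: one CM point and one point which is not CM

Proof of `cm_mix`.  `near z₀ z₁ C₀ hm` gives `C₁`, `m'`.  If `T < C₁` then `T ≤ exp C₁`, fine (`mdeg Y Z ≥ 1`, so
`log (mdeg Y Z + 2) ≥ log 3 ≥ 1`).  Otherwise there is `g` with `N = det g = mdeg Y Z`, entries `≤ C₁ N`, and
`L = z₁ (g10 z₀ + g11) - (g00 z₀ + g01)` satisfies `‖L‖ ^ m' T ≤ (C₁ N) ^ m'`.  `z₀` is CM: `a z₀² + b z₀ + c = 0`, integers,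
`a ≠ 0`.  `form_map` (`LGO/Q/Ent.lean`) for `h = g`: integers `a', b', c'`, not all zero, `≤ C N²`, with
`a' z₁² + b' z₁ + c' = (g00 - g10 z₁)² (a t² + b t + c)` for `Maps g t z₁`, that is `t = (g11 z₁ - g01) / (g00 - g10 z₁)`
(`g00 - g10 z₁ ≠ 0` as `z₁` is not real and `det g ≠ 0`).  With `S = g00 - g10 z₁`: `S t = g11 z₁ - g01 = S z₀ + L`, hence
`S² (a t² + b t + c) = a (S z₀ + L)² + b (S z₀ + L) S + c S² = L (2 a S z₀ + a L + b S)`, of absolute value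
`≤ C N ‖L‖` (`‖S‖`, `‖L‖ ≤ C N`).  `hq` for `τ = z₁`, `H = C N² + 3`: `exp (- C₂ (log H) ^ C₂) ≤ C N ‖L‖`.  So
`T ≤ T (C N ‖L‖ exp (C₂ (log H) ^ C₂)) ^ m' ≤ (C N) ^ m' (C₁ N) ^ m' exp (m' C₂ (log H) ^ C₂) ≤ exp (C (log (N + 2)) ^ C)`.
(Compare the end of the proof of `gap` in `LGO/S/Gap.lean`.)
-/

namespace Pool.Agent.LGO

open UpperHalfPlane Pool.Agent.Hhelper14.ZP

private theorem Mix_size (C₁ m : ℕ) (K : ℝ) (hK : 1 ≤ K) : ∃ C : ℕ, ∀ (N H Q S v : ℝ), 1 ≤ N →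
    3 ≤ H → H ≤ K * (N + 2) ^ 2 → 0 ≤ Q → Q ≤ K * (N + 2) ^ 2 → 0 < S →
    Real.exp (-(C₁ * Real.log H ^ C₁)) ≤ v → v ^ m * S ≤ Q ^ m →
    S ≤ Real.exp (C * Real.log (N + 2) ^ C) := by
  obtain ⟨M, hM⟩ := exists_nat_ge (Real.log K + 2)
  refine ⟨m * M + m * C₁ * M ^ C₁ + C₁ + 1, ?_⟩
  intro N H Q S v hN hH hHK hQ0 hQ hS hv hle
  have hL : 1 ≤ Real.log (N + 2) := by
    rw [Real.le_log_iff_exp_le (by linarith)]
    have := Real.exp_one_lt_d9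
    linarith
  set L := Real.log (N + 2) with hLdef
  have hK0 : 0 ≤ Real.log K := Real.log_nonneg hK
  have hlogK : Real.log (K * (N + 2) ^ 2) = Real.log K + 2 * L := by
    rw [Real.log_mul (by positivity) (by positivity), Real.log_pow, hLdef]
    push_cast
    ring
  have hML : Real.log K + 2 * L ≤ M * L := by nlinarith
  have hlogH : Real.log H ≤ M * L := by
    calc Real.log H ≤ Real.log (K * (N + 2) ^ 2) := Real.log_le_log (by linarith) hHK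
      _ ≤ M * L := by rw [hlogK]; exact hML
  have hlogH0 : 0 ≤ Real.log H := Real.log_nonneg (by linarith)
  have hQexp : Q ≤ Real.exp (M * L) := by
    calc Q ≤ K * (N + 2) ^ 2 := hQ
      _ = Real.exp (Real.log (K * (N + 2) ^ 2)) := (Real.exp_log (by positivity)).symm
      _ ≤ _ := Real.exp_le_exp.2 (by rw [hlogK]; exact hML)
  have h1 : Real.exp (-(C₁ * Real.log H ^ C₁)) ^ m * S ≤ Real.exp (M * L) ^ m := by
    calc Real.exp (-(C₁ * Real.log H ^ C₁)) ^ m * S ≤ v ^ m * S := by gcongr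
      _ ≤ Q ^ m := hle
      _ ≤ _ := by gcongr
  rw [← Real.exp_nat_mul, ← Real.exp_nat_mul] at h1
  have h2 : S ≤ Real.exp (m * (M * L) + m * (C₁ * Real.log H ^ C₁)) := by
    have h3 : Real.exp (m * (C₁ * Real.log H ^ C₁)) *
        (Real.exp (m * -(C₁ * Real.log H ^ C₁)) * S) ≤
        Real.exp (m * (C₁ * Real.log H ^ C₁)) * Real.exp (m * (M * L)) := by gcongr
    rw [← mul_assoc, ← Real.exp_add, ← Real.exp_add] at h3
    have h4 : (m : ℝ) * (C₁ * Real.log H ^ C₁) + m * -(C₁ * Real.log H ^ C₁) = 0 := by ring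
    rw [h4, Real.exp_zero, one_mul] at h3
    rw [add_comm]
    exact h3
  refine h2.trans (Real.exp_le_exp.2 ?_)
  have hLp : ∀ k : ℕ, k ≤ m * M + m * C₁ * M ^ C₁ + C₁ + 1 →
      L ^ k ≤ L ^ (m * M + m * C₁ * M ^ C₁ + C₁ + 1) := fun k hk => pow_le_pow_right₀ hL hk
  have h5 : (m : ℝ) * (M * L) ≤ (m * M) * L ^ (m * M + m * C₁ * M ^ C₁ + C₁ + 1) := by
    have := hLp 1 (by omega)
    rw [pow_one] at this
    calc (m : ℝ) * (M * L) = (m * M) * L := by ring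
      _ ≤ _ := by gcongr
  have h6 : (m : ℝ) * (C₁ * Real.log H ^ C₁) ≤
      (m * C₁ * M ^ C₁) * L ^ (m * M + m * C₁ * M ^ C₁ + C₁ + 1) := by
    have := hLp C₁ (by omega)
    calc (m : ℝ) * (C₁ * Real.log H ^ C₁) ≤ m * (C₁ * (M * L) ^ C₁) := by gcongr
      _ = (m * C₁ * M ^ C₁) * L ^ C₁ := by rw [mul_pow]; ring
      _ ≤ _ := by gcongr
  have h7 : 0 ≤ L ^ (m * M + m * C₁ * M ^ C₁ + C₁ + 1) := by positivity
  have h8 : 0 ≤ (C₁ : ℝ) * L ^ (m * M + m * C₁ * M ^ C₁ + C₁ + 1) := by positivity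
  push_cast
  nlinarith

theorem cm_mix {z₀ z₁ : ℍ} (hz₀ : IsCM z₀) (hq : QM (jInv z₁)) {m : ℕ} (hm : 0 < m) (C₀ : ℝ) :
    ∃ C : ℕ, ∀ (T : ℝ) (Y Z : ℂ), (∃ N, 0 < N ∧ IsogDeg N Y Z) →
      ‖Y - jInv z₀‖ ^ m * T ≤ C₀ → ‖Z - jInv z₁‖ ^ m * T ≤ C₀ →
      T ≤ Real.exp (C * Real.log ((mdeg Y Z : ℝ) + 2) ^ C) := by
  obtain ⟨K, m', hK1, hm', hnear⟩ := near z₀ z₁ C₀ hm
  obtain ⟨a, b, c, ha0, hz⟩ := hz₀
  obtain ⟨C₁, hC₁⟩ := hq z₁ rfl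
  set H₀ : ℝ := |(a : ℝ)| + |(b : ℝ)| + |(c : ℝ)| with hH₀
  have haH : |(a : ℝ)| ≤ H₀ := by
    have h1 := abs_nonneg (b : ℝ)
    have h2 := abs_nonneg (c : ℝ)
    linarith
  have hbH : |(b : ℝ)| ≤ H₀ := by
    have h1 := abs_nonneg (a : ℝ)
    have h2 := abs_nonneg (c : ℝ)
    linarith
  have hcH : |(c : ℝ)| ≤ H₀ := by
    have h1 := abs_nonneg (a : ℝ)
    have h2 := abs_nonneg (b : ℝ)
    linarith
  have hH₀0 : 0 ≤ H₀ := (abs_nonneg _).trans haH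
  have hne : ¬ (a = 0 ∧ b = 0 ∧ c = 0) := fun h => ha0 h.1
  set Z₀ : ℝ := ‖(z₀ : ℂ)‖ + 1 with hZ₀
  set Z₁ : ℝ := ‖(z₁ : ℂ)‖ + 1 with hZ₁
  have hZ₀1 : 1 ≤ Z₀ := by rw [hZ₀]; have := norm_nonneg (z₀ : ℂ); linarith
  have hZ₁1 : 1 ≤ Z₁ := by rw [hZ₁]; have := norm_nonneg (z₁ : ℂ); linarith
  have hK0 : 0 < K := by linarith
  set K' : ℝ := 6 * H₀ * K ^ 2 + 4 * H₀ * K ^ 2 * Z₀ * Z₁ + 3 with hK'
  have hp1 : 0 ≤ 6 * H₀ * K ^ 2 := by positivity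
  have hp2 : 0 ≤ 4 * H₀ * K ^ 2 * Z₀ * Z₁ := by positivity
  have hK'1 : 1 ≤ K' := by linarith
  obtain ⟨C₂, hC₂⟩ := Mix_size C₁ m' K' hK'1
  obtain ⟨M, hM⟩ := exists_nat_ge (Real.log K)
  refine ⟨C₂ + M, ?_⟩
  intro T Y Z hN hY hZ
  -- the minimal degree is positive
  have hmd : 1 ≤ mdeg Y Z := (Nat.sInf_mem (s := {N : ℕ | 0 < N ∧ IsogDeg N Y Z}) hN).1
  have hmd1 : (1 : ℝ) ≤ (mdeg Y Z : ℝ) := by exact_mod_cast hmd
  have hL : 1 ≤ Real.log ((mdeg Y Z : ℝ) + 2) := by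
    rw [Real.le_log_iff_exp_le (by linarith)]
    have := Real.exp_one_lt_d9
    linarith
  have hmono : ∀ k : ℕ, k ≤ C₂ + M → (k : ℝ) * Real.log ((mdeg Y Z : ℝ) + 2) ^ k ≤
      ((C₂ + M : ℕ) : ℝ) * Real.log ((mdeg Y Z : ℝ) + 2) ^ (C₂ + M) := by
    intro k hk
    have h1 : (k : ℝ) ≤ ((C₂ + M : ℕ) : ℝ) := by exact_mod_cast hk
    exact mul_le_mul h1 (pow_le_pow_right₀ hL hk) (by positivity) (by positivity)
  rcases lt_or_ge T K with hT | hT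
  · have h1 : T ≤ Real.exp M := by
      calc T ≤ K := hT.le
        _ = Real.exp (Real.log K) := (Real.exp_log hK0).symm
        _ ≤ _ := Real.exp_le_exp.2 hM
    refine h1.trans (Real.exp_le_exp.2 ?_)
    refine le_trans ?_ (hmono M (by omega))
    have h2 : (1 : ℝ) ≤ Real.log ((mdeg Y Z : ℝ) + 2) ^ M := one_le_pow₀ hL
    have h3 : (0 : ℝ) ≤ M := Nat.cast_nonneg _
    nlinarith
  · obtain ⟨g, hgd, hdet, -, hent, hLT⟩ := hnear T Y Z hT hN hY hZ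
    have hT0 : 0 < T := by linarith
    have hNeq : (g.det : ℝ) = (mdeg Y Z : ℝ) := by
      rw [hgd]
      norm_cast
    set N : ℝ := (g.det : ℝ) with hNdef
    rw [← hNeq] at hmd1
    have hN0 : 0 < N := by linarith
    have hKN : 0 ≤ K * N := by positivity
    set L : ℂ := (z₁ : ℂ) * ((g 1 0 : ℂ) * z₀ + (g 1 1 : ℂ)) - ((g 0 0 : ℂ) * z₀ + (g 0 1 : ℂ))
      with hLdef
    set S : ℂ := (g 0 0 : ℂ) - (g 1 0 : ℂ) * (z₁ : ℂ) with hSdef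
    have hS0 : S ≠ 0 := by
      intro hS
      have him := congrArg Complex.im hS
      have hre := congrArg Complex.re hS
      rw [hSdef] at him hre
      simp only [Complex.sub_im, Complex.mul_im, Complex.sub_re, Complex.mul_re,
        Complex.intCast_re, Complex.intCast_im, zero_mul, add_zero, sub_zero, Complex.zero_im,
        Complex.zero_re, zero_sub, neg_eq_zero, mul_eq_zero] at him hre
      have h1 := z₁.im_pos
      have h2 : (g 1 0 : ℝ) = 0 := by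
        rcases him with h | h
        · exact h
        · exact absurd h h1.ne'
      have h3 : (g 0 0 : ℝ) = 0 := by
        rw [h2, zero_mul, sub_zero] at hre
        exact hre
      have h2' : g 1 0 = 0 := by exact_mod_cast h2
      have h3' : g 0 0 = 0 := by exact_mod_cast h3
      rw [Matrix.det_fin_two, h2', h3'] at hdet
      simp at hdet
    set t : ℂ := ((g 1 1 : ℂ) * z₁ - (g 0 1 : ℂ)) / S with htdef
    have htS : t * S = (g 1 1 : ℂ) * z₁ - (g 0 1 : ℂ) := div_mul_cancel₀ _ hS0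
    have hmap : Maps g t z₁ := by
      rw [Maps]
      rw [hSdef] at htS
      linear_combination (-1 : ℂ) * htS
    obtain ⟨a', b', c', hne', ha', hb', hc', hform⟩ := form_map g hdet a b c hne haH hbH hcH hent
    have hf := hform t z₁ hmap
    have hval : (a' : ℂ) * (z₁ : ℂ) ^ 2 + b' * (z₁ : ℂ) + c' =
        L * (2 * (a : ℂ) * S * z₀ + (a : ℂ) * L + (b : ℂ) * S) := by
      rw [hf]
      have e1 : t * S = S * z₀ + L := by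
        rw [htS, hSdef, hLdef]
        ring
      have e2 : S ^ 2 * ((a : ℂ) * t ^ 2 + b * t + c) =
          (a : ℂ) * (t * S) ^ 2 + b * (t * S) * S + c * S ^ 2 := by ring
      rw [← hSdef, e2, e1]
      linear_combination S ^ 2 * hz
    -- norms
    have n00 : ‖(g 0 0 : ℂ)‖ ≤ K * N := by rw [Complex.norm_intCast]; exact hent 0 0
    have n01 : ‖(g 0 1 : ℂ)‖ ≤ K * N := by rw [Complex.norm_intCast]; exact hent 0 1
    have n10 : ‖(g 1 0 : ℂ)‖ ≤ K * N := by rw [Complex.norm_intCast]; exact hent 1 0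
    have n11 : ‖(g 1 1 : ℂ)‖ ≤ K * N := by rw [Complex.norm_intCast]; exact hent 1 1
    have hSn : ‖S‖ ≤ K * N * Z₁ := by
      calc ‖S‖ ≤ ‖(g 0 0 : ℂ)‖ + ‖(g 1 0 : ℂ) * (z₁ : ℂ)‖ := norm_sub_le _ _
        _ = ‖(g 0 0 : ℂ)‖ + ‖(g 1 0 : ℂ)‖ * ‖(z₁ : ℂ)‖ := by rw [norm_mul]
        _ ≤ K * N + K * N * ‖(z₁ : ℂ)‖ := by gcongr
        _ = _ := by rw [hZ₁]; ring
    have hrow : ∀ x y : ℂ, ‖x‖ ≤ K * N → ‖y‖ ≤ K * N → ‖x * (z₀ : ℂ) + y‖ ≤ K * N * Z₀ := by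
      intro x y hx hy
      calc ‖x * (z₀ : ℂ) + y‖ ≤ ‖x * (z₀ : ℂ)‖ + ‖y‖ := norm_add_le _ _
        _ = ‖x‖ * ‖(z₀ : ℂ)‖ + ‖y‖ := by rw [norm_mul]
        _ ≤ K * N * ‖(z₀ : ℂ)‖ + K * N := by gcongr
        _ = _ := by rw [hZ₀]; ring
    have hLn : ‖L‖ ≤ K * N * Z₀ * Z₁ := by
      calc ‖L‖ ≤ ‖(z₁ : ℂ) * ((g 1 0 : ℂ) * z₀ + (g 1 1 : ℂ))‖ +
            ‖(g 0 0 : ℂ) * z₀ + (g 0 1 : ℂ)‖ := norm_sub_le _ _
        _ = ‖(z₁ : ℂ)‖ * ‖(g 1 0 : ℂ) * z₀ + (g 1 1 : ℂ)‖ +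
            ‖(g 0 0 : ℂ) * z₀ + (g 0 1 : ℂ)‖ := by rw [norm_mul]
        _ ≤ ‖(z₁ : ℂ)‖ * (K * N * Z₀) + K * N * Z₀ := by
            gcongr
            · exact hrow _ _ n10 n11
            · exact hrow _ _ n00 n01
        _ = _ := by rw [hZ₁]; ring
    have na : ‖(a : ℂ)‖ ≤ H₀ := by rw [Complex.norm_intCast]; exact haH
    have nb : ‖(b : ℂ)‖ ≤ H₀ := by rw [Complex.norm_intCast]; exact hbH
    have nz : ‖(z₀ : ℂ)‖ ≤ Z₀ := by rw [hZ₀]; linarith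
    have hfac : ‖2 * (a : ℂ) * S * z₀ + (a : ℂ) * L + (b : ℂ) * S‖ ≤
        4 * H₀ * (K * N) * Z₀ * Z₁ := by
      have f1 : ‖2 * (a : ℂ) * S * z₀‖ ≤ 2 * H₀ * (K * N * Z₁) * Z₀ := by
        rw [norm_mul, norm_mul, norm_mul, Complex.norm_ofNat]
        gcongr
      have f2 : ‖(a : ℂ) * L‖ ≤ H₀ * (K * N * Z₀ * Z₁) := by
        rw [norm_mul]
        gcongr
      have f3 : ‖(b : ℂ) * S‖ ≤ H₀ * (K * N * Z₁) := by
        rw [norm_mul]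
        gcongr
      have f4 : H₀ * (K * N * Z₁) ≤ H₀ * (K * N) * Z₀ * Z₁ := by
        have : 0 ≤ H₀ * (K * N) * Z₁ := by positivity
        nlinarith
      calc ‖2 * (a : ℂ) * S * z₀ + (a : ℂ) * L + (b : ℂ) * S‖
          ≤ ‖2 * (a : ℂ) * S * z₀ + (a : ℂ) * L‖ + ‖(b : ℂ) * S‖ := norm_add_le _ _
        _ ≤ ‖2 * (a : ℂ) * S * z₀‖ + ‖(a : ℂ) * L‖ + ‖(b : ℂ) * S‖ := by
            gcongr
            exact norm_add_le _ _
        _ ≤ 2 * H₀ * (K * N * Z₁) * Z₀ + H₀ * (K * N * Z₀ * Z₁) + H₀ * (K * N) * Z₀ * Z₁ := by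
            linarith
        _ = _ := by ring
    -- the lower bound
    set H : ℝ := 6 * H₀ * (K * N) ^ 2 + 3 with hHdef
    have hHp : 0 ≤ 6 * H₀ * (K * N) ^ 2 := by positivity
    have hH3 : 3 ≤ H := by linarith
    have hlow := hC₁ a' b' c' H hH3 (ha'.trans (by linarith)) (hb'.trans (by linarith))
      (hc'.trans (by linarith)) hne'
    set Q : ℝ := (K * N) * (4 * H₀ * (K * N) * Z₀ * Z₁) with hQdef
    have hQ0 : 0 ≤ Q := by positivity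
    have hN2 : N ^ 2 ≤ (N + 2) ^ 2 := by gcongr; linarith
    have hp3 : (3 : ℝ) ≤ 3 * (N + 2) ^ 2 := by nlinarith
    have hq1 : 6 * H₀ * K ^ 2 * N ^ 2 ≤ 6 * H₀ * K ^ 2 * (N + 2) ^ 2 :=
      mul_le_mul_of_nonneg_left hN2 hp1
    have hq2 : 4 * H₀ * K ^ 2 * Z₀ * Z₁ * N ^ 2 ≤ 4 * H₀ * K ^ 2 * Z₀ * Z₁ * (N + 2) ^ 2 :=
      mul_le_mul_of_nonneg_left hN2 hp2
    have hq3 : 0 ≤ 6 * H₀ * K ^ 2 * (N + 2) ^ 2 := by positivity
    have hq4 : 0 ≤ 4 * H₀ * K ^ 2 * Z₀ * Z₁ * (N + 2) ^ 2 := by positivity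
    have hHK : H ≤ K' * (N + 2) ^ 2 := by
      calc H = 6 * H₀ * K ^ 2 * N ^ 2 + 3 := by rw [hHdef]; ring
        _ ≤ 6 * H₀ * K ^ 2 * (N + 2) ^ 2 + 4 * H₀ * K ^ 2 * Z₀ * Z₁ * (N + 2) ^ 2 +
            3 * (N + 2) ^ 2 := by linarith
        _ = _ := by rw [hK']; ring
    have hQK : Q ≤ K' * (N + 2) ^ 2 := by
      calc Q = 4 * H₀ * K ^ 2 * Z₀ * Z₁ * N ^ 2 := by rw [hQdef]; ring
        _ ≤ 6 * H₀ * K ^ 2 * (N + 2) ^ 2 + 4 * H₀ * K ^ 2 * Z₀ * Z₁ * (N + 2) ^ 2 +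
            3 * (N + 2) ^ 2 := by linarith
        _ = _ := by rw [hK']; ring
    have hfin : T ≤ Real.exp (C₂ * Real.log (N + 2) ^ C₂) := by
      refine hC₂ N H Q T _ hmd1 hH3 hHK hQ0 hQK hT0 hlow ?_
      rw [hval, norm_mul, mul_pow, hQdef, mul_pow]
      calc ‖L‖ ^ m' * ‖2 * (a : ℂ) * S * z₀ + (a : ℂ) * L + (b : ℂ) * S‖ ^ m' * T
          = (‖L‖ ^ m' * T) * ‖2 * (a : ℂ) * S * z₀ + (a : ℂ) * L + (b : ℂ) * S‖ ^ m' := by ring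
        _ ≤ (K * N) ^ m' * (4 * H₀ * (K * N) * Z₀ * Z₁) ^ m' := by gcongr
    refine hfin.trans (Real.exp_le_exp.2 ?_)
    have h1 := hmono C₂ (by omega)
    rw [← hNeq] at h1 ⊢
    exact h1

end Pool.Agent.LGO
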