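import Mathlib
import Pool.Agent.LGO.S.CuspA
import Pool.Agent.LGO.S.Sparse
import Pool.Agent.LGO.H.CoreG
import Pool.Agent.LGO.Q.Quad
import Pool.Agent.LGO.Gal.Fin
import Pool.Agent.LGO.Gal.NCM
import Pool.Agent.LGO.C.Cusp
import Pool.Agent.LGO.C.Cls
import Pool.Agent.LGO.C.Mix

/-!
# LGO/C: points at infinity of type A with a CM coordinate

Proof of `cm_core`.  `cm_cusp`: `F, C₁, m, k, l, α`.  The set `P` of the triples `(s β, s γ, s α)`, `s` an automorphism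
of `ℂ`, is finite (as `Sparse_range_finite` in `LGO/S/Sparse.lean`: apply it to `(β, γ)` and to `(α, α)`).  For each of
them choose `z₀, z₁` with `jInv z₀ = s β`, `jInv z₁ = s γ` (`j_surj`); `s β` is a CM value and algebraic
(`NCM.map`, `ncm_iff`, `isCMVal_map_iff`, `isCMVal_jInv`), so `z₀` is CM, hence algebraic; the same for `z₁`.  `s α ≠ 0` is
algebraic.  `cm_cls` for `z₀, z₁, s α, k, l, m, C₁` gives `C_q`, `N_q` for each `q ∈ P`; let `C₂`, `N₀` be the maxima (`P` finite).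
`E₀ = {x ∈ V | ∃ m, 0 < m ≤ N₀, IsogDeg m x_b x_c}` is finite (`finite_isogDeg_le` in `LGO/Gal/Fin.lean`; `i b ≠ i c` and the rest
as at the end of `Sparse_main` in `LGO/S/Sparse.lean`).  `core_good` (`LGO/H/CoreG.lean`) with the hypothesis `hF0`: let
`x ∈ V`, `x ∉ E₀`, all coordinates NCM, isogenous, `N ≥ 3` a bound of all `mdeg`, `s` an automorphism, `T = ‖s F(x)‖`.  If
`T < C₁`: fine.  Otherwise `cm_cusp` gives the three inequalities for `Y = s x_b`, `Z = s x_c`; `Y ≠ s β` because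
`x_b` is NCM and `β` is not; `Z ≠ s γ`; `mdeg Y Z = mdeg x_b x_c > N₀` (`mdeg_map`, `mdeg_spec`).  So `T ≤ (C_q N) ^ C_q`, and
`(C₂ N) ^ C₂ ≤ exp (C (log N) ^ C)` as `log N ≥ 1`.

Proof of `mix_core`.  The same with `cuspA` (`LGO/S/CuspA.lean`) and `cm_mix` in place of `cm_cusp` and `cm_cls`; the pairs
`(s β, s γ)`; `QM (s γ)` by `quad` (as in `Sparse_main`); no exceptional set is needed here.  If
`β` is not CM and `γ` is CM: exchange `b` and `c` (`TypeA V i a c b γ β`).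
-/

namespace Pool.Agent.LGO

open MvPolynomial UpperHalfPlane Filter Topology Pool.Agent.Hhelper14.ZPL Pool.Agent.Hhelper14.ZP

private theorem cmc_log {N : ℝ} (hN : 3 ≤ N) : 1 ≤ Real.log N := by
  rw [Real.le_log_iff_exp_le (by linarith)]
  have := Real.exp_one_lt_d9
  linarith

private theorem cmc_mono {N : ℝ} (hN : 3 ≤ N) {A B : ℝ} {a b : ℕ} (hAB : A ≤ B) (hB : 0 ≤ B)
    (hab : a ≤ b) : Real.exp (A * Real.log N ^ a) ≤ Real.exp (B * Real.log N ^ b) := by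
  have h1 := cmc_log hN
  apply Real.exp_le_exp.2
  have h2 : Real.log N ^ a ≤ Real.log N ^ b := pow_le_pow_right₀ h1 hab
  exact mul_le_mul hAB h2 (by positivity) hB

/-- powers of `N` are small -/
private theorem cmc_num1 {C : ℕ} {N M : ℝ} (hN : 3 ≤ N) (hM0 : 0 ≤ M) (hM : M ≤ N) {T : ℝ}
    (hT : T ≤ (C * M) ^ C) : T ≤ Real.exp (((C * (C + 1) : ℕ) : ℝ) * Real.log N ^ 1) := by
  have h1 := cmc_log hN
  have hN0 : 0 < N := by linarith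
  refine hT.trans ?_
  have h2 : (C : ℝ) * M ≤ Real.exp ((C + 1) * Real.log N) := by
    have h3 : (C : ℝ) ≤ Real.exp (C * Real.log N) := by
      have h4 := Real.add_one_le_exp ((C : ℝ) * Real.log N)
      have h5 : (C : ℝ) * 1 ≤ C * Real.log N := by gcongr
      linarith
    have h6 : M ≤ Real.exp (Real.log N) := by rwa [Real.exp_log hN0]
    calc (C : ℝ) * M ≤ Real.exp (C * Real.log N) * Real.exp (Real.log N) := by gcongr
      _ = Real.exp ((C + 1) * Real.log N) := by rw [← Real.exp_add]; ring_nf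
  calc ((C : ℝ) * M) ^ C ≤ Real.exp ((C + 1) * Real.log N) ^ C := by gcongr
    _ = Real.exp (((C * (C + 1) : ℕ) : ℝ) * Real.log N ^ 1) := by
        rw [← Real.exp_nat_mul]
        push_cast
        ring_nf

private theorem cmc_num2 {C : ℕ} {N M : ℝ} (hN : 3 ≤ N) (hM0 : 0 ≤ M) (hM : M ≤ N) {T : ℝ}
    (hT : T ≤ Real.exp (C * Real.log (M + 2) ^ C)) :
    T ≤ Real.exp (((C * 2 ^ C : ℕ) : ℝ) * Real.log N ^ C) := by
  have hN0 : 0 < N := by linarith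
  refine hT.trans (Real.exp_le_exp.2 ?_)
  have h1 : Real.log (M + 2) ≤ 2 * Real.log N := by
    have h2 : Real.log (M + 2) ≤ Real.log (N ^ 2) := Real.log_le_log (by linarith) (by nlinarith)
    rwa [Real.log_pow] at h2
  have h3 : 0 ≤ Real.log (M + 2) := Real.log_nonneg (by linarith)
  calc (C : ℝ) * Real.log (M + 2) ^ C ≤ C * (2 * Real.log N) ^ C := by gcongr
    _ = ((C * 2 ^ C : ℕ) : ℝ) * Real.log N ^ C := by
        rw [mul_pow]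
        push_cast
        ring

private theorem cmc_const {N C₁ T : ℝ} (hN : 3 ≤ N) (hT : T ≤ C₁) :
    T ≤ Real.exp (((⌈C₁⌉₊ : ℕ) : ℝ) * Real.log N ^ 1) := by
  have h1 := cmc_log hN
  have h2 := Nat.le_ceil C₁
  have h3 := Real.add_one_le_exp (((⌈C₁⌉₊ : ℕ) : ℝ) * Real.log N ^ 1)
  have h4 : ((⌈C₁⌉₊ : ℕ) : ℝ) * 1 ≤ (⌈C₁⌉₊ : ℕ) * Real.log N ^ 1 := by
    rw [pow_one]
    gcongr
  linarith

private theorem cmc_alg_map {z : ℂ} (hz : IsAlgebraic ℚ z) (s : ℂ ≃+* ℂ) :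
    IsAlgebraic ℚ (s z) := by
  obtain ⟨p, hp0, hp⟩ := hz
  refine ⟨p, hp0, ?_⟩
  have h2 := Polynomial.hom_eval₂ p (algebraMap ℚ ℂ) (s : ℂ →+* ℂ) z
  have h3 : ((s : ℂ →+* ℂ).comp (algebraMap ℚ ℂ)) = algebraMap ℚ ℂ := RingHom.ext_rat _ _
  rw [h3, ← Polynomial.aeval_def, hp, map_zero] at h2
  exact h2.symm

private theorem cmc_cm {β : ℂ} (hβ : ¬ NCM β) (s : ℂ ≃+* ℂ) {z : ℍ} (hz : jInv z = s β) :
    IsCM z := by
  have h1 : ¬ NCM (s β) := by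
    rw [ncm_map_iff]
    exact hβ
  rw [ncm_iff, not_not, ← hz, isCMVal_jInv] at h1
  exact h1

private theorem cmc_cm_alg {z : ℍ} (hz : IsCM z) : IsAlgebraic ℚ (z : ℂ) := by
  obtain ⟨a, b, c, ha, h⟩ := hz
  refine ⟨Polynomial.C (a : ℚ) * Polynomial.X ^ 2 + Polynomial.C (b : ℚ) * Polynomial.X +
    Polynomial.C (c : ℚ), ?_, ?_⟩
  · intro h0
    have h1 := congrArg (fun p => Polynomial.coeff p 2) h0
    simp only [Polynomial.coeff_add, Polynomial.coeff_C_mul, Polynomial.coeff_X_pow,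
      Polynomial.coeff_X, Polynomial.coeff_C, Polynomial.coeff_zero] at h1
    norm_num at h1
    exact ha h1
  · simp only [map_add, map_mul, Polynomial.aeval_C, Polynomial.aeval_X, map_pow]
    simpa using h

theorem cm_core {n : ℕ} {V : Set (Fin n → ℂ)} (hV : Pool.Agent.Hhelper14.ZPL.IsIrredClosed V)
    (hVk : KClosed V) (hdim : Pool.Agent.Hhelper14.ZPL.dim V = 1) (i : Fin 3 → Fin n)
    (hconst : ∀ a, ∀ c : ℂ, ∃ x ∈ V, x (i a) ≠ c)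
    (hmod : ∀ a b, a ≠ b → ∀ g : GL (Fin 2) ℚ, 0 < g.det.val →
      ∃ x ∈ V, ¬ ∃ τ : ℍ, x (i a) = jInv τ ∧ x (i b) = jInv (gact g τ))
    {a b c : Fin 3} {β γ : ℂ} (h : TypeA V i a b c β γ) (hβ : ¬ NCM β) (hγ : ¬ NCM γ) :
    ∃ (C : ℕ) (E : Set (Fin n → ℂ)), E.Finite ∧ ∀ x ∈ V, x ∉ E → (∀ a, NCM (x (i a))) →
      (∀ a b, ∃ N, 0 < N ∧ IsogDeg N (x (i a)) (x (i b))) → (∀ a, IsIntegral ℤ (x (i a))) →
      Concl i C x := by
  obtain ⟨haβ, haγ, F, C₁, m, k, l, α, hF, hC₁, hm, hk, hl, hα0, hα, hcusp⟩ :=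
    cm_cusp hV hVk hdim i hconst h
  set P : Set (ℂ × ℂ × ℂ) := Set.range fun s : ℂ ≃+* ℂ => (s β, s γ, s α) with hPdef
  have hP : P.Finite := by
    refine Set.Finite.subset
      (((Sparse_range_finite haβ haγ).prod (Sparse_range_finite hα hα)).image
        fun q : (ℂ × ℂ) × (ℂ × ℂ) => (q.1.1, q.1.2, q.2.1)) ?_
    rintro _ ⟨s, rfl⟩
    exact ⟨((s β, s γ), (s α, s α)), ⟨⟨s, rfl⟩, ⟨s, rfl⟩⟩, rfl⟩
  have hcls : ∀ q : P, ∃ C N₀ : ℕ, ∀ (T : ℝ) (Y Z : ℂ), Y ≠ q.1.1 → Z ≠ q.1.2.1 →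
      (∃ N, 0 < N ∧ IsogDeg N Y Z) → N₀ < mdeg Y Z →
      ‖Y - q.1.1‖ ^ m * T ≤ C₁ → ‖Z - q.1.2.1‖ ^ m * T ≤ C₁ →
      ‖(Y - q.1.1) ^ k - q.1.2.2 * (Z - q.1.2.1) ^ l‖ ^ m * T ≤
        C₁ * ‖(Z - q.1.2.1) ^ l‖ ^ m → T ≤ (C * mdeg Y Z) ^ C := by
    rintro ⟨_, s, rfl⟩
    obtain ⟨z₀, hz₀⟩ := Pool.Agent.Hhelper14.ZPL.j_surj (s β)
    obtain ⟨z₁, hz₁⟩ := Pool.Agent.Hhelper14.ZPL.j_surj (s γ)
    have h1 := cm_cls (cmc_cm_alg (cmc_cm hβ s hz₀)) (cmc_cm_alg (cmc_cm hγ s hz₁))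
      (by rw [hz₀]; exact cmc_alg_map haβ s) (by rw [hz₁]; exact cmc_alg_map haγ s)
      (α := s α) ((map_ne_zero s).2 hα0) (cmc_alg_map hα s) hk hl hm C₁
    rw [hz₀, hz₁] at h1
    exact h1
  choose Cq Nq hq using hcls
  have : Finite P := hP
  obtain ⟨C₂, hC₂⟩ := (Set.finite_range Cq).bddAbove
  obtain ⟨N₀, hN₀⟩ := (Set.finite_range Nq).bddAbove
  have hib : i b ≠ i c := by
    intro hbc
    obtain ⟨x, -, hx⟩ := hmod b c h.bc 1 (by simp)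
    apply hx
    obtain ⟨τ, hτ⟩ := Pool.Agent.Hhelper14.ZPL.j_surj (x (i b))
    exact ⟨τ, hτ.symm, by rw [gact_one, ← hbc]; exact hτ.symm⟩
  obtain ⟨C₀, hC₀⟩ : ∃ C₀ : ℕ, C₀ = ⌈C₁⌉₊ + C₂ * (C₂ + 1) + 1 := ⟨_, rfl⟩
  refine core_good hV hVk hdim i hF (C₀ := C₀)
    (finite_isogDeg_le hV hdim hib (hmod b c h.bc) N₀) ?_
  intro x hx hxE hncm hisog N hN hNab s
  have hNm : (mdeg (x (i b)) (x (i c)) : ℝ) ≤ N := hNab b c
  have hmpos : (0 : ℝ) ≤ (mdeg (x (i b)) (x (i c)) : ℝ) := Nat.cast_nonneg _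
  rcases le_total ‖s (aeval (x ∘ i) F : ℂ)‖ C₁ with hT | hT
  · refine (cmc_const hN hT).trans (cmc_mono hN ?_ (Nat.cast_nonneg _) (by omega))
    rw [hC₀]
    push_cast
    have : (0 : ℝ) ≤ (C₂ : ℝ) * (C₂ + 1) + 1 := by positivity
    linarith
  · obtain ⟨h1, h2, h3⟩ := hcusp s x hx hT
    have hspec := mdeg_spec (hisog b c)
    obtain ⟨q, hqq⟩ : ∃ q : P, q.1 = (s β, s γ, s α) := ⟨⟨_, s, rfl⟩, rfl⟩
    have hYne : s (x (i b)) ≠ s β := by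
      intro he
      apply hβ
      rw [← s.injective he]
      exact hncm b
    have hZne : s (x (i c)) ≠ s γ := by
      intro he
      apply hγ
      rw [← s.injective he]
      exact hncm c
    have h4 := hq q ‖s (aeval (x ∘ i) F : ℂ)‖ (s (x (i b))) (s (x (i c)))
    rw [hqq, mdeg_map] at h4
    have h5 := h4 hYne hZne ⟨_, hspec.1, isogDeg_map s hspec.1 hspec.2⟩ ?_ h1 h2 h3
    · have h6 : Cq q ≤ C₂ := hC₂ ⟨q, rfl⟩
      have h7 : Cq q * (Cq q + 1) ≤ C₂ * (C₂ + 1) := Nat.mul_le_mul h6 (by omega)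
      refine (cmc_num1 hN hmpos hNm h5).trans (cmc_mono hN ?_ (Nat.cast_nonneg _) (by omega))
      rw [hC₀]
      exact_mod_cast (by omega : Cq q * (Cq q + 1) ≤ ⌈C₁⌉₊ + C₂ * (C₂ + 1) + 1)
    · by_contra hle
      rw [not_lt] at hle
      exact hxE ⟨hx, _, hspec.1, hle.trans (hN₀ ⟨q, rfl⟩), hspec.2⟩

theorem mix_core {n : ℕ} {V : Set (Fin n → ℂ)} (hV : Pool.Agent.Hhelper14.ZPL.IsIrredClosed V)
    (hVk : KClosed V) (hdim : Pool.Agent.Hhelper14.ZPL.dim V = 1) (i : Fin 3 → Fin n)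
    {a b c : Fin 3} {β γ : ℂ} (h : TypeA V i a b c β γ) (hβ : ¬ NCM β) (hγ : NCM γ) :
    ∃ (C : ℕ) (E : Set (Fin n → ℂ)), E.Finite ∧ ∀ x ∈ V, x ∉ E → (∀ a, NCM (x (i a))) →
      (∀ a b, ∃ N, 0 < N ∧ IsogDeg N (x (i a)) (x (i b))) → (∀ a, IsIntegral ℤ (x (i a))) →
      Concl i C x := by
  obtain ⟨haβ, haγ, F, C₁, m, hF, hC₁, hm, hcusp⟩ := cuspA hV hVk hdim i h
  set P : Set (ℂ × ℂ) := Set.range fun s : ℂ ≃+* ℂ => (s β, s γ) with hPdef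
  have hP : P.Finite := Sparse_range_finite haβ haγ
  have hcls : ∀ q : P, ∃ C : ℕ, ∀ (T : ℝ) (Y Z : ℂ), (∃ N, 0 < N ∧ IsogDeg N Y Z) →
      ‖Y - q.1.1‖ ^ m * T ≤ C₁ → ‖Z - q.1.2‖ ^ m * T ≤ C₁ →
      T ≤ Real.exp (C * Real.log ((mdeg Y Z : ℝ) + 2) ^ C) := by
    rintro ⟨_, s, rfl⟩
    obtain ⟨z₀, hz₀⟩ := Pool.Agent.Hhelper14.ZPL.j_surj (s β)
    obtain ⟨z₁, hz₁⟩ := Pool.Agent.Hhelper14.ZPL.j_surj (s γ)
    have hqm : QM (s γ) := quad (cmc_alg_map haγ s) fun τ hτ => by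
      rw [← ncm_jInv, hτ]
      exact hγ.map s
    have h1 := cm_mix (cmc_cm hβ s hz₀) (z₁ := z₁) (by rw [hz₁]; exact hqm) hm C₁
    rw [hz₀, hz₁] at h1
    exact h1
  choose Cq hq using hcls
  have : Finite P := hP
  obtain ⟨C₂, hC₂⟩ := (Set.finite_range Cq).bddAbove
  obtain ⟨C₀, hC₀⟩ : ∃ C₀ : ℕ, C₀ = ⌈C₁⌉₊ + C₂ * 2 ^ C₂ + C₂ + 1 := ⟨_, rfl⟩
  refine core_good hV hVk hdim i hF (C₀ := C₀) Set.finite_empty ?_
  intro x hx hxE hncm hisog N hN hNab s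
  have hNm : (mdeg (x (i b)) (x (i c)) : ℝ) ≤ N := hNab b c
  have hmpos : (0 : ℝ) ≤ (mdeg (x (i b)) (x (i c)) : ℝ) := Nat.cast_nonneg _
  rcases le_total ‖s (aeval (x ∘ i) F : ℂ)‖ C₁ with hT | hT
  · refine (cmc_const hN hT).trans (cmc_mono hN ?_ (Nat.cast_nonneg _) (by omega))
    rw [hC₀]
    push_cast
    have : (0 : ℝ) ≤ (C₂ : ℝ) * 2 ^ C₂ + C₂ + 1 := by positivity
    linarith
  · obtain ⟨-, h1, h2⟩ := hcusp s x hx hT
    have hspec := mdeg_spec (hisog b c)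
    obtain ⟨q, hqq⟩ : ∃ q : P, q.1 = (s β, s γ) := ⟨⟨_, s, rfl⟩, rfl⟩
    have h4 := hq q ‖s (aeval (x ∘ i) F : ℂ)‖ (s (x (i b))) (s (x (i c)))
    rw [hqq, mdeg_map] at h4
    have h5 := h4 ⟨_, hspec.1, isogDeg_map s hspec.1 hspec.2⟩ h1 h2
    have h6 : Cq q ≤ C₂ := hC₂ ⟨q, rfl⟩
    have h7 : Cq q * 2 ^ Cq q ≤ C₂ * 2 ^ C₂ :=
      Nat.mul_le_mul h6 (Nat.pow_le_pow_right (by norm_num) h6)
    refine (cmc_num2 hN hmpos hNm h5).trans (cmc_mono hN ?_ (Nat.cast_nonneg _) (by omega))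
    rw [hC₀]
    exact_mod_cast (by omega : Cq q * 2 ^ Cq q ≤ ⌈C₁⌉₊ + C₂ * 2 ^ C₂ + C₂ + 1)

/-- `V` has a point at infinity with exactly one infinite coordinate at which one of the two
finite coordinates is a CM value -/
theorem cm_or_core {n : ℕ} {V : Set (Fin n → ℂ)} (hV : Pool.Agent.Hhelper14.ZPL.IsIrredClosed V)
    (hVk : KClosed V) (hdim : Pool.Agent.Hhelper14.ZPL.dim V = 1) (i : Fin 3 → Fin n)
    (hconst : ∀ a, ∀ c : ℂ, ∃ x ∈ V, x (i a) ≠ c)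
    (hmod : ∀ a b, a ≠ b → ∀ g : GL (Fin 2) ℚ, 0 < g.det.val →
      ∃ x ∈ V, ¬ ∃ τ : ℍ, x (i a) = jInv τ ∧ x (i b) = jInv (gact g τ))
    {a b c : Fin 3} {β γ : ℂ} (h : TypeA V i a b c β γ) (hn : ¬ NCM β ∨ ¬ NCM γ) :
    ∃ (C : ℕ) (E : Set (Fin n → ℂ)), E.Finite ∧ ∀ x ∈ V, x ∉ E → (∀ a, NCM (x (i a))) →
      (∀ a b, ∃ N, 0 < N ∧ IsogDeg N (x (i a)) (x (i b))) → (∀ a, IsIntegral ℤ (x (i a))) →
      Concl i C x := by
  have hsymm : TypeA V i a c b γ β := by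
    obtain ⟨P, hP1, hP2, hP3, hP4⟩ := h.ex
    exact ⟨h.ac, h.ab, h.bc.symm, P, hP1, hP2, hP4, hP3⟩
  by_cases hβ : NCM β
  · have hγ : ¬ NCM γ := hn.resolve_left (not_not.2 hβ)
    exact mix_core hV hVk hdim i hsymm hγ hβ
  · by_cases hγ : NCM γ
    · exact mix_core hV hVk hdim i h hβ hγ
    · exact cm_core hV hVk hdim i hconst hmod h hβ hγ

end Pool.Agent.LGO
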